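import Mathlib
import Pool.Agent.Work.MP_559b1d_an.Defs

/-! Bundle of small proof modules (one section per former module). -/

section

open MeasureTheory Filter Topology Set Complex
open scoped ComplexConjugate

namespace Pool.Agent.MP559

variable {H : Type*} [NormedAddCommGroup H] [InnerProductSpace ℂ H]

lemma compact_weak_null {T : H →L[ℂ] H} (hT : IsCompactOperator T) {f : ℕ → H} {M : ℝ}
    (hb : ∀ n, ‖f n‖ ≤ M) (hw : ∀ y : H, Tendsto (fun n => inner ℂ y (f n)) atTop (𝓝 0)) :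
    Tendsto (fun n => inner ℂ (T (f n)) (f n)) atTop (𝓝 0) := by
  obtain ⟨K, hK, hKs⟩ := hT.image_closedBall_subset_compact (f := (T : H →ₗ[ℂ] H)) M
  refine tendsto_of_subseq_tendsto fun ns hns => ?_
  have hmem : ∀ n, T (f (ns n)) ∈ K := by
    intro n
    apply hKs
    refine ⟨f (ns n), ?_, rfl⟩
    rw [mem_closedBall_zero_iff]
    exact hb _
  obtain ⟨y, _, φ, hφ, hlim⟩ := hK.tendsto_subseq hmem
  refine ⟨φ, ?_⟩
  have h1 : ∀ n, inner ℂ (T (f (ns (φ n)))) (f (ns (φ n))) =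
      inner ℂ (T (f (ns (φ n))) - y) (f (ns (φ n))) + inner ℂ y (f (ns (φ n))) := by
    intro n
    rw [inner_sub_left]; ring
  simp_rw [h1]
  have h2 : Tendsto (fun n => inner ℂ y (f (ns (φ n)))) atTop (𝓝 0) :=
    (hw y).comp (hns.comp hφ.tendsto_atTop)
  have h3 : Tendsto (fun n => inner ℂ (T (f (ns (φ n))) - y) (f (ns (φ n)))) atTop (𝓝 0) := by
    have h4 : Tendsto (fun n => ‖T (f (ns (φ n))) - y‖ * M) atTop (𝓝 0) := by
      have h5 : Tendsto (fun n => T (f (ns (φ n))) - y) atTop (𝓝 0) := by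
        have := hlim.sub_const y
        rw [sub_self] at this
        exact this
      have := h5.norm.mul_const M
      simpa using this
    refine squeeze_zero_norm (fun n => ?_) h4
    exact (norm_inner_le_norm _ _).trans (mul_le_mul_of_nonneg_left (hb _) (norm_nonneg _))
  simpa using h3.add h2

lemma weak_null_of_dense {D : Set H} (hD : Dense D) {f : ℕ → H} {M : ℝ} (hM : 0 ≤ M)
    (hb : ∀ n, ‖f n‖ ≤ M) (hw : ∀ y ∈ D, Tendsto (fun n => inner ℂ y (f n)) atTop (𝓝 0)) (y : H) :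
    Tendsto (fun n => inner ℂ y (f n)) atTop (𝓝 0) := by
  rw [Metric.tendsto_atTop]
  intro ε hε
  obtain ⟨z, hz, hzd⟩ := hD.exists_dist_lt y (show 0 < ε / (2 * (M + 1)) by positivity)
  obtain ⟨N, hN⟩ := (Metric.tendsto_atTop.mp (hw z hz)) (ε/2) (by positivity)
  refine ⟨N, fun n hn => ?_⟩
  have h1 := hN n hn
  rw [dist_zero_right] at h1 ⊢
  have h2 : inner ℂ y (f n) = inner ℂ (y - z) (f n) + inner ℂ z (f n) := by
    rw [inner_sub_left]; ring
  rw [h2]
  have h3 : ‖inner ℂ (y - z) (f n)‖ ≤ ε/2 := by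
    refine (norm_inner_le_norm _ _).trans ?_
    rw [dist_eq_norm] at hzd
    calc ‖y - z‖ * ‖f n‖ ≤ (ε / (2 * (M + 1))) * M :=
          mul_le_mul hzd.le (hb n) (norm_nonneg _) (by positivity)
      _ ≤ (ε / (2 * (M + 1))) * (M + 1) := by
          apply mul_le_mul_of_nonneg_left _ (by positivity); linarith
      _ = ε/2 := by field_simp
  calc _ ≤ ‖inner ℂ (y - z) (f n)‖ + ‖inner ℂ z (f n)‖ := norm_add_le _ _
    _ < ε := by linarith

end Pool.Agent.MP559

end

section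

open MeasureTheory Filter Topology Set
open scoped ENNReal

namespace Pool.Agent.MP559

lemma norm_coe_of_le {x : ℝ} (h : |x| ≤ 1/2) : ‖(x : AddCircle (1:ℝ))‖ = |x| := by
  rw [AddCircle.norm_coe_eq_abs_iff (1:ℝ) one_ne_zero]
  simpa using h

lemma lintegral_radial (φ : ℝ → ℝ≥0∞) :
    ∫⁻ σ : AddCircle (1:ℝ), φ ‖σ‖ = 2 * ∫⁻ x in Ioc (0:ℝ) (1/2), φ x := by
  rw [← AddCircle.lintegral_preimage (1:ℝ) (-(1/2))]
  have h0 : (-(1/2) + 1 : ℝ) = 1/2 := by norm_num
  rw [h0]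
  have h1 : ∫⁻ a in Ioc (-(1/2):ℝ) (1/2), φ ‖(a : AddCircle (1:ℝ))‖ =
      ∫⁻ a in Ioc (-(1/2):ℝ) (1/2), φ |a| := by
    apply setLIntegral_congr_fun measurableSet_Ioc
    intro a ha
    have : ‖(a : AddCircle (1:ℝ))‖ = |a| := norm_coe_of_le (abs_le.mpr ⟨ha.1.le, ha.2⟩)
    simp only [this]
  rw [h1]
  have h2 : Ioc (-(1/2):ℝ) (1/2) = Ioc (-(1/2)) 0 ∪ Ioc 0 (1/2) := by
    rw [Ioc_union_Ioc_eq_Ioc] <;> norm_num
  rw [h2, lintegral_union measurableSet_Ioc (by
    rw [Set.disjoint_left]; intro x hx hx'; exact absurd hx.2 (not_le.mpr hx'.1))]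
  have h3 : ∫⁻ a in Ioc (0:ℝ) (1/2), φ |a| = ∫⁻ a in Ioc (0:ℝ) (1/2), φ a := by
    apply setLIntegral_congr_fun measurableSet_Ioc
    intro a ha
    simp only [abs_of_pos ha.1]
  have h4 : ∫⁻ a in Ioc (-(1/2):ℝ) 0, φ |a| = ∫⁻ a in Ioc (0:ℝ) (1/2), φ a := by
    have h5 : ∫⁻ a in Ioc (-(1/2):ℝ) 0, φ |a| = ∫⁻ a in Ioo (-(1/2):ℝ) 0, φ |a| :=
      setLIntegral_congr Ioo_ae_eq_Ioc.symm
    have h6 : ∫⁻ a in Ioc (0:ℝ) (1/2), φ a = ∫⁻ a in Ioo (0:ℝ) (1/2), φ a :=
      setLIntegral_congr Ioo_ae_eq_Ioc.symm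
    rw [h5, h6, ← lintegral_indicator measurableSet_Ioo, ← lintegral_indicator measurableSet_Ioo,
      ← (Measure.measurePreserving_neg (volume : Measure ℝ)).lintegral_comp_emb
        (MeasurableEquiv.neg ℝ).measurableEmbedding]
    apply lintegral_congr
    intro a
    by_cases ha : a ∈ Ioo (0:ℝ) (1/2)
    · rw [indicator_of_mem ha, indicator_of_mem (by
        constructor
        · linarith [ha.2]
        · linarith [ha.1] : -a ∈ Ioo (-(1/2):ℝ) 0)]
      rw [abs_neg, abs_of_pos ha.1]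
    · rw [indicator_of_notMem ha, indicator_of_notMem]
      intro h
      apply ha
      exact ⟨by linarith [h.2], by linarith [h.1]⟩
  rw [h3, h4, two_mul]

/-- the basic Hilbert type integral -/
lemma hilbert_integral {a : ℝ} (ha : 0 < a) :
    ∫⁻ x in Ioi (0:ℝ), ENNReal.ofReal (1 / (√x * (a + x))) = ENNReal.ofReal (Real.pi / √a) := by
  have hsa : 0 < √a := Real.sqrt_pos.mpr ha
  have hd : ∀ x ∈ Ioi (0:ℝ), HasDerivAt (fun x : ℝ => (2 / √a) * Real.arctan (√x / √a))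
      (1 / (√x * (a + x))) x := by
    intro x hx
    have hx' : 0 < x := hx
    have hsx : 0 < √x := Real.sqrt_pos.mpr hx'
    have e1 := (((Real.hasDerivAt_sqrt hx'.ne').div_const (√a)).arctan).const_mul (2 / √a)
    refine HasDerivAt.congr_deriv e1 ?_
    have e2 : √x ^ 2 = x := Real.sq_sqrt hx'.le
    have e3 : √a ^ 2 = a := Real.sq_sqrt ha.le
    have e4 : 1 + (√x / √a) ^ 2 = (a + x) / a := by
      rw [div_pow, e2, e3]; field_simp
    rw [e4]
    field_simp
    rw [e3]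
  have hc : ContinuousWithinAt (fun x : ℝ => (2 / √a) * Real.arctan (√x / √a)) (Ici 0) 0 := by
    apply Continuous.continuousWithinAt
    have := Real.continuous_arctan
    fun_prop
  have hlim : Tendsto (fun x : ℝ => (2 / √a) * Real.arctan (√x / √a)) atTop
      (𝓝 ((2 / √a) * (Real.pi / 2))) := by
    apply Tendsto.const_mul
    have h1 : Tendsto (fun x : ℝ => √x / √a) atTop atTop :=
      Tendsto.atTop_div_const hsa Real.tendsto_sqrt_atTop
    exact ((Real.tendsto_arctan_atTop).mono_right nhdsWithin_le_nhds).comp h1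
  have hpos : ∀ x ∈ Ioi (0:ℝ), 0 ≤ 1 / (√x * (a + x)) := by
    intro x hx
    have hx' : 0 < x := hx
    positivity
  have hint : IntegrableOn (fun x : ℝ => 1 / (√x * (a + x))) (Ioi 0) :=
    integrableOn_Ioi_deriv_of_nonneg hc hd hpos hlim
  have hval := integral_Ioi_of_hasDerivAt_of_nonneg hc hd hpos hlim
  rw [← ofReal_integral_eq_lintegral_ofReal hint]
  · rw [hval]
    congr 1
    simp
  · rw [EventuallyLE, ae_restrict_iff' measurableSet_Ioi]
    exact Eventually.of_forall hpos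

lemma radial_schur {a : ℝ} (ha : 0 < a) :
    ∫⁻ σ : AddCircle (1:ℝ), ENNReal.ofReal (1 / (√‖σ‖ * (a + ‖σ‖))) ≤
      ENNReal.ofReal (2 * Real.pi / √a) := by
  rw [lintegral_radial (fun x => ENNReal.ofReal (1 / (√x * (a + x))))]
  have h1 : ∫⁻ x in Ioc (0:ℝ) (1/2), ENNReal.ofReal (1 / (√x * (a + x))) ≤
      ENNReal.ofReal (Real.pi / √a) := by
    rw [← hilbert_integral ha]
    exact lintegral_mono_set Ioc_subset_Ioi_self
  calc _ ≤ 2 * ENNReal.ofReal (Real.pi / √a) := by gcongr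
    _ = ENNReal.ofReal (2 * Real.pi / √a) := by
      rw [mul_div_assoc, ENNReal.ofReal_mul (by norm_num : (0:ℝ) ≤ 2)]
      simp

lemma norm_le_half (σ : AddCircle (1:ℝ)) : ‖σ‖ ≤ 1/2 := by
  have := AddCircle.norm_le_half_period (1:ℝ) (x := σ) one_ne_zero
  simpa using this

lemma radial_sqrt : ∫⁻ σ : AddCircle (1:ℝ), ENNReal.ofReal (1 / √‖σ‖) ≤
    ENNReal.ofReal (3 * Real.pi) := by
  calc ∫⁻ σ : AddCircle (1:ℝ), ENNReal.ofReal (1 / √‖σ‖)
      ≤ ∫⁻ σ : AddCircle (1:ℝ), ENNReal.ofReal (3/2) *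
          ENNReal.ofReal (1 / (√‖σ‖ * (1 + ‖σ‖))) := by
        apply lintegral_mono
        intro σ
        beta_reduce
        rw [← ENNReal.ofReal_mul (by norm_num)]
        apply ENNReal.ofReal_le_ofReal
        have h1 := norm_le_half σ
        have h2 := norm_nonneg σ
        rcases eq_or_lt_of_le (Real.sqrt_nonneg ‖σ‖) with h3 | h3
        · rw [← h3]; simp
        · rw [mul_one_div, div_le_div_iff₀ h3 (by positivity)]
          nlinarith
    _ = ENNReal.ofReal (3/2) * ∫⁻ σ : AddCircle (1:ℝ),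
          ENNReal.ofReal (1 / (√‖σ‖ * (1 + ‖σ‖))) := by
        rw [lintegral_const_mul']
        exact ENNReal.ofReal_ne_top
    _ ≤ ENNReal.ofReal (3/2) * ENNReal.ofReal (2 * Real.pi / √1) := by
        gcongr
        exact radial_schur one_pos
    _ = ENNReal.ofReal (3 * Real.pi) := by
        rw [← ENNReal.ofReal_mul (by norm_num)]
        congr 1
        simp
        ring

end Pool.Agent.MP559

end

section

open MeasureTheory Filter Topology Set
open scoped ENNReal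

namespace Pool.Agent.MP559

variable {α : Type*} [MeasurableSpace α] {μ : Measure α}

/-- weighted Cauchy-Schwarz -/
lemma schur_cs {H F w : α → ℝ≥0∞} (hH : AEMeasurable H μ) (hF : AEMeasurable F μ)
    (hw : AEMeasurable w μ) (hw0 : ∀ᵐ x ∂μ, w x ≠ 0 ∧ w x ≠ ∞) :
    (∫⁻ x, H x * F x ∂μ) ^ 2 ≤ (∫⁻ x, H x * w x ∂μ) * ∫⁻ x, H x * (F x ^ 2 * (w x)⁻¹) ∂μ := by
  have m1 : AEMeasurable (fun x => H x * w x) μ := hH.mul hw
  have m2 : AEMeasurable (fun x => H x * (F x ^ 2 * (w x)⁻¹)) μ :=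
    hH.mul ((hF.pow_const 2).mul hw.inv)
  have h3 : ∀ a : ℝ≥0∞, (a ^ (1/2 : ℝ)) ^ (2:ℝ) = a := by
    intro a; rw [← ENNReal.rpow_mul]; norm_num
  have h3' : ∀ a : ℝ≥0∞, (a ^ (1/2 : ℝ)) ^ (2:ℕ) = a := by
    intro a; rw [← ENNReal.rpow_natCast, ← ENNReal.rpow_mul]; norm_num
  have h3'' : ∀ a : ℝ≥0∞, (a ^ (2:ℕ)) ^ (1/2 : ℝ) = a := by
    intro a; rw [← ENNReal.rpow_natCast, ← ENNReal.rpow_mul]; norm_num
  have h1 : ∫⁻ x, H x * F x ∂μ = ∫⁻ x, ((fun x => (H x * w x) ^ (1/2 : ℝ)) *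
      fun x => (H x * (F x ^ 2 * (w x)⁻¹)) ^ (1/2 : ℝ)) x ∂μ := by
    apply lintegral_congr_ae
    filter_upwards [hw0] with x hx
    rw [Pi.mul_apply, ← ENNReal.mul_rpow_of_nonneg _ _ (by norm_num)]
    have : H x * w x * (H x * (F x ^ 2 * (w x)⁻¹)) = (H x * F x) ^ 2 := by
      calc H x * w x * (H x * (F x ^ 2 * (w x)⁻¹)) = (H x * F x) ^ 2 * (w x * (w x)⁻¹) := by ring
        _ = (H x * F x) ^ 2 := by rw [ENNReal.mul_inv_cancel hx.1 hx.2, mul_one]
    rw [this, h3'']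
  have h2 := ENNReal.lintegral_mul_le_Lp_mul_Lq μ (p := 2) (q := 2)
    (Real.HolderConjugate.two_two) (f := fun x => (H x * w x) ^ (1/2 : ℝ))
    (g := fun x => (H x * (F x ^ 2 * (w x)⁻¹)) ^ (1/2 : ℝ))
    (m1.pow_const _) (m2.pow_const _)
  rw [← h1] at h2
  simp only [h3] at h2
  calc (∫⁻ x, H x * F x ∂μ) ^ 2 ≤ ((∫⁻ x, H x * w x ∂μ) ^ (1/2 : ℝ) *
        (∫⁻ x, H x * (F x ^ 2 * (w x)⁻¹) ∂μ) ^ (1/2 : ℝ)) ^ 2 := by gcongr
    _ = _ := by rw [mul_pow, h3', h3']

/-- the Schur test in integral form -/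
lemma schur_lintegral [SFinite μ] {H : α → α → ℝ≥0∞} (hH : Measurable (Function.uncurry H))
    {w F : α → ℝ≥0∞} (hw : Measurable w) (hF : AEMeasurable F μ) {C : ℝ≥0∞}
    (hw0 : ∀ᵐ x ∂μ, w x ≠ 0 ∧ w x ≠ ∞)
    (h1 : ∀ᵐ s ∂μ, ∫⁻ σ, H s σ * w σ ∂μ ≤ C * w s)
    (h2 : ∀ᵐ σ ∂μ, ∫⁻ s, H s σ * w s ∂μ ≤ C * w σ) :
    ∫⁻ s, (∫⁻ σ, H s σ * F σ ∂μ) ^ 2 ∂μ ≤ C ^ 2 * ∫⁻ σ, F σ ^ 2 ∂μ := by
  have hH1 : ∀ s, Measurable (H s) := fun s => hH.comp measurable_prodMk_left
  have hH2 : ∀ σ, Measurable (fun s => H s σ) := fun σ => hH.comp measurable_prodMk_right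
  calc ∫⁻ s, (∫⁻ σ, H s σ * F σ ∂μ) ^ 2 ∂μ
      ≤ ∫⁻ s, (C * w s) * ∫⁻ σ, H s σ * (F σ ^ 2 * (w σ)⁻¹) ∂μ ∂μ := by
        apply lintegral_mono_ae
        filter_upwards [h1] with s hs
        refine (schur_cs (hH1 s).aemeasurable hF hw.aemeasurable hw0).trans ?_
        gcongr
    _ = ∫⁻ s, ∫⁻ σ, C * w s * (H s σ * (F σ ^ 2 * (w σ)⁻¹)) ∂μ ∂μ := by
        apply lintegral_congr
        intro s
        rw [lintegral_const_mul'']
        exact (hH1 s).aemeasurable.mul ((hF.pow_const 2).mul hw.aemeasurable.inv)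
    _ = ∫⁻ σ, ∫⁻ s, C * w s * (H s σ * (F σ ^ 2 * (w σ)⁻¹)) ∂μ ∂μ := by
        apply lintegral_lintegral_swap
        apply AEMeasurable.mul
        · exact ((hw.comp measurable_fst).const_mul C).aemeasurable
        · apply AEMeasurable.mul
          · exact hH.aemeasurable
          · have := ((hF.pow_const 2).mul hw.aemeasurable.inv)
            exact this.comp_quasiMeasurePreserving Measure.quasiMeasurePreserving_snd
    _ = ∫⁻ σ, C * (F σ ^ 2 * (w σ)⁻¹) * ∫⁻ s, H s σ * w s ∂μ ∂μ := by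
        apply lintegral_congr
        intro σ
        have hm : Measurable (fun s => H s σ * w s) := (hH2 σ).mul hw
        rw [← lintegral_const_mul _ hm]
        apply lintegral_congr
        intro s
        ring
    _ ≤ ∫⁻ σ, C * (F σ ^ 2 * (w σ)⁻¹) * (C * w σ) ∂μ := by
        apply lintegral_mono_ae
        filter_upwards [h2] with σ hσ
        gcongr
    _ = ∫⁻ σ, C ^ 2 * F σ ^ 2 ∂μ := by
        apply lintegral_congr_ae
        filter_upwards [hw0] with σ hσ
        calc C * (F σ ^ 2 * (w σ)⁻¹) * (C * w σ) = C ^ 2 * F σ ^ 2 * (w σ * (w σ)⁻¹) := by ring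
          _ = C ^ 2 * F σ ^ 2 := by rw [ENNReal.mul_inv_cancel hσ.1 hσ.2, mul_one]
    _ = C ^ 2 * ∫⁻ σ, F σ ^ 2 ∂μ := by
        rw [lintegral_const_mul'']
        exact hF.pow_const 2

end Pool.Agent.MP559

end

section

/-!
Variants of the definitions which are more convenient in the proofs.
-/

open MeasureTheory Filter Topology Set

namespace Pool.Agent.MP559

/-- variant of `IsCauchySingular` in terms of elements of `Lp` -/
def CauchyOld {ℓ : ℝ} [Fact (0 < ℓ)] (γ : AddCircle ℓ → ℂ)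
    (S : Lp ℂ 2 (volume : Measure (AddCircle ℓ)) →L[ℂ] Lp ℂ 2 (volume : Measure (AddCircle ℓ))) :
    Prop :=
  ∀ (f : AddCircle ℓ → ℂ) (K : NNReal), LipschitzWith K f →
    ∀ F : Lp ℂ 2 (volume : Measure (AddCircle ℓ)), F =ᵐ[volume] f →
      ∀ᵐ s : AddCircle ℓ, Tendsto (fun ε : ℝ => truncCauchy γ f s ε) (𝓝[>] 0) (𝓝 (S F s))

/-- variant of `ThetaStronglyElliptic` in terms of elements of `Lp` -/
def ThetaOld {ℓ : ℝ} [Fact (0 < ℓ)]
    (A : Lp ℂ 2 (volume : Measure (AddCircle ℓ)) →L[ℂ] Lp ℂ 2 (volume : Measure (AddCircle ℓ))) :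
    Prop :=
  ∃ θ : AddCircle ℓ → ℂ, IsPC θ ∧ (∃ m : ℝ, 0 < m ∧ ∀ t, m ≤ ‖θ t‖) ∧
    ∃ B : Lp ℂ 2 (volume : Measure (AddCircle ℓ)) →L[ℂ] Lp ℂ 2 (volume : Measure (AddCircle ℓ)),
      (∀ f, B f =ᵐ[volume] fun t => θ t * A f t) ∧ StronglyElliptic B

lemma acts_self {α : Type*} [MeasureSpace α] (S : L2Op α)
    (F : Lp ℂ 2 (volume : Measure α)) {f : α → ℂ} (hf : F =ᵐ[volume] f) :
    Acts S f (S.op F) := by
  have h1 : MemLp f 2 (volume : Measure α) := (Lp.memLp F).ae_eq hf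
  refine ⟨h1, Lp.memLp _, ?_⟩
  have h2 : h1.toLp f = F := by
    apply Lp.ext
    exact h1.coeFn_toLp.trans hf.symm
  unfold Sends
  rw [h2, Lp.toLp_coeFn]

lemma acts_ae {α : Type*} [MeasureSpace α] {S : L2Op α}
    {F : Lp ℂ 2 (volume : Measure α)} {f g : α → ℂ} (hf : F =ᵐ[volume] f) (h : Acts S f g) :
    S.op F =ᵐ[volume] g := by
  obtain ⟨h1, h2, h3⟩ := h
  have h4 : h1.toLp f = F := by
    apply Lp.ext
    exact h1.coeFn_toLp.trans hf.symm
  unfold Sends at h3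
  rw [h4] at h3
  rw [h3]
  exact h2.coeFn_toLp

lemma acts_of_ae {α : Type*} [MeasureSpace α] {S : L2Op α}
    {F : Lp ℂ 2 (volume : Measure α)} {f g : α → ℂ} (hf : F =ᵐ[volume] f)
    (h : S.op F =ᵐ[volume] g) : Acts S f g := by
  have h1 : MemLp f 2 (volume : Measure α) := (Lp.memLp F).ae_eq hf
  have h2 : MemLp g 2 (volume : Measure α) := (Lp.memLp (S.op F)).ae_eq h
  refine ⟨h1, h2, ?_⟩
  have h4 : h1.toLp f = F := by
    apply Lp.ext
    exact h1.coeFn_toLp.trans hf.symm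
  unfold Sends
  rw [h4]
  apply Lp.ext
  exact h.trans h2.coeFn_toLp.symm

lemma lip_memLp {ℓ : ℝ} [Fact (0 < ℓ)] {f : AddCircle ℓ → ℂ} {K : NNReal}
    (hf : LipschitzWith K f) : MemLp f 2 (volume : Measure (AddCircle ℓ)) := by
  obtain ⟨C, hC⟩ := (isCompact_univ (X := AddCircle ℓ)).exists_bound_of_continuousOn
    hf.continuous.continuousOn
  exact MemLp.of_bound hf.continuous.aestronglyMeasurable C
    (Eventually.of_forall fun s => hC s (mem_univ _))

lemma cauchy_iff {ℓ : ℝ} [Fact (0 < ℓ)] (γ : AddCircle ℓ → ℂ) (S : L2Op (AddCircle ℓ)) :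
    IsCauchySingular γ S ↔ CauchyOld γ S.op := by
  constructor
  · intro h f K hf F hF
    obtain ⟨g, hg, hlim⟩ := h f K hf
    filter_upwards [hlim, acts_ae hF hg] with s h1 h2
    rw [h2]; exact h1
  · intro h f K hf
    have hm := lip_memLp hf
    refine ⟨S.op (hm.toLp f), acts_self S _ hm.coeFn_toLp, ?_⟩
    exact h f K hf _ hm.coeFn_toLp

lemma theta_old {ℓ : ℝ} [Fact (0 < ℓ)] {A : L2Op (AddCircle ℓ)}
    (h : ThetaStronglyElliptic A) : ThetaOld A.op := by
  obtain ⟨θ, h1, h2, B, hB, hSE⟩ := h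
  refine ⟨θ, h1, h2, B.op, fun f => ?_, hSE⟩
  exact acts_ae (F := f) (f := f) (EventuallyEq.rfl) (hB _ _ (acts_self A f EventuallyEq.rfl))

end Pool.Agent.MP559

end

section

open MeasureTheory Filter Topology Set Complex
open scoped ComplexConjugate ENNReal

namespace Pool.Agent.MP559

/-- the Hilbert kernel `π cot(π h)` on the circle -/
noncomputable def k0 (h : AddCircle (1:ℝ)) : ℂ :=
  Real.pi * I * ((fourier 1 h + 1) / (fourier 1 h - 1))

lemma k0_meas : Measurable k0 := by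
  unfold k0
  have : Measurable (fun h : AddCircle (1:ℝ) => (fourier 1 h : ℂ)) :=
    (fourier (T := (1:ℝ)) 1).continuous.measurable
  fun_prop

lemma fourier_add_arg (n : ℤ) (x y : AddCircle (1:ℝ)) :
    (fourier n (x + y) : ℂ) = fourier n x * fourier n y := by
  rw [fourier_apply, fourier_apply, fourier_apply, smul_add, AddCircle.toCircle_add,
    Circle.coe_mul]

lemma fourier_neg_arg (n : ℤ) (x : AddCircle (1:ℝ)) :
    (fourier n (-x) : ℂ) = fourier (-n) x := by
  rw [fourier_apply, fourier_apply, smul_neg, neg_smul]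

lemma fourier_mul_neg (n : ℤ) (x : AddCircle (1:ℝ)) :
    (fourier n x : ℂ) * fourier n (-x) = 1 := by
  rw [← fourier_add_arg, add_neg_cancel, fourier_eval_zero]

lemma k0_odd (h : AddCircle (1:ℝ)) : k0 (-h) = - k0 h := by
  unfold k0
  have h1 := fourier_mul_neg 1 h
  have h2 : (fourier 1 h : ℂ) ≠ 0 := left_ne_zero_of_mul_eq_one h1
  have h3 : (fourier 1 (-h) : ℂ) = (fourier 1 h : ℂ)⁻¹ := eq_inv_of_mul_eq_one_right h1
  rw [h3]
  generalize (fourier 1 h : ℂ) = z at *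
  rcases eq_or_ne z 1 with h4 | h4
  · simp [h4]
  · have h5 : z - 1 ≠ 0 := sub_ne_zero.mpr h4
    have h6 : z⁻¹ - 1 ≠ 0 := by
      intro h0
      apply h4
      rw [sub_eq_zero] at h0
      rw [← inv_inv z, h0, inv_one]
    have h7 : 1 - z ≠ 0 := sub_ne_zero.mpr h4.symm
    have h8 : (z⁻¹ + 1) / (z⁻¹ - 1) = -((z + 1) / (z - 1)) := by
      rw [div_eq_iff h6]
      field_simp
      ring
    rw [h8]; ring

lemma k0_coe (x : ℝ) : k0 (x : AddCircle (1:ℝ)) =
    ((Real.pi * (Real.cos (Real.pi * x) / Real.sin (Real.pi * x)) : ℝ) : ℂ) := by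
  unfold k0
  rw [fourier_coe_apply]
  set c : ℂ := (Real.cos (Real.pi * x) : ℂ) with hc
  set s : ℂ := (Real.sin (Real.pi * x) : ℂ) with hs
  have hcs : c ^ 2 + s ^ 2 = 1 := by
    rw [hc, hs]
    have := Real.cos_sq_add_sin_sq (Real.pi * x)
    exact_mod_cast this
  have he : Complex.exp (2 * Real.pi * I * (1:ℤ) * x / (1:ℝ)) = (c + s * I) ^ 2 := by
    have h1 : (2 * Real.pi * I * (1:ℤ) * x / (1:ℝ) : ℂ) = (2:ℕ) * (((Real.pi * x : ℝ) : ℂ) * I) := by
      push_cast; ring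
    rw [h1, Complex.exp_nat_mul, Complex.exp_mul_I, hc, hs, Complex.ofReal_cos, Complex.ofReal_sin]
  rw [he]
  have hw : (c + s * I) * (c - s * I) = 1 := by
    linear_combination hcs - s ^ 2 * I_sq
  have hw0 : c + s * I ≠ 0 := left_ne_zero_of_mul_eq_one hw
  have e1 : (c + s * I) ^ 2 + 1 = (c + s * I) * (2 * c) := by
    linear_combination -hw
  have e2 : (c + s * I) ^ 2 - 1 = (c + s * I) * (2 * s * I) := by
    linear_combination hw
  rw [e1, e2, mul_div_mul_left _ _ hw0]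
  push_cast
  rw [← Complex.ofReal_mul, ← Complex.ofReal_cos, ← Complex.ofReal_sin, ← hc, ← hs]
  rcases eq_or_ne s 0 with h0 | h0
  · rw [h0]; simp
  · field_simp

lemma k0_bound (h : AddCircle (1:ℝ)) : ‖k0 h‖ ≤ 2 / ‖h‖ := by
  have key : ∀ x : ℝ, 0 ≤ x → x ≤ 1/2 → ‖k0 (x : AddCircle (1:ℝ))‖ ≤ 2 / x := by
    intro x h0 h1
    rw [k0_coe, Complex.norm_real, Real.norm_eq_abs, abs_mul, abs_div, abs_of_pos Real.pi_pos]
    rcases eq_or_lt_of_le h0 with h2 | h2
    · rw [← h2]; simp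
    · have h3 : 2 / Real.pi * (Real.pi * x) ≤ Real.sin (Real.pi * x) :=
        Real.mul_le_sin (by positivity) (by nlinarith [Real.pi_pos])
      have h4 : 2 / Real.pi * (Real.pi * x) = 2 * x := by
        field_simp
      rw [h4] at h3
      have h5 : 0 < Real.sin (Real.pi * x) := by linarith
      rw [abs_of_pos h5, mul_div_assoc', div_le_div_iff₀ h5 h2]
      have h6 := Real.abs_cos_le_one (Real.pi * x)
      have h7 := Real.pi_lt_d2
      have h8 := Real.pi_pos
      have h9 := abs_nonneg (Real.cos (Real.pi * x))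
      calc Real.pi * |Real.cos (Real.pi * x)| * x ≤ Real.pi * 1 * x := by gcongr
        _ ≤ 2 * (2 * x) := by nlinarith
        _ ≤ _ := by linarith
  obtain ⟨x, hx⟩ : ∃ x : ℝ, (x : AddCircle (1:ℝ)) = h ∧ |x| = ‖h‖ := by
    obtain ⟨x, hx, rfl⟩ := AddCircle.eq_coe_Ico h
    refine ⟨x - round x, ?_, ?_⟩
    · rw [AddCircle.coe_sub]
      have : ((round x : ℝ) : AddCircle (1:ℝ)) = 0 := by
        rw [AddCircle.coe_eq_zero_iff]
        exact ⟨round x, by simp⟩
      rw [this, sub_zero]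
    · exact (UnitAddCircle.norm_eq).symm
  have hh := norm_le_half h
  rw [← hx.2] at hh ⊢
  rw [← hx.1]
  rcases le_total 0 x with h0 | h0
  · rw [abs_of_nonneg h0] at hh ⊢
    exact key x h0 hh
  · rw [abs_of_nonpos h0] at hh ⊢
    have := key (-x) (by linarith) hh
    rw [AddCircle.coe_neg, k0_odd, norm_neg] at this
    exact this

lemma k0_diff {x : ℝ} (hx : |x| ≤ 1/2) : ‖((x⁻¹ : ℝ) : ℂ) - k0 (x : AddCircle (1:ℝ))‖ ≤ 4 := by
  have key : ∀ x : ℝ, 0 < x → x ≤ 1/2 → ‖((x⁻¹ : ℝ) : ℂ) - k0 (x : AddCircle (1:ℝ))‖ ≤ 4 := by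
    intro x h0 h1
    rw [k0_coe, ← Complex.ofReal_sub, Complex.norm_real, Real.norm_eq_abs]
    set y := Real.pi * x with hy
    have hy0 : 0 < y := by positivity
    have hy1 : y ≤ Real.pi / 2 := by rw [hy]; nlinarith [Real.pi_pos]
    have h3 : 2 / Real.pi * y ≤ Real.sin y := Real.mul_le_sin hy0.le hy1
    have h4 : 2 / Real.pi * y = 2 * x := by
      rw [hy]; field_simp
    rw [h4] at h3
    have h5 : 0 < Real.sin y := by linarith
    have h6 : x⁻¹ - Real.pi * (Real.cos y / Real.sin y) =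
        (Real.sin y - y * Real.cos y) / (x * Real.sin y) := by
      have h6' : ∀ S C : ℝ, S ≠ 0 → x⁻¹ - Real.pi * (C / S) =
          (S - (Real.pi * x) * C) / (x * S) := by
        intro S C hS
        field_simp
      exact h6' _ _ h5.ne'
    have h7 : 0 ≤ Real.sin y - y * Real.cos y := by
      rcases eq_or_lt_of_le hy1 with h8 | h8
      · rw [h8, Real.cos_pi_div_two, mul_zero, sub_zero, ← h8]; exact h5.le
      · have h9 := Real.lt_tan hy0 h8
        have h10 : 0 < Real.cos y := Real.cos_pos_of_mem_Ioo ⟨by linarith, h8⟩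
        rw [Real.tan_eq_sin_div_cos, lt_div_iff₀ h10] at h9
        linarith
    have h8 : Real.sin y - y * Real.cos y ≤ y ^ 3 / 2 := by
      have e1 := Real.sin_le hy0.le
      have e2 := Real.one_sub_sq_div_two_le_cos (x := y)
      nlinarith
    rw [h6, abs_of_nonneg (by positivity), div_le_iff₀ (by positivity)]
    have h9 : y ^ 3 / 2 ≤ 4 * (x * (2 * x)) := by
      rw [hy]
      have hp : Real.pi ^ 3 ≤ 32 := by
        have := Real.pi_lt_d2
        have := Real.pi_pos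
        calc Real.pi ^ 3 ≤ 3.15 ^ 3 := by gcongr
          _ ≤ 32 := by norm_num
      calc (Real.pi * x) ^ 3 / 2 = Real.pi ^ 3 * x ^ 2 * x / 2 := by ring
        _ ≤ 32 * x ^ 2 * (1/2) / 2 := by gcongr
        _ = 4 * (x * (2 * x)) := by ring
    calc _ ≤ y ^ 3 / 2 := h8
      _ ≤ 4 * (x * (2 * x)) := h9
      _ ≤ _ := by gcongr
  rcases lt_trichotomy x 0 with h | h | h
  · have h1 := key (-x) (by linarith) (by rw [abs_of_neg h] at hx; exact hx)
    rw [AddCircle.coe_neg, k0_odd] at h1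
    have h2 : (((-x)⁻¹ : ℝ) : ℂ) - -k0 (x : AddCircle (1:ℝ)) =
        -(((x⁻¹ : ℝ) : ℂ) - k0 (x : AddCircle (1:ℝ))) := by
      rw [inv_neg]; push_cast; ring
    rw [h2, norm_neg] at h1
    exact h1
  · rw [h, k0_coe]; simp
  · exact key x h (by rw [abs_of_pos h] at hx; exact hx)

end Pool.Agent.MP559

end

section

open MeasureTheory Filter Topology Set
open scoped ENNReal

namespace Pool.Agent.MP559

variable {α : Type*} [MeasurableSpace α] {μ : Measure α}

lemma eLpNorm_two (f : α → ℂ) : eLpNorm f 2 μ = (∫⁻ x, ‖f x‖ₑ ^ 2 ∂μ) ^ (1/2 : ℝ) := by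
  rw [eLpNorm_eq_lintegral_rpow_enorm_toReal (by norm_num) (by norm_num)]
  simp

/-- bounded operators from kernels via the Schur test -/
lemma schur_operator [IsFiniteMeasure μ] {Kk : α → α → ℂ}
    (hK : StronglyMeasurable (Function.uncurry Kk)) {H : α → α → ℝ≥0∞}
    (hH : Measurable (Function.uncurry H)) (hKH : ∀ᵐ s ∂μ, ∀ᵐ σ ∂μ, ‖Kk s σ‖ₑ ≤ H s σ)
    {w : α → ℝ≥0∞} (hw : Measurable w) {C : ℝ≥0∞} (hC : C ≠ ∞)
    (hw0 : ∀ᵐ x ∂μ, w x ≠ 0 ∧ w x ≠ ∞)
    (h1 : ∀ᵐ s ∂μ, ∫⁻ σ, H s σ * w σ ∂μ ≤ C * w s)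
    (h2 : ∀ᵐ σ ∂μ, ∫⁻ s, H s σ * w s ∂μ ≤ C * w σ) :
    ∃ R : Lp ℂ 2 μ →L[ℂ] Lp ℂ 2 μ, ∀ f : Lp ℂ 2 μ,
      (∀ᵐ s ∂μ, Integrable (fun σ => Kk s σ * f σ) μ) ∧
      R f =ᵐ[μ] fun s => ∫ σ, Kk s σ * f σ ∂μ := by
  have hfin : ∀ f : Lp ℂ 2 μ, (∫⁻ s, (∫⁻ σ, H s σ * ‖f σ‖ₑ ∂μ) ^ 2 ∂μ) ^ (1/2 : ℝ) ≤
      C * eLpNorm f 2 μ := by
    intro f
    have e1 := schur_lintegral (μ := μ) hH hw (F := fun σ => ‖f σ‖ₑ)
      (Lp.aestronglyMeasurable f).enorm hw0 h1 h2
    calc _ ≤ (C ^ 2 * ∫⁻ σ, ‖f σ‖ₑ ^ 2 ∂μ) ^ (1/2 : ℝ) := by gcongr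
      _ = C * eLpNorm f 2 μ := by
        rw [ENNReal.mul_rpow_of_nonneg _ _ (by norm_num), eLpNorm_two]
        congr 1
        rw [← ENNReal.rpow_natCast, ← ENNReal.rpow_mul]; norm_num
  have hint : ∀ f : Lp ℂ 2 μ, ∀ᵐ s ∂μ, Integrable (fun σ => Kk s σ * f σ) μ := by
    intro f
    have e1 : ∫⁻ s, (∫⁻ σ, H s σ * ‖f σ‖ₑ ∂μ) ^ 2 ∂μ ≠ ∞ := by
      intro h0
      have e2 := hfin f
      rw [h0, ENNReal.top_rpow_of_pos (by norm_num)] at e2
      have e3 : C * eLpNorm f 2 μ < ∞ := ENNReal.mul_lt_top hC.lt_top (Lp.memLp f).2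
      exact absurd (top_le_iff.mp e2) e3.ne
    have hm : AEMeasurable (fun s => (∫⁻ σ, H s σ * ‖f σ‖ₑ ∂μ) ^ 2) μ := by
      apply AEMeasurable.pow_const
      have : AEMeasurable (fun p : α × α => H p.1 p.2 * ‖f p.2‖ₑ) (μ.prod μ) := by
        apply AEMeasurable.mul hH.aemeasurable
        exact (Lp.aestronglyMeasurable f).enorm.comp_quasiMeasurePreserving
          Measure.quasiMeasurePreserving_snd
      exact this.lintegral_prod_right'
    have e4 := ae_lt_top' hm e1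
    filter_upwards [e4, hKH] with s hs hs'
    refine ⟨?_, ?_⟩
    · exact ((hK.comp_measurable measurable_prodMk_left).aestronglyMeasurable).mul
        (Lp.aestronglyMeasurable f)
    · rw [hasFiniteIntegral_iff_enorm]
      have e5 : ∫⁻ σ, H s σ * ‖f σ‖ₑ ∂μ < ∞ := by
        by_contra hc
        rw [not_lt, top_le_iff] at hc
        rw [hc] at hs
        simp at hs
      refine lt_of_le_of_lt ?_ e5
      apply lintegral_mono_ae
      filter_upwards [hs'] with σ hσ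
      rw [enorm_mul]
      gcongr
  have hmeas : ∀ f : Lp ℂ 2 μ, AEStronglyMeasurable (fun s => ∫ σ, Kk s σ * f σ ∂μ) μ := by
    intro f
    have : AEStronglyMeasurable (fun p : α × α => Kk p.1 p.2 * f p.2) (μ.prod μ) := by
      apply AEStronglyMeasurable.mul hK.aestronglyMeasurable
      exact (Lp.aestronglyMeasurable f).comp_quasiMeasurePreserving
          Measure.quasiMeasurePreserving_snd
    exact this.integral_prod_right'
  have hnorm : ∀ f : Lp ℂ 2 μ, eLpNorm (fun s => ∫ σ, Kk s σ * f σ ∂μ) 2 μ ≤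
      C * eLpNorm f 2 μ := by
    intro f
    refine le_trans ?_ (hfin f)
    rw [eLpNorm_two]
    refine ENNReal.rpow_le_rpow ?_ (by norm_num)
    apply lintegral_mono_ae
    filter_upwards [hKH] with s hs
    have e1 : ‖∫ σ, Kk s σ * f σ ∂μ‖ₑ ≤ ∫⁻ σ, H s σ * ‖f σ‖ₑ ∂μ := by
      refine (enorm_integral_le_lintegral_enorm _).trans ?_
      apply lintegral_mono_ae
      filter_upwards [hs] with σ hσ
      rw [enorm_mul]
      gcongr
    gcongr
  have hmem : ∀ f : Lp ℂ 2 μ, MemLp (fun s => ∫ σ, Kk s σ * f σ ∂μ) 2 μ := fun f =>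
    ⟨hmeas f, (hnorm f).trans_lt (ENNReal.mul_lt_top hC.lt_top (Lp.memLp f).2)⟩
  let R0 : Lp ℂ 2 μ →ₗ[ℂ] Lp ℂ 2 μ :=
    { toFun := fun f => (hmem f).toLp _
      map_add' := by
        intro f g
        apply Lp.ext
        filter_upwards [(hmem (f + g)).coeFn_toLp, (hmem f).coeFn_toLp, (hmem g).coeFn_toLp,
          Lp.coeFn_add ((hmem f).toLp _) ((hmem g).toLp _), hint f, hint g] with s e1 e2 e3 e4 e5 e6
        rw [e1, e4, Pi.add_apply, e2, e3, ← integral_add e5 e6]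
        apply integral_congr_ae
        filter_upwards [Lp.coeFn_add f g] with σ hσ
        rw [hσ, Pi.add_apply]; ring
      map_smul' := by
        intro c f
        apply Lp.ext
        filter_upwards [(hmem (c • f)).coeFn_toLp, (hmem f).coeFn_toLp,
          Lp.coeFn_smul c ((hmem f).toLp _)] with s e1 e2 e3
        rw [e1, RingHom.id_apply, e3, Pi.smul_apply, e2, smul_eq_mul, ← integral_const_mul]
        apply integral_congr_ae
        filter_upwards [Lp.coeFn_smul c f] with σ hσ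
        rw [hσ, Pi.smul_apply, smul_eq_mul]; ring }
  refine ⟨R0.mkContinuous C.toReal ?_, fun f => ⟨hint f, ?_⟩⟩
  · intro f
    show ‖(hmem f).toLp _‖ ≤ _
    rw [Lp.norm_toLp, Lp.norm_def, ← ENNReal.toReal_mul]
    exact ENNReal.toReal_mono (ENNReal.mul_lt_top hC.lt_top (Lp.memLp f).2).ne (hnorm f)
  · exact (hmem f).coeFn_toLp

end Pool.Agent.MP559

end

section

open MeasureTheory Filter Topology Set Complex
open scoped ComplexConjugate ENNReal

namespace Pool.Agent.MP559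

lemma integral_fourier {n : ℤ} (hn : n ≠ 0) :
    ∫ h : AddCircle (1:ℝ), (fourier n h : ℂ) = 0 := by
  have h1 : ∫ h : AddCircle (1:ℝ), (fourier n h : ℂ) =
      ∫ h : AddCircle (1:ℝ), (fourier n (h + ((1 / 2 / n : ℝ) : AddCircle (1:ℝ))) : ℂ) :=
    (integral_add_right_eq_self _ _).symm
  have h2 : ∫ h : AddCircle (1:ℝ), (fourier n (h + ((1 / 2 / n : ℝ) : AddCircle (1:ℝ))) : ℂ) =
      - ∫ h : AddCircle (1:ℝ), (fourier n h : ℂ) := by
    rw [← integral_neg]
    congr 1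
    ext h
    exact fourier_add_half_inv_index hn one_pos h
  rw [h2] at h1
  have h3 : (2:ℂ) * ∫ h : AddCircle (1:ℝ), (fourier n h : ℂ) = 0 := by linear_combination h1
  simpa using h3

lemma integral_fourier_zero : ∫ h : AddCircle (1:ℝ), (fourier 0 h : ℂ) = 1 := by
  have : (fun h : AddCircle (1:ℝ) => (fourier 0 h : ℂ)) = fun _ => 1 := by
    ext h; exact fourier_zero
  rw [this, integral_const]
  simp [Measure.real]

lemma fourier_integrable (n : ℤ) : Integrable (fun h : AddCircle (1:ℝ) => (fourier n h : ℂ)) :=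
  (fourier (T := (1:ℝ)) n).continuous.integrable_of_hasCompactSupport
    (HasCompactSupport.of_compactSpace _)

lemma fourier_one_ne {h : AddCircle (1:ℝ)} (hh : h ≠ 0) : (fourier 1 h : ℂ) ≠ 1 := by
  intro h0
  apply hh
  rw [fourier_one] at h0
  have h1 : AddCircle.toCircle h = 1 := Circle.ext h0
  rw [← AddCircle.toCircle_zero (T := (1:ℝ))] at h1
  exact AddCircle.injective_toCircle one_ne_zero h1

/-- difference step for the multiplier -/
lemma step_eq (n : ℤ) : (fun h : AddCircle (1:ℝ) => ((fourier (n + 1) h : ℂ) - fourier n h) * k0 h)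
    =ᵐ[volume] fun h => Real.pi * I * ((fourier (n + 1) h : ℂ) + fourier n h) := by
  have h0 : ∀ᵐ s : AddCircle (1:ℝ), s ≠ 0 := by
    have h : volume ({0} : Set (AddCircle (1:ℝ))) = 0 := by
      rw [← Metric.closedBall_zero, AddCircle.volume_closedBall]
      simp
    exact measure_eq_zero_iff_ae_notMem.mp h
  filter_upwards [h0] with h hh
  have h1 : (fourier 1 h : ℂ) - 1 ≠ 0 := sub_ne_zero.mpr (fourier_one_ne hh)
  rw [fourier_add]
  unfold k0
  field_simp

noncomputable def kap (n : ℤ) : ℂ := ∫ h : AddCircle (1:ℝ), ((fourier n h : ℂ) - 1) * k0 h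

lemma kap_nat (n : ℕ) : Integrable (fun h : AddCircle (1:ℝ) =>
    ((fourier ((n + 1 : ℕ) : ℤ) h : ℂ) - 1) * k0 h) ∧ kap ((n + 1 : ℕ) : ℤ) = Real.pi * I := by
  have hstep : ∀ n : ℤ, Integrable (fun h : AddCircle (1:ℝ) =>
      ((fourier (n + 1) h : ℂ) - fourier n h) * k0 h) := by
    intro n
    refine Integrable.congr ?_ (step_eq n).symm
    exact ((fourier_integrable _).add (fourier_integrable _)).const_mul _
  have hstepv : ∀ n : ℤ, ∫ h : AddCircle (1:ℝ), ((fourier (n + 1) h : ℂ) - fourier n h) * k0 h =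
      Real.pi * I * ((∫ h : AddCircle (1:ℝ), (fourier (n + 1) h : ℂ)) +
        ∫ h : AddCircle (1:ℝ), (fourier n h : ℂ)) := by
    intro n
    rw [integral_congr_ae (step_eq n), integral_const_mul,
      integral_add (fourier_integrable _) (fourier_integrable _)]
  induction n with
  | zero =>
    have h1 := hstep 0
    have h2 := hstepv 0
    simp only [zero_add, fourier_zero] at h1 h2
    have h3 : ((0 + 1 : ℕ) : ℤ) = 1 := by norm_num
    rw [h3]
    refine ⟨h1, ?_⟩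
    unfold kap
    rw [h2, integral_fourier one_ne_zero]
    have := integral_fourier_zero
    simp only [fourier_zero] at this
    rw [this]; ring
  | succ n ih =>
    obtain ⟨i1, i2⟩ := ih
    have h1 := hstep ((n + 1 : ℕ) : ℤ)
    have h2 := hstepv ((n + 1 : ℕ) : ℤ)
    have h3 : ((n + 1 + 1 : ℕ) : ℤ) = ((n + 1 : ℕ) : ℤ) + 1 := by push_cast; ring
    rw [h3]
    have h4 : (fun h : AddCircle (1:ℝ) => ((fourier (((n + 1 : ℕ) : ℤ) + 1) h : ℂ) - 1) * k0 h) =
        fun h => ((fourier (((n + 1 : ℕ) : ℤ) + 1) h : ℂ) - fourier ((n + 1 : ℕ) : ℤ) h) * k0 h +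
          ((fourier ((n + 1 : ℕ) : ℤ) h : ℂ) - 1) * k0 h := by
      ext h; ring
    refine ⟨?_, ?_⟩
    · rw [h4]; exact h1.add i1
    · unfold kap
      rw [h4, integral_add h1 i1, h2, integral_fourier (by omega), integral_fourier (by omega)]
      unfold kap at i2
      rw [i2]; ring

lemma kap_pos {n : ℤ} (hn : 0 < n) : kap n = Real.pi * I := by
  obtain ⟨m, hm⟩ := Int.eq_ofNat_of_zero_le (show 0 ≤ n - 1 by omega)
  have : n = ((m + 1 : ℕ) : ℤ) := by push_cast; omega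
  rw [this]; exact (kap_nat m).2

lemma kap_zero : kap 0 = 0 := by
  unfold kap; simp

lemma kap_neg (n : ℤ) : kap (-n) = - kap n := by
  unfold kap
  rw [← integral_neg_eq_self, ← integral_neg]
  congr 1
  ext h
  rw [k0_odd, fourier_neg_arg, neg_neg]
  ring

end Pool.Agent.MP559

end

section

open MeasureTheory Filter Topology Set Complex
open scoped ComplexConjugate ENNReal

namespace Pool.Agent.MP559

lemma vol_eq : (volume : Measure (AddCircle (1:ℝ))) = AddCircle.haarAddCircle := by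
  rw [AddCircle.volume_eq_smul_haarAddCircle]; simp

lemma span_general (μ : Measure (AddCircle (1:ℝ))) [IsFiniteMeasure μ]
    (h : μ = AddCircle.haarAddCircle) :
    (Submodule.span ℂ (range fun n : ℤ =>
      ContinuousMap.toLp (E := ℂ) 2 μ ℂ (fourier n))).topologicalClosure = ⊤ := by
  subst h
  exact span_fourierLp_closure_eq_top (by norm_num)

/-- the exponentials as vectors of `L²` -/
noncomputable def E (n : ℤ) : Lp ℂ 2 (volume : Measure (AddCircle (1:ℝ))) :=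
  ContinuousMap.toLp (E := ℂ) 2 volume ℂ (fourier n)

lemma E_span : (Submodule.span ℂ (range E)).topologicalClosure = ⊤ := span_general _ vol_eq

lemma E_coe (n : ℤ) : E n =ᵐ[volume] fun s => (fourier n s : ℂ) :=
  ContinuousMap.coeFn_toLp (p := 2) (𝕜 := ℂ) (volume : Measure (AddCircle (1:ℝ))) (fourier n)

lemma inner_E (n : ℤ) (f : Lp ℂ 2 (volume : Measure (AddCircle (1:ℝ)))) :
    inner ℂ (E n) f = ∫ s, conj (fourier n s : ℂ) * f s := by
  rw [MeasureTheory.L2.inner_def]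
  apply integral_congr_ae
  filter_upwards [E_coe n] with s hs
  rw [hs, RCLike.inner_apply, mul_comm]

lemma inner_E_E (m n : ℤ) : inner ℂ (E m) (E n) = if m = n then (1:ℂ) else 0 := by
  rw [inner_E]
  have h1 : ∫ s : AddCircle (1:ℝ), conj (fourier m s : ℂ) * (E n) s =
      ∫ s : AddCircle (1:ℝ), (fourier (n - m) s : ℂ) := by
    apply integral_congr_ae
    filter_upwards [E_coe n] with s hs
    rw [hs, ← fourier_neg, ← fourier_add]
    congr 2; ring
  rw [h1]
  split_ifs with h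
  · rw [h, sub_self, integral_fourier_zero]
  · exact integral_fourier (by omega)

lemma E_ext {f g : Lp ℂ 2 (volume : Measure (AddCircle (1:ℝ)))}
    (h : ∀ n, inner ℂ (E n) f = inner ℂ (E n) g) : f = g := by
  have h1 : f - g ∈ (Submodule.span ℂ (range E))ᗮ := by
    rw [Submodule.mem_orthogonal]
    intro u hu
    induction hu using Submodule.span_induction with
    | mem x hx =>
      obtain ⟨n, rfl⟩ := hx
      rw [inner_sub_right, h n, sub_self]
    | zero => simp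
    | add x y _ _ hx hy => rw [inner_add_left, hx, hy, add_zero]
    | smul a x _ hx => rw [inner_smul_left, hx, mul_zero]
  rw [← Submodule.orthogonal_closure, E_span, Submodule.top_orthogonal_eq_bot,
    Submodule.mem_bot] at h1
  exact sub_eq_zero.mp h1

/-- closed span of the exponentials with index in `A` -/
noncomputable def KA (A : Set ℤ) : Submodule ℂ (Lp ℂ 2 (volume : Measure (AddCircle (1:ℝ)))) :=
  (Submodule.span ℂ (E '' A)).topologicalClosure

instance (A : Set ℤ) : CompleteSpace (KA A) :=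
  (Submodule.isClosed_topologicalClosure _).completeSpace_coe

lemma inner_E_proj_mem {A : Set ℤ} {n : ℤ} (hn : n ∈ A)
    (f : Lp ℂ 2 (volume : Measure (AddCircle (1:ℝ)))) :
    inner ℂ (E n) ((KA A).starProjection f) = inner ℂ (E n) f := by
  rw [← Submodule.inner_starProjection_left_eq_right]
  congr 1
  rw [Submodule.starProjection_eq_self_iff]
  exact Submodule.le_topologicalClosure _ (Submodule.subset_span ⟨n, hn, rfl⟩)

lemma inner_E_proj_not_mem {A : Set ℤ} {n : ℤ} (hn : n ∉ A)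
    (f : Lp ℂ 2 (volume : Measure (AddCircle (1:ℝ)))) :
    inner ℂ (E n) ((KA A).starProjection f) = 0 := by
  rw [← Submodule.inner_starProjection_left_eq_right]
  have h : (KA A).starProjection (E n) = 0 := by
    rw [Submodule.starProjection_apply_eq_zero_iff]
    unfold KA
    rw [Submodule.orthogonal_closure, Submodule.mem_orthogonal]
    intro u hu
    induction hu using Submodule.span_induction with
    | mem x hx =>
      obtain ⟨m, hm, rfl⟩ := hx
      rw [inner_E_E, if_neg]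
      rintro rfl
      exact hn hm
    | zero => simp
    | add x y _ _ hx hy => rw [inner_add_left, hx, hy, add_zero]
    | smul a x _ hx => rw [inner_smul_left, hx, mul_zero]
  rw [h, inner_zero_left]

/-- the Hilbert transform on the circle -/
noncomputable def S0 : Lp ℂ 2 (volume : Measure (AddCircle (1:ℝ))) →L[ℂ]
    Lp ℂ 2 (volume : Measure (AddCircle (1:ℝ))) :=
  (KA {n | 0 < n}).starProjection - (KA {n | n < 0}).starProjection

lemma inner_E_S0 (n : ℤ) (f : Lp ℂ 2 (volume : Measure (AddCircle (1:ℝ)))) :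
    inner ℂ (E n) (S0 f) = (1 / (Real.pi * I)) * kap n * inner ℂ (E n) f := by
  have hpi : (Real.pi * I : ℂ) ≠ 0 := by simp [Real.pi_ne_zero]
  unfold S0
  rw [sub_apply, inner_sub_right]
  rcases lt_trichotomy n 0 with h | h | h
  · rw [inner_E_proj_not_mem (by simp; omega), inner_E_proj_mem (by simpa using h)]
    have : kap n = - (Real.pi * I) := by
      have h1 := kap_neg n
      rw [kap_pos (by omega : 0 < -n)] at h1
      rw [h1, neg_neg]
    rw [this]
    field_simp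
    ring
  · rw [inner_E_proj_not_mem (by simp; omega), inner_E_proj_not_mem (by simp; omega), h, kap_zero]
    ring
  · rw [inner_E_proj_mem (by simpa using h), inner_E_proj_not_mem (by simp; omega), kap_pos h]
    field_simp
    ring

end Pool.Agent.MP559

end
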