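import Pool.Agent.Work.MP_559b1d_an.Curve
import Pool.Agent.Work.MP_559b1d_an.Bd.B01

/-! Bundle of small proof modules (one section per former module). -/

section

open MeasureTheory Filter Topology Set Complex

namespace Pool.Agent.MP559

lemma arg_pos_of {z : ℂ} (h : 0 < z.im) : 0 < arg z ∧ arg z < Real.pi := by
  constructor
  · refine lt_of_le_of_ne (Complex.arg_nonneg_iff.mpr h.le) ?_
    intro h0
    have := Complex.arg_eq_zero_iff.mp h0.symm
    linarith [this.2]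
  · refine lt_of_le_of_ne (Complex.arg_le_pi z) ?_
    intro h0
    have := Complex.arg_eq_pi_iff.mp h0
    linarith [this.2]

lemma arg_neg_of {z : ℂ} (h : z.im < 0) : arg z < 0 ∧ -Real.pi < arg z :=
  ⟨Complex.arg_neg_iff.mpr h, Complex.neg_pi_lt_arg z⟩

lemma log_sum {r0 r1 r2 : ℂ} (h0 : r0 ≠ 0) (h1 : r1 ≠ 0) (h2 : r2 ≠ 0) (h : r0 * r1 * r2 = 1) :
    ∃ n : ℤ, log r0 + log r1 + log r2 = n * (2 * Real.pi * I) ∧
      arg r0 + arg r1 + arg r2 = n * (2 * Real.pi) := by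
  have h3 : Complex.exp (log r0 + log r1 + log r2) = 1 := by
    rw [Complex.exp_add, Complex.exp_add, exp_log h0, exp_log h1, exp_log h2, h]
  obtain ⟨n, hn⟩ := Complex.exp_eq_one_iff.mp h3
  refine ⟨n, hn, ?_⟩
  have := congrArg Complex.im hn
  simpa [Complex.log_im] using this

lemma log_sum_inside {r0 r1 r2 : ℂ} (h0 : 0 < r0.im) (h1 : 0 < r1.im) (h2 : 0 < r2.im)
    (h : r0 * r1 * r2 = 1) : log r0 + log r1 + log r2 = 2 * Real.pi * I := by
  obtain ⟨n, hn, hn'⟩ := log_sum (by rintro rfl; simp at h0) (by rintro rfl; simp at h1)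
    (by rintro rfl; simp at h2) h
  have a0 := arg_pos_of h0
  have a1 := arg_pos_of h1
  have a2 := arg_pos_of h2
  have hp := Real.pi_pos
  have : n = 1 := by
    have e1 : (0:ℝ) < n := by
      by_contra hc
      push Not at hc
      nlinarith
    have e2 : (n:ℝ) < 2 := by
      by_contra hc
      push Not at hc
      nlinarith
    have e1' : 0 < n := by exact_mod_cast e1
    have e2' : n < 2 := by exact_mod_cast e2
    omega
  rw [hn, this]; simp

lemma log_sum_outside {r0 r1 r2 : ℂ} (h0 : r0.im < 0) (h1 : 0 < r1.im) (h2 : r2.im < 0)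
    (h : r0 * r1 * r2 = 1) : log r0 + log r1 + log r2 = 0 := by
  obtain ⟨n, hn, hn'⟩ := log_sum (by rintro rfl; simp at h0) (by rintro rfl; simp at h1)
    (by rintro rfl; simp at h2) h
  have a0 := arg_neg_of h0
  have a1 := arg_pos_of h1
  have a2 := arg_neg_of h2
  have hp := Real.pi_pos
  have : n = 0 := by
    have e1 : (-1:ℝ) < n := by
      by_contra hc
      push Not at hc
      nlinarith
    have e2 : (n:ℝ) < 1 := by
      by_contra hc
      push Not at hc
      nlinarith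
    have e1' : -1 < n := by exact_mod_cast e1
    have e2' : n < 1 := by exact_mod_cast e2
    omega
  rw [hn, this]; simp

lemma log_sum_on {ρ : ℝ} {r r' : ℂ} (hρ : 0 < ρ) (h1 : 0 < r.im) (h2 : 0 < r'.im)
    (h : ρ * r * r' = -1) : (Real.log ρ : ℂ) + log r + log r' = Real.pi * I := by
  have hr : r ≠ 0 := by rintro rfl; simp at h1
  have hr' : r' ≠ 0 := by rintro rfl; simp at h2
  have h3 : Complex.exp ((Real.log ρ : ℂ) + log r + log r') = Complex.exp (Real.pi * I) := by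
    rw [Complex.exp_add, Complex.exp_add, exp_log hr, exp_log hr', Complex.exp_pi_mul_I,
      ← Complex.ofReal_exp, Real.exp_log hρ, h]
  obtain ⟨n, hn⟩ := Complex.exp_eq_exp_iff_exists_int.mp h3
  have hn' := congrArg Complex.im hn
  simp [Complex.log_im] at hn'
  have a1 := arg_pos_of h1
  have a2 := arg_pos_of h2
  have hp := Real.pi_pos
  have : n = 0 := by
    have e1 : (-1:ℝ) < n := by
      by_contra hc
      push Not at hc
      nlinarith
    have e2 : (n:ℝ) < 1 := by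
      by_contra hc
      push Not at hc
      nlinarith
    have e1' : -1 < n := by exact_mod_cast e1
    have e2' : n < 1 := by exact_mod_cast e2
    omega
  rw [hn, this]; simp

lemma seg_log {z0 τ : ℂ} {L : ℝ} (hL : 0 ≤ L) (h : (τ / z0).im ≠ 0) :
    ∫ x in (0:ℝ)..L, 1 / (z0 + x * τ) * τ = log ((z0 + L * τ) / z0) := by
  have hz : z0 ≠ 0 := by rintro rfl; simp at h
  have hne : ∀ x : ℝ, 0 ≤ x → (z0 + x * τ) / z0 ∈ slitPlane := by
    intro x hx
    have e : (z0 + x * τ) / z0 = 1 + x * (τ / z0) := by field_simp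
    rw [e]
    rcases eq_or_lt_of_le hx with h0 | h0
    · rw [← h0]; simp
    · rw [mem_slitPlane_iff]; right
      simp
      exact ⟨h0.ne', h⟩
  have hne0 : ∀ x : ℝ, 0 ≤ x → z0 + x * τ ≠ 0 := by
    intro x hx h0
    have := hne x hx
    rw [h0] at this
    simp at this
  have hd : ∀ x ∈ uIcc (0:ℝ) L, HasDerivAt (fun x : ℝ => log ((z0 + x * τ) / z0))
      (1 / (z0 + x * τ) * τ) x := by
    intro x hx
    rw [uIcc_of_le hL] at hx
    have h1 : HasDerivAt (fun x : ℝ => (z0 + x * τ) / z0) (τ / z0) x :=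
      (hasDerivAt_aff z0 τ x).div_const z0
    have h2 := h1.clog_real (hne x hx.1)
    convert h2 using 1
    have := hne0 x hx.1
    field_simp
  rw [intervalIntegral.integral_eq_sub_of_hasDerivAt hd]
  · simp [hz]
  · apply ContinuousOn.intervalIntegrable
    rw [uIcc_of_le hL]
    intro x hx
    have := hne0 x hx.1
    apply ContinuousAt.continuousWithinAt
    refine ContinuousAt.mul ?_ continuousAt_const
    refine ContinuousAt.div continuousAt_const ?_ this
    fun_prop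

end Pool.Agent.MP559

end

section

open MeasureTheory Filter Topology Set Complex
open scoped ComplexConjugate ENNReal

namespace Pool.Agent.MP559

lemma phi_bound {f : AddCircle (1:ℝ) → ℂ} {K : NNReal} (hf : LipschitzWith K f)
    (s h : AddCircle (1:ℝ)) : ‖(f (s + h) - f s) * k0 h‖ ≤ 2 * K := by
  rw [norm_mul]
  have h1 : ‖f (s + h) - f s‖ ≤ K * ‖h‖ := by
    have := hf.dist_le_mul (s + h) s
    rw [dist_eq_norm, dist_eq_norm, add_sub_cancel_left] at this
    exact this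
  have h2 := k0_bound h
  calc ‖f (s + h) - f s‖ * ‖k0 h‖ ≤ (K * ‖h‖) * (2 / ‖h‖) := by gcongr
    _ ≤ 2 * K := by
      rcases eq_or_lt_of_le (norm_nonneg h) with h3 | h3
      · rw [← h3]; simp
      · have : (K * ‖h‖) * (2 / ‖h‖) = 2 * K := by field_simp
        rw [this]

lemma phi_meas {f : AddCircle (1:ℝ) → ℂ} (hf : Continuous f) :
    StronglyMeasurable (fun p : AddCircle (1:ℝ) × AddCircle (1:ℝ) =>
      (f (p.1 + p.2) - f p.1) * k0 p.2) := by
  apply Measurable.stronglyMeasurable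
  have h1 : Measurable (fun p : AddCircle (1:ℝ) × AddCircle (1:ℝ) => f (p.1 + p.2)) :=
    (hf.comp (continuous_fst.add continuous_snd)).measurable
  have h2 : Measurable (fun p : AddCircle (1:ℝ) × AddCircle (1:ℝ) => f p.1) :=
    (hf.comp continuous_fst).measurable
  exact (h1.sub h2).mul (k0_meas.comp measurable_snd)

lemma shift_coeff {f : AddCircle (1:ℝ) → ℂ} (n : ℤ) (h : AddCircle (1:ℝ)) :
    ∫ s, conj (fourier n s : ℂ) * f (s + h) =
      fourier n h * ∫ s, conj (fourier n s : ℂ) * f s := by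
  have h1 := integral_add_right_eq_self (μ := (volume : Measure (AddCircle (1:ℝ))))
    (fun s => conj (fourier n (s - h) : ℂ) * f s) h
  simp only [add_sub_cancel_right] at h1
  rw [h1, ← integral_const_mul]
  congr 1
  ext s
  rw [sub_eq_add_neg, fourier_add_arg, map_mul]
  have h2 : conj (fourier n (-h) : ℂ) = fourier n h := by
    rw [← fourier_neg, fourier_neg_arg, neg_neg]
  rw [h2]; ring

lemma S0_lip {f : AddCircle (1:ℝ) → ℂ} {K : NNReal} (hf : LipschitzWith K f)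
    {F : Lp ℂ 2 (volume : Measure (AddCircle (1:ℝ)))} (hF : F =ᵐ[volume] f) :
    S0 F =ᵐ[volume] fun s => (1 / (Real.pi * I)) * ∫ h, (f (s + h) - f s) * k0 h := by
  set G : AddCircle (1:ℝ) → ℂ := fun s => (1 / (Real.pi * I)) * ∫ h, (f (s + h) - f s) * k0 h
    with hG
  have hGm : AEStronglyMeasurable G volume := by
    refine AEStronglyMeasurable.const_mul ?_ _
    exact (StronglyMeasurable.integral_prod_right (phi_meas hf.continuous)).aestronglyMeasurable
  have hGb : ∀ s, ‖G s‖ ≤ ‖(1 / (Real.pi * I) : ℂ)‖ * (2 * K) := by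
    intro s
    simp only [hG]
    rw [norm_mul]
    refine mul_le_mul_of_nonneg_left ?_ (norm_nonneg _)
    have := norm_integral_le_of_norm_le_const (μ := (volume : Measure (AddCircle (1:ℝ))))
      (Eventually.of_forall fun h => phi_bound hf s h)
    simpa [Measure.real] using this
  have hGmem : MemLp G 2 (volume : Measure (AddCircle (1:ℝ))) :=
    MemLp.of_bound hGm _ (Eventually.of_forall hGb)
  suffices hs : S0 F = hGmem.toLp G by
    rw [hs]; exact hGmem.coeFn_toLp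
  apply E_ext
  intro n
  rw [inner_E_S0, inner_E, inner_E]
  have h1 : ∫ s, conj (fourier n s : ℂ) * F s = ∫ s, conj (fourier n s : ℂ) * f s := by
    apply integral_congr_ae
    filter_upwards [hF] with s hs
    rw [hs]
  have h2 : ∫ s, conj (fourier n s : ℂ) * (hGmem.toLp G) s =
      ∫ s, conj (fourier n s : ℂ) * G s := by
    apply integral_congr_ae
    filter_upwards [hGmem.coeFn_toLp] with s hs
    rw [hs]
  rw [h1, h2]
  have h3 : ∀ s, conj (fourier n s : ℂ) * G s = (1 / (Real.pi * I)) *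
      ∫ h, conj (fourier n s : ℂ) * ((f (s + h) - f s) * k0 h) := by
    intro s
    simp only [hG]
    rw [integral_const_mul]; ring
  simp_rw [h3]
  rw [integral_const_mul]
  have hint : Integrable (Function.uncurry fun s h : AddCircle (1:ℝ) =>
      conj (fourier n s : ℂ) * ((f (s + h) - f s) * k0 h))
      ((volume : Measure (AddCircle (1:ℝ))).prod volume) := by
    refine Integrable.of_bound (C := 2 * K) ?_ (Eventually.of_forall ?_)
    · apply AEStronglyMeasurable.mul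
      · apply Continuous.aestronglyMeasurable
        exact continuous_conj.comp ((fourier n).continuous.comp continuous_fst)
      · exact (phi_meas hf.continuous).aestronglyMeasurable
    · rintro ⟨s, h⟩
      simp only [Function.uncurry]
      rw [norm_mul, RCLike.norm_conj]
      have e1 : ‖(fourier n s : ℂ)‖ = 1 := by
        rw [fourier_apply]; exact Circle.norm_coe _
      rw [e1, one_mul]
      exact phi_bound hf s h
  rw [integral_integral_swap hint]
  have h4 : ∀ h : AddCircle (1:ℝ), ∫ s, conj (fourier n s : ℂ) * ((f (s + h) - f s) * k0 h) =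
      ((fourier n h : ℂ) - 1) * k0 h * ∫ s, conj (fourier n s : ℂ) * f s := by
    intro h
    have hcf : Continuous fun s : AddCircle (1:ℝ) => conj (fourier n s : ℂ) :=
      continuous_conj.comp (fourier n).continuous
    have i1 : Integrable (fun s : AddCircle (1:ℝ) => conj (fourier n s : ℂ) * f (s + h)) := by
      have : Continuous (fun s : AddCircle (1:ℝ) => conj (fourier n s : ℂ) * f (s + h)) :=
        hcf.mul (hf.continuous.comp (continuous_id.add continuous_const))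
      exact this.integrable_of_hasCompactSupport (HasCompactSupport.of_compactSpace _)
    have i2 : Integrable (fun s : AddCircle (1:ℝ) => conj (fourier n s : ℂ) * f s) := by
      have : Continuous (fun s : AddCircle (1:ℝ) => conj (fourier n s : ℂ) * f s) :=
        hcf.mul hf.continuous
      exact this.integrable_of_hasCompactSupport (HasCompactSupport.of_compactSpace _)
    have e1 : ∀ s : AddCircle (1:ℝ), conj (fourier n s : ℂ) * ((f (s + h) - f s) * k0 h) =
        k0 h * (conj (fourier n s : ℂ) * f (s + h) - conj (fourier n s : ℂ) * f s) := by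
      intro s; ring
    simp_rw [e1]
    rw [integral_const_mul, integral_sub i1 i2, shift_coeff]
    ring
  simp_rw [h4]
  rw [integral_mul_const]
  unfold kap
  ring

end Pool.Agent.MP559

end

section

open MeasureTheory Filter Topology Set Complex

namespace Pool.Agent.MP559

/-- the Cauchy kernel along the curve -/
noncomputable def cK (z : ℂ) (s : AddCircle (1:ℝ)) : ℂ := 1 / (gam s - z) * tangent gam s

lemma seg_integrable {z0 τ : ℂ} {L : ℝ} (hL : 0 ≤ L) (h : (τ / z0).im ≠ 0) :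
    IntervalIntegrable (fun x : ℝ => 1 / (z0 + x * τ) * τ) volume 0 L := by
  have hz : z0 ≠ 0 := by rintro rfl; simp at h
  have hne0 : ∀ x : ℝ, 0 ≤ x → z0 + x * τ ≠ 0 := by
    intro x hx h0
    have e : 1 + x * (τ / z0) = 0 := by
      have : (z0 + x * τ) / z0 = 0 := by rw [h0]; simp
      rw [← this]; field_simp
    have h1 := congrArg Complex.im e
    simp at h1
    rcases h1 with h1 | h1
    · rw [h1] at h0; simp at h0; exact hz h0
    · exact h h1
  apply ContinuousOn.intervalIntegrable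
  rw [uIcc_of_le hL]
  intro x hx
  have := hne0 x hx.1
  apply ContinuousAt.continuousWithinAt
  refine ContinuousAt.mul ?_ continuousAt_const
  refine ContinuousAt.div continuousAt_const ?_ this
  fun_prop

lemma AffOn.cK_eq {a b : ℝ} {c τ : ℂ} (h : AffOn gam a b c τ) (z : ℂ) {x : ℝ} (hx : x ∈ Ioo a b) :
    cK z (x : AddCircle (1:ℝ)) = 1 / ((c + a * τ - z) + (x - a : ℝ) * τ) * τ := by
  unfold cK
  rw [h x ⟨hx.1.le, hx.2.le⟩, h.tangent hx]
  congr 2
  push_cast; ring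

lemma AffOn.seg_int {a b : ℝ} {c τ : ℂ} (h : AffOn gam a b c τ) (hab : a ≤ b) {z : ℂ}
    (him : (τ / (c + a * τ - z)).im ≠ 0) :
    IntervalIntegrable (fun x : ℝ => cK z (x : AddCircle (1:ℝ))) volume a b := by
  have h1 := (seg_integrable (L := b - a) (by linarith) him).comp_sub_right a
  rw [zero_add, sub_add_cancel] at h1
  refine h1.congr_uIoo ?_
  intro x hx
  rw [uIoo_of_le hab] at hx
  exact (h.cK_eq z hx).symm

lemma AffOn.seg {a b : ℝ} {c τ : ℂ} (h : AffOn gam a b c τ) (hab : a ≤ b) {z : ℂ}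
    (him : (τ / (c + a * τ - z)).im ≠ 0) :
    ∫ x in a..b, cK z (x : AddCircle (1:ℝ)) = log ((c + b * τ - z) / (c + a * τ - z)) := by
  have h1 : ∫ x in a..b, cK z (x : AddCircle (1:ℝ)) =
      ∫ x in a..b, 1 / ((c + a * τ - z) + (x - a : ℝ) * τ) * τ :=
    intervalIntegral.integral_congr_Ioo_of_le hab (fun x hx => h.cK_eq z hx)
  rw [h1, intervalIntegral.integral_comp_sub_right
    (fun y : ℝ => 1 / ((c + a * τ - z) + (y : ℝ) * τ) * τ) a, sub_self,
    seg_log (by linarith) him]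
  congr 2
  push_cast; ring

-- first side
lemma s1_im {z : ℂ} (hz : z.im ≠ 0) : ((1:ℂ) / (0 + (0:ℝ) * 1 - z)).im ≠ 0 := by
  have hz' : z ≠ 0 := by rintro rfl; simp at hz
  simp [Complex.inv_im]
  exact ⟨hz, hz'⟩

lemma s3_im {z : ℂ} (hz : z.re ≠ 0) : ((-I:ℂ) / (I + (3/4:ℝ) * (-I) - z)).im ≠ 0 := by
  have h0 : I + (3/4:ℝ) * (-I) - z ≠ 0 := by
    intro h
    have := congrArg Complex.re h
    simp at this
    exact hz this
  rw [Complex.div_im]
  have hn : Complex.normSq (I + (3/4:ℝ) * (-I) - z) ≠ 0 := by simpa using h0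
  have : (-I).im * (I + (3/4:ℝ) * (-I) - z).re / Complex.normSq (I + (3/4:ℝ) * (-I) - z) -
      (-I).re * (I + (3/4:ℝ) * (-I) - z).im / Complex.normSq (I + (3/4:ℝ) * (-I) - z) =
      z.re / Complex.normSq (I + (3/4:ℝ) * (-I) - z) := by
    simp
  rw [this]
  exact div_ne_zero hz hn

lemma s2_im {z : ℂ} (hz : 3 * z.re + 4 * z.im ≠ 1) :
    (d2 / (1/3 - 1/3 * d2 + (1/3:ℝ) * d2 - z)).im ≠ 0 := by
  have e : (1/3 - 1/3 * d2 + (1/3:ℝ) * d2 - z) = 1/3 - z := by push_cast; ring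
  rw [e]
  have hre : (1/3 - z : ℂ).re = 1/3 - z.re := by simp
  have him : (1/3 - z : ℂ).im = - z.im := by simp
  have h0 : 1/3 - z ≠ 0 := by
    intro h
    have h1 := congrArg Complex.re h
    have h2 := congrArg Complex.im h
    rw [hre] at h1; rw [him] at h2
    simp at h1 h2
    apply hz; rw [h2]; linarith
  have hn : Complex.normSq (1/3 - z) ≠ 0 := by simpa using h0
  rw [Complex.div_im, hre, him, d2_re, d2_im]
  have : 3/5 * (1/3 - z.re) / Complex.normSq (1/3 - z) -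
      -4/5 * (-z.im) / Complex.normSq (1/3 - z) =
      (1/5 * (1 - (3 * z.re + 4 * z.im))) / Complex.normSq (1/3 - z) := by
    ring
  rw [this]
  apply div_ne_zero _ hn
  intro h
  apply hz
  linarith

end Pool.Agent.MP559

end

section

open MeasureTheory Filter Topology Set Complex

namespace Pool.Agent.MP559

lemma div_im_pos' {p q : ℂ} (h : 0 < p.im * q.re - p.re * q.im) : 0 < (p / q).im := by
  have hq : q ≠ 0 := by rintro rfl; simp at h
  have hn : 0 < Complex.normSq q := by simpa [Complex.normSq_pos] using hq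
  rw [Complex.div_im, ← sub_div]
  exact div_pos h hn

lemma div_im_neg' {p q : ℂ} (h : p.im * q.re - p.re * q.im < 0) : (p / q).im < 0 := by
  have hq : q ≠ 0 := by rintro rfl; simp at h
  have hn : 0 < Complex.normSq q := by simpa [Complex.normSq_pos] using hq
  rw [Complex.div_im, ← sub_div]
  exact div_neg_of_neg_of_pos h hn

lemma side1_int {z : ℂ} (hz : z.im ≠ 0) :
    IntervalIntegrable (fun x : ℝ => cK z (x : AddCircle (1:ℝ))) volume 0 (1/3) :=
  aff1.seg_int (by norm_num) (s1_im hz)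

lemma side2_int {z : ℂ} (hz : 3 * z.re + 4 * z.im ≠ 1) :
    IntervalIntegrable (fun x : ℝ => cK z (x : AddCircle (1:ℝ))) volume (1/3) (3/4) :=
  aff2.seg_int (by norm_num) (s2_im hz)

lemma side3_int {z : ℂ} (hz : z.re ≠ 0) :
    IntervalIntegrable (fun x : ℝ => cK z (x : AddCircle (1:ℝ))) volume (3/4) 1 :=
  aff3.seg_int (by norm_num) (s3_im hz)

lemma side1_val {z : ℂ} (hz : z.im ≠ 0) :
    ∫ x in (0:ℝ)..(1/3), cK z (x : AddCircle (1:ℝ)) = log ((1/3 - z) / (-z)) := by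
  rw [aff1.seg (by norm_num) (s1_im hz)]
  congr 2 <;> (push_cast; ring)

lemma v2_eq : (1/3 - 1/3 * d2 + (3/4 : ℝ) * d2 : ℂ) = I / 4 := by
  apply Complex.ext
  · simp [d2_re, d2_im]; norm_num
  · simp [d2_re, d2_im]; norm_num

lemma side2_val {z : ℂ} (hz : 3 * z.re + 4 * z.im ≠ 1) :
    ∫ x in (1/3:ℝ)..(3/4), cK z (x : AddCircle (1:ℝ)) = log ((I/4 - z) / (1/3 - z)) := by
  rw [aff2.seg (by norm_num) (s2_im hz), v2_eq]
  congr 2; push_cast; ring

lemma side3_val {z : ℂ} (hz : z.re ≠ 0) :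
    ∫ x in (3/4:ℝ)..1, cK z (x : AddCircle (1:ℝ)) = log ((-z) / (I/4 - z)) := by
  rw [aff3.seg (by norm_num) (s3_im hz)]
  congr 2 <;> (push_cast; ring)

/-- integral over the circle of a function -/
lemma circ_int (F : AddCircle (1:ℝ) → ℂ) :
    ∫ s, F s = ∫ x in (0:ℝ)..1, F (x : AddCircle (1:ℝ)) := by
  have := AddCircle.intervalIntegral_preimage (1:ℝ) 0 F
  rw [zero_add] at this
  exact this.symm

lemma circ_cK {z : ℂ} (h1 : z.im ≠ 0) (h2 : 3 * z.re + 4 * z.im ≠ 1) (h3 : z.re ≠ 0) :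
    ∫ s, cK z s = log ((1/3 - z) / (-z)) + log ((I/4 - z) / (1/3 - z)) +
      log ((-z) / (I/4 - z)) := by
  rw [circ_int, ← side1_val h1, ← side2_val h2, ← side3_val h3,
    intervalIntegral.integral_add_adjacent_intervals (side1_int h1) (side2_int h2),
    intervalIntegral.integral_add_adjacent_intervals ((side1_int h1).trans (side2_int h2))
      (side3_int h3)]

lemma ne_of_h3 {z : ℂ} (h3 : z.re ≠ 0) : I/4 - z ≠ 0 := by
  intro h
  have := congrArg Complex.re h
  simp at this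
  exact h3 this

lemma ne_of_h1 {z : ℂ} (h1 : z.im ≠ 0) : 1/3 - z ≠ 0 := by
  intro h
  have := congrArg Complex.im h
  simp at this
  exact h1 this

lemma prod_one {z : ℂ} (h0 : z ≠ 0) (h1 : 1/3 - z ≠ 0) (h3 : I/4 - z ≠ 0) :
    ((1/3 - z) / (-z)) * ((I/4 - z) / (1/3 - z)) * ((-z) / (I/4 - z)) = 1 := by
  have h0' : -z ≠ 0 := neg_ne_zero.mpr h0
  generalize -z = p at *
  generalize 1/3 - z = q at *
  generalize I/4 - z = r at *
  field_simp

/-- inside points have winding number one -/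
lemma wind_inside {z : ℂ} (h1 : 0 < z.im) (h3 : 0 < z.re) (h2 : 3 * z.re + 4 * z.im < 1) :
    ∫ s, cK z s = 2 * Real.pi * I := by
  have hz : z ≠ 0 := by rintro rfl; simp at h1
  rw [circ_cK h1.ne' h2.ne h3.ne']
  apply log_sum_inside
  · apply div_im_pos'; simp; nlinarith
  · apply div_im_pos'; simp; nlinarith
  · apply div_im_pos'; simp; nlinarith
  · exact prod_one hz (ne_of_h1 h1.ne') (ne_of_h3 h3.ne')

lemma wind_outside {z : ℂ} (h1 : z.im < 0) (h3 : z.re < 0) :
    ∫ s, cK z s = 0 := by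
  have hz : z ≠ 0 := by rintro rfl; simp at h1
  rw [circ_cK h1.ne (by linarith) h3.ne]
  apply log_sum_outside
  · apply div_im_neg'; simp; nlinarith
  · apply div_im_pos'; simp; nlinarith
  · apply div_im_neg'; simp; nlinarith
  · exact prod_one hz (ne_of_h1 h1.ne) (ne_of_h3 h3.ne)

lemma gam_isCorner : IsCornerCurve gam where
  cont := gam_cont
  inj := gam_inj
  arcs := gam_arcs
  noCusp := gam_noCusp
  positive := by
    refine ⟨(1/12 : ℝ) + (1/12 : ℝ) * I, ?_, ?_⟩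
    · rintro ⟨s, hs⟩
      obtain ⟨x, hx, rfl⟩ := AddCircle.eq_coe_Ico s
      rcases le_total x (1/3) with h | h
      · rw [gam_one hx.1 h] at hs
        have := congrArg Complex.im hs
        simp at this
      · rcases le_total x (3/4) with h' | h'
        · rw [gam_two h h'] at hs
          have hi := congrArg Complex.im hs
          have hr := congrArg Complex.re hs
          simp [d2_re, d2_im] at hi hr
          linarith
        · rw [gam_three h' hx.2.le] at hs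
          have := congrArg Complex.re hs
          simp at this
    · have h := wind_inside (z := (1/12 : ℝ) + (1/12 : ℝ) * I) (by simp) (by simp)
        (by simp; norm_num)
      rw [← h]
      congr 1
      ext s
      unfold cK
      ring

end Pool.Agent.MP559

end

section

open MeasureTheory Filter Topology Set Complex

namespace Pool.Agent.MP559

lemma coe_eq_coe_of_Icc {x u : ℝ} (hx : x ∈ Icc (0:ℝ) 1) (hu : u ∈ Ioo (0:ℝ) 1)
    (h : (x : AddCircle (1:ℝ)) = (u : AddCircle (1:ℝ))) : x = u := by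
  rcases eq_or_lt_of_le hx.2 with h1 | h1
  · exfalso
    rw [h1, AddCircle.coe_period, ← AddCircle.coe_zero] at h
    have := (AddCircle.coe_eq_coe_iff_of_mem_Ico (p := (1:ℝ)) (a := 0) (x := 0) (y := u)
      (by simp) ⟨hu.1.le, by simpa using hu.2⟩).mp h
    linarith [hu.1]
  · exact (AddCircle.coe_eq_coe_iff_of_mem_Ico (p := (1:ℝ)) (a := 0) (x := x) (y := u)
      ⟨hx.1, by simpa using h1⟩ ⟨hu.1.le, by simpa using hu.2⟩).mp h

lemma AffOn.trunc {a b : ℝ} {c τ : ℂ} (h : AffOn gam a b c τ) (hτ : ‖τ‖ = 1) (h0 : 0 ≤ a)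
    (h1 : b ≤ 1) {u : ℝ} (hu : u ∈ Ioo a b) :
    ∃ ε0 : ℝ, 0 < ε0 ∧ ε0 ≤ u - a ∧ ε0 ≤ b - u ∧ ∀ ε < ε0, ∀ x ∈ Icc (0:ℝ) 1,
      (ε < ‖gam (x : AddCircle (1:ℝ)) - gam (u : AddCircle (1:ℝ))‖ ↔ ε < |x - u|) := by
  have hu01 : u ∈ Ioo (0:ℝ) 1 := ⟨lt_of_le_of_lt h0 hu.1, lt_of_lt_of_le hu.2 h1⟩
  -- on the side, equality of norms
  have hside : ∀ x ∈ Icc a b, ‖gam (x : AddCircle (1:ℝ)) - gam (u : AddCircle (1:ℝ))‖ = |x - u| := by
    intro x hx
    rw [h x hx, h u ⟨hu.1.le, hu.2.le⟩]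
    have : c + (x:ℂ) * τ - (c + (u:ℂ) * τ) = ((x - u : ℝ) : ℂ) * τ := by push_cast; ring
    rw [this, norm_mul, hτ, mul_one, Complex.norm_real, Real.norm_eq_abs]
  -- compact rest
  have hK : IsCompact (Icc (0:ℝ) a ∪ Icc b 1) := isCompact_Icc.union isCompact_Icc
  have hcont : Continuous (fun x : ℝ => ‖gam (x : AddCircle (1:ℝ)) - gam (u : AddCircle (1:ℝ))‖) := by
    have : Continuous (fun x : ℝ => gam (x : AddCircle (1:ℝ))) :=
      gam_cont.comp (AddCircle.continuous_mk' 1)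
    fun_prop
  have hne : (Icc (0:ℝ) a ∪ Icc b 1).Nonempty := ⟨0, Or.inl ⟨le_rfl, h0⟩⟩
  obtain ⟨x0, hx0, hmin⟩ := hK.exists_isMinOn hne hcont.continuousOn
  have hpos : 0 < ‖gam (x0 : AddCircle (1:ℝ)) - gam (u : AddCircle (1:ℝ))‖ := by
    rw [norm_pos_iff, sub_ne_zero]
    intro he
    have he' := gam_inj he
    have hx01 : x0 ∈ Icc (0:ℝ) 1 := by
      rcases hx0 with h2 | h2
      · exact ⟨h2.1, by linarith [h2.2, hu.1, hu.2]⟩
      · exact ⟨by linarith [h2.1, hu.1, hu.2], h2.2⟩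
    have := coe_eq_coe_of_Icc hx01 hu01 he'
    rcases hx0 with h2 | h2
    · linarith [h2.2, hu.1]
    · linarith [h2.1, hu.2]
  refine ⟨min (‖gam (x0 : AddCircle (1:ℝ)) - gam (u : AddCircle (1:ℝ))‖) (min (u - a) (b - u)),
    ?_, ?_, ?_, ?_⟩
  · exact lt_min hpos (lt_min (by linarith [hu.1]) (by linarith [hu.2]))
  · exact (min_le_right _ _).trans (min_le_left _ _)
  · exact (min_le_right _ _).trans (min_le_right _ _)
  · intro ε hε x hx
    have e1 := hε.trans_le (min_le_left _ _)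
    have e2 := hε.trans_le ((min_le_right _ _).trans (min_le_left _ _))
    have e3 := hε.trans_le ((min_le_right _ _).trans (min_le_right _ _))
    rcases le_total x a with hxa | hxa
    · have hm := isMinOn_iff.mp hmin x (Or.inl ⟨hx.1, hxa⟩)
      constructor
      · intro _
        rw [abs_sub_comm, abs_of_nonneg (by linarith [hu.1])]
        linarith
      · intro _
        exact lt_of_lt_of_le e1 hm
    · rcases le_total b x with hxb | hxb
      · have hm := isMinOn_iff.mp hmin x (Or.inr ⟨hxb, hx.2⟩)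
        constructor
        · intro _
          rw [abs_of_nonneg (by linarith [hu.2])]
          linarith
        · intro _
          exact lt_of_lt_of_le e1 hm
      · rw [hside x ⟨hxa, hxb⟩]

lemma trunc_integral {u ε ε0 : ℝ} (hu : u ∈ Ioo (0:ℝ) 1) (hε : 0 < ε) (hε0 : ε < ε0)
    (hε1 : ε0 ≤ u) (hε2 : ε0 ≤ 1 - u)
    (hset : ∀ x ∈ Icc (0:ℝ) 1,
      (ε < ‖gam (x : AddCircle (1:ℝ)) - gam (u : AddCircle (1:ℝ))‖ ↔ ε < |x - u|))
    (G : AddCircle (1:ℝ) → ℂ)
    (hG1 : IntervalIntegrable (fun x : ℝ => G (x : AddCircle (1:ℝ))) volume 0 (u - ε))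
    (hG2 : IntervalIntegrable (fun x : ℝ => G (x : AddCircle (1:ℝ))) volume (u + ε) 1) :
    ∫ σ in {σ : AddCircle (1:ℝ) | ε < ‖gam σ - gam (u : AddCircle (1:ℝ))‖}, G σ =
      (∫ x in (0:ℝ)..(u - ε), G (x : AddCircle (1:ℝ))) +
        ∫ x in (u + ε)..1, G (x : AddCircle (1:ℝ)) := by
  have hmeas : MeasurableSet {σ : AddCircle (1:ℝ) | ε < ‖gam σ - gam (u : AddCircle (1:ℝ))‖} := by
    apply IsOpen.measurableSet
    apply isOpen_lt continuous_const
    have := gam_cont
    fun_prop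
  rw [← integral_indicator hmeas]
  have h1 := AddCircle.integral_preimage (1:ℝ) 0
    ({σ : AddCircle (1:ℝ) | ε < ‖gam σ - gam (u : AddCircle (1:ℝ))‖}.indicator G)
  rw [← h1, zero_add]
  have h2 : ∀ x ∈ Ioc (0:ℝ) 1,
      {σ : AddCircle (1:ℝ) | ε < ‖gam σ - gam (u : AddCircle (1:ℝ))‖}.indicator G
        (x : AddCircle (1:ℝ)) =
      (Ioo (0:ℝ) (u - ε) ∪ Ioc (u + ε) 1).indicator (fun x : ℝ => G (x : AddCircle (1:ℝ))) x := by
    intro x hx
    have h3 := hset x ⟨hx.1.le, hx.2⟩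
    by_cases hc : ε < |x - u|
    · rw [indicator_of_mem (by exact h3.mpr hc), indicator_of_mem]
      rcases lt_abs.mp hc with h4 | h4
      · right; exact ⟨by linarith, hx.2⟩
      · left; exact ⟨hx.1, by linarith⟩
    · rw [indicator_of_notMem (by intro h5; exact hc (h3.mp h5)), indicator_of_notMem]
      rintro (h5 | h5)
      · apply hc; rw [abs_sub_comm]; exact lt_of_lt_of_le (by linarith [h5.2]) (le_abs_self _)
      · apply hc; exact lt_of_lt_of_le (by linarith [h5.1]) (le_abs_self _)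
  rw [setIntegral_congr_fun measurableSet_Ioc h2,
    setIntegral_indicator (measurableSet_Ioo.union measurableSet_Ioc)]
  have h3 : Ioc (0:ℝ) 1 ∩ (Ioo (0:ℝ) (u - ε) ∪ Ioc (u + ε) 1) =
      Ioo (0:ℝ) (u - ε) ∪ Ioc (u + ε) 1 := by
    rw [inter_eq_right]
    rintro x (hx | hx)
    · exact ⟨hx.1, by linarith [hx.2, hu.2]⟩
    · exact ⟨by linarith [hx.1, hu.1], hx.2⟩
  rw [h3, setIntegral_union _ measurableSet_Ioc, ← integral_Ioc_eq_integral_Ioo,
    ← intervalIntegral.integral_of_le (by linarith), ← intervalIntegral.integral_of_le (by linarith)]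
  · rw [intervalIntegrable_iff_integrableOn_Ioo_of_le (by linarith)] at hG1
    exact hG1
  · rw [intervalIntegrable_iff_integrableOn_Ioc_of_le (by linarith)] at hG2
    exact hG2
  · rw [Set.disjoint_left]
    intro x hx hx'
    linarith [hx.2, hx'.1]

end Pool.Agent.MP559

end

section

open MeasureTheory Filter Topology Set Complex

namespace Pool.Agent.MP559

lemma AffOn.cK_own {a b : ℝ} {c τ : ℂ} (h : AffOn gam a b c τ) (hτ : ‖τ‖ = 1) {u : ℝ}
    (hu : u ∈ Ioo a b) {x : ℝ} (hx : x ∈ Ioo a b) :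
    cK (gam (u : AddCircle (1:ℝ))) (x : AddCircle (1:ℝ)) = (((x - u)⁻¹ : ℝ) : ℂ) := by
  unfold cK
  rw [h x ⟨hx.1.le, hx.2.le⟩, h.tangent hx, h u ⟨hu.1.le, hu.2.le⟩]
  have h0 : τ ≠ 0 := by rintro rfl; simp at hτ
  have : c + (x:ℂ) * τ - (c + (u:ℂ) * τ) = ((x - u : ℝ) : ℂ) * τ := by push_cast; ring
  rw [this]
  push_cast
  rcases eq_or_ne ((x:ℂ) - u) 0 with h1 | h1
  · rw [h1]; simp
  · field_simp

lemma AffOn.own_left {a b : ℝ} {c τ : ℂ} (h : AffOn gam a b c τ) (hτ : ‖τ‖ = 1) {u ε : ℝ}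
    (hu : u ∈ Ioo a b) (hε : 0 < ε) (hε1 : ε < u - a) :
    IntervalIntegrable (fun x : ℝ => cK (gam (u : AddCircle (1:ℝ))) (x : AddCircle (1:ℝ)))
      volume a (u - ε) ∧
    ∫ x in a..(u - ε), cK (gam (u : AddCircle (1:ℝ))) (x : AddCircle (1:ℝ)) =
      (Real.log (ε / (u - a)) : ℂ) := by
  have hle : a ≤ u - ε := by linarith
  have heq : EqOn (fun x : ℝ => cK (gam (u : AddCircle (1:ℝ))) (x : AddCircle (1:ℝ)))
      (fun x : ℝ => (((x - u)⁻¹ : ℝ) : ℂ)) (Ioo a (u - ε)) := by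
    intro x hx
    exact h.cK_own hτ hu ⟨hx.1, by linarith [hx.2, hu.2]⟩
  constructor
  · have h1 : IntervalIntegrable (fun x : ℝ => (((x - u)⁻¹ : ℝ) : ℂ)) volume a (u - ε) := by
      apply ContinuousOn.intervalIntegrable
      rw [uIcc_of_le hle]
      intro x hx
      have : x - u ≠ 0 := by
        intro h0; linarith [hx.2]
      apply ContinuousAt.continuousWithinAt
      apply Complex.continuous_ofReal.continuousAt.comp
      refine ContinuousAt.inv₀ ?_ this
      fun_prop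
    refine h1.congr_uIoo ?_
    rw [uIoo_of_le hle]
    exact heq.symm
  · rw [intervalIntegral.integral_congr_Ioo_of_le hle heq, intervalIntegral.integral_ofReal,
      intervalIntegral.integral_comp_sub_right (fun y : ℝ => y⁻¹) u,
      integral_inv_of_neg (by linarith [hu.1]) (by linarith)]
    congr 2
    have : u - a ≠ 0 := by linarith [hu.1]
    have : a - u ≠ 0 := by linarith [hu.1]
    field_simp
    ring

lemma AffOn.own_right {a b : ℝ} {c τ : ℂ} (h : AffOn gam a b c τ) (hτ : ‖τ‖ = 1) {u ε : ℝ}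
    (hu : u ∈ Ioo a b) (hε : 0 < ε) (hε1 : ε < b - u) :
    IntervalIntegrable (fun x : ℝ => cK (gam (u : AddCircle (1:ℝ))) (x : AddCircle (1:ℝ)))
      volume (u + ε) b ∧
    ∫ x in (u + ε)..b, cK (gam (u : AddCircle (1:ℝ))) (x : AddCircle (1:ℝ)) =
      (Real.log ((b - u) / ε) : ℂ) := by
  have hle : u + ε ≤ b := by linarith
  have heq : EqOn (fun x : ℝ => cK (gam (u : AddCircle (1:ℝ))) (x : AddCircle (1:ℝ)))
      (fun x : ℝ => (((x - u)⁻¹ : ℝ) : ℂ)) (Ioo (u + ε) b) := by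
    intro x hx
    exact h.cK_own hτ hu ⟨by linarith [hx.1, hu.1], hx.2⟩
  constructor
  · have h1 : IntervalIntegrable (fun x : ℝ => (((x - u)⁻¹ : ℝ) : ℂ)) volume (u + ε) b := by
      apply ContinuousOn.intervalIntegrable
      rw [uIcc_of_le hle]
      intro x hx
      have : x - u ≠ 0 := by
        intro h0; linarith [hx.1]
      apply ContinuousAt.continuousWithinAt
      apply Complex.continuous_ofReal.continuousAt.comp
      refine ContinuousAt.inv₀ ?_ this
      fun_prop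
    refine h1.congr_uIoo ?_
    rw [uIoo_of_le hle]
    exact heq.symm
  · rw [intervalIntegral.integral_congr_Ioo_of_le hle heq, intervalIntegral.integral_ofReal,
      intervalIntegral.integral_comp_sub_right (fun y : ℝ => y⁻¹) u,
      integral_inv_of_pos (by linarith [hu.1]) (by linarith [hu.2])]
    congr 2
    ring

lemma own_sum {a b u ε : ℝ} (hu : u ∈ Ioo a b) (hε : 0 < ε) :
    (Real.log (ε / (u - a)) : ℂ) + (Real.log ((b - u) / ε) : ℂ) =
      (Real.log ((b - u) / (u - a)) : ℂ) := by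
  have h1 : 0 < u - a := by linarith [hu.1]
  have h2 : 0 < b - u := by linarith [hu.2]
  have : Real.log (ε / (u - a)) + Real.log ((b - u) / ε) = Real.log ((b - u) / (u - a)) := by
    rw [← Real.log_mul (by positivity) (by positivity)]
    congr 1
    field_simp
  rw [← this]; push_cast; ring

lemma pv_one {u : ℝ} (hu : u ∈ Ioo (0:ℝ) (1/3)) :
    ∀ᶠ ε : ℝ in 𝓝[>] 0, ∫ σ in {σ : AddCircle (1:ℝ) | ε < ‖gam σ - gam (u : AddCircle (1:ℝ))‖},
      cK (gam (u : AddCircle (1:ℝ))) σ = Real.pi * I := by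
  obtain ⟨ε0, hε0, hε1, hε2, hset⟩ := aff1.trunc (by simp) le_rfl (by norm_num) hu
  have hmem : Ioo (0:ℝ) ε0 ∈ 𝓝[>] (0:ℝ) := Ioo_mem_nhdsGT hε0
  filter_upwards [hmem] with ε hε
  have hgu : gam (u : AddCircle (1:ℝ)) = u := gam_one hu.1.le hu.2.le
  obtain ⟨il, vl⟩ := aff1.own_left (by simp) hu hε.1 (by linarith [hε.2])
  obtain ⟨ir, vr⟩ := aff1.own_right (by simp) hu hε.1 (by linarith [hε.2])
  have hz2 : 3 * (gam (u : AddCircle (1:ℝ))).re + 4 * (gam (u : AddCircle (1:ℝ))).im ≠ 1 := by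
    rw [hgu]; simp; intro h; linarith [hu.2]
  have hz3 : (gam (u : AddCircle (1:ℝ))).re ≠ 0 := by
    rw [hgu]; simp; exact hu.1.ne'
  have i2 := side2_int hz2
  have i3 := side3_int hz3
  rw [trunc_integral ⟨hu.1, by linarith [hu.2]⟩ hε.1 hε.2 (by linarith) (by linarith)
    (hset ε hε.2) _ il ((ir.trans i2).trans i3),
    ← intervalIntegral.integral_add_adjacent_intervals (ir.trans i2) i3,
    ← intervalIntegral.integral_add_adjacent_intervals ir i2, vl, vr, side2_val hz2, side3_val hz3,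
    ← add_assoc, ← add_assoc, own_sum hu hε.1]
  have hu0 := hu.1
  have hu1 := hu.2
  apply log_sum_on
  · apply div_pos <;> linarith
  · apply div_im_pos'; rw [hgu]; simp; nlinarith
  · apply div_im_pos'; rw [hgu]; simp; nlinarith
  · rw [hgu]
    have h1 : (1/3 - (u:ℂ)) ≠ 0 := by
      have : ((1/3 - u : ℝ) : ℂ) ≠ 0 := ofReal_ne_zero.mpr (by linarith)
      push_cast at this; exact this
    have h2 : (u:ℂ) ≠ 0 := by exact_mod_cast hu0.ne'
    have h3 : I/4 - (u:ℂ) ≠ 0 := by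
      intro h
      have := congrArg Complex.im h
      simp at this
    push_cast
    rw [sub_zero]
    generalize (1/3 - (u:ℂ)) = q at *
    generalize (I/4 - (u:ℂ)) = r at *
    field_simp

lemma pv_two {u : ℝ} (hu : u ∈ Ioo (1/3:ℝ) (3/4)) :
    ∀ᶠ ε : ℝ in 𝓝[>] 0, ∫ σ in {σ : AddCircle (1:ℝ) | ε < ‖gam σ - gam (u : AddCircle (1:ℝ))‖},
      cK (gam (u : AddCircle (1:ℝ))) σ = Real.pi * I := by
  obtain ⟨ε0, hε0, hε1, hε2, hset⟩ := aff2.trunc d2_norm (by norm_num) (by norm_num) hu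
  have hmem : Ioo (0:ℝ) ε0 ∈ 𝓝[>] (0:ℝ) := Ioo_mem_nhdsGT hε0
  filter_upwards [hmem] with ε hε
  have hgu : gam (u : AddCircle (1:ℝ)) = 1/3 + (u - 1/3) * d2 := gam_two hu.1.le hu.2.le
  have hre : (gam (u : AddCircle (1:ℝ))).re = 1/3 - 4/5 * (u - 1/3) := by
    rw [hgu]; simp [d2_re, d2_im]; ring
  have him : (gam (u : AddCircle (1:ℝ))).im = 3/5 * (u - 1/3) := by
    rw [hgu]; simp [d2_re, d2_im]; ring
  obtain ⟨il, vl⟩ := aff2.own_left d2_norm hu hε.1 (by linarith [hε.2])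
  obtain ⟨ir, vr⟩ := aff2.own_right d2_norm hu hε.1 (by linarith [hε.2])
  have hz1 : (gam (u : AddCircle (1:ℝ))).im ≠ 0 := by
    rw [him]; intro h; linarith [hu.1]
  have hz3 : (gam (u : AddCircle (1:ℝ))).re ≠ 0 := by
    rw [hre]; intro h; linarith [hu.2]
  have i1 := side1_int hz1
  have i3 := side3_int hz3
  rw [trunc_integral ⟨by linarith [hu.1], by linarith [hu.2]⟩ hε.1 hε.2 (by linarith) (by linarith)
    (hset ε hε.2) _ (i1.trans il) (ir.trans i3),
    ← intervalIntegral.integral_add_adjacent_intervals ir i3,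
    ← intervalIntegral.integral_add_adjacent_intervals i1 il, vl, vr, side1_val hz1, side3_val hz3]
  have hos := own_sum hu hε.1
  have hu0 := hu.1
  have hu1 := hu.2
  have hmain : (Real.log ((3/4 - u) / (u - 1/3)) : ℂ) +
      log ((1/3 - gam (u : AddCircle (1:ℝ))) / (-gam (u : AddCircle (1:ℝ)))) +
      log ((-gam (u : AddCircle (1:ℝ))) / (I/4 - gam (u : AddCircle (1:ℝ)))) = Real.pi * I := by
    apply log_sum_on
    · apply div_pos <;> linarith
    · apply div_im_pos'; simp [hre, him]; nlinarith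
    · apply div_im_pos'; simp [hre, him]; nlinarith
    · have h1 : (I/4 - gam (u : AddCircle (1:ℝ))) = (3/4 - u) * d2 := by
        rw [hgu, ← v2_eq]; push_cast; ring
      have h2 : (1/3 - gam (u : AddCircle (1:ℝ))) = - ((u - 1/3) * d2) := by
        rw [hgu]; ring
      have h3 : gam (u : AddCircle (1:ℝ)) ≠ 0 := by
        intro h; rw [h] at hz1; simp at hz1
      rw [h1, h2]
      have h4 : ((3/4:ℂ) - u) ≠ 0 := by
        have : ((3/4 - u : ℝ) : ℂ) ≠ 0 := ofReal_ne_zero.mpr (by linarith)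
        push_cast at this; exact this
      have h5 : ((u:ℂ) - 1/3) ≠ 0 := by
        have : ((u - 1/3 : ℝ) : ℂ) ≠ 0 := ofReal_ne_zero.mpr (by linarith)
        push_cast at this; exact this
      have h6 : d2 ≠ 0 := by
        intro h; have := d2_norm; rw [h] at this; simp at this
      push_cast
      generalize ((3/4:ℂ) - u) = q at *
      generalize ((u:ℂ) - 1/3) = r at *
      generalize gam (u : AddCircle (1:ℝ)) = g at *
      field_simp
  rw [← hmain, ← hos]
  ring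

lemma pv_three {u : ℝ} (hu : u ∈ Ioo (3/4:ℝ) 1) :
    ∀ᶠ ε : ℝ in 𝓝[>] 0, ∫ σ in {σ : AddCircle (1:ℝ) | ε < ‖gam σ - gam (u : AddCircle (1:ℝ))‖},
      cK (gam (u : AddCircle (1:ℝ))) σ = Real.pi * I := by
  obtain ⟨ε0, hε0, hε1, hε2, hset⟩ := aff3.trunc (by simp) (by norm_num) le_rfl hu
  have hmem : Ioo (0:ℝ) ε0 ∈ 𝓝[>] (0:ℝ) := Ioo_mem_nhdsGT hε0
  filter_upwards [hmem] with ε hε
  have hgu : gam (u : AddCircle (1:ℝ)) = I * (1 - u) := gam_three hu.1.le hu.2.le
  have hre : (gam (u : AddCircle (1:ℝ))).re = 0 := by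
    rw [hgu]; simp
  have him : (gam (u : AddCircle (1:ℝ))).im = 1 - u := by
    rw [hgu]; simp
  obtain ⟨il, vl⟩ := aff3.own_left (by simp) hu hε.1 (by linarith [hε.2])
  obtain ⟨ir, vr⟩ := aff3.own_right (by simp) hu hε.1 (by linarith [hε.2])
  have hz1 : (gam (u : AddCircle (1:ℝ))).im ≠ 0 := by
    rw [him]; intro h; linarith [hu.2]
  have hz2 : 3 * (gam (u : AddCircle (1:ℝ))).re + 4 * (gam (u : AddCircle (1:ℝ))).im ≠ 1 := by
    rw [hre, him]; intro h; linarith [hu.1]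
  have i1 := side1_int hz1
  have i2 := side2_int hz2
  rw [trunc_integral ⟨by linarith [hu.1], by linarith [hu.2]⟩ hε.1 hε.2 (by linarith) (by linarith)
    (hset ε hε.2) _ ((i1.trans i2).trans il) ir,
    ← intervalIntegral.integral_add_adjacent_intervals (i1.trans i2) il,
    ← intervalIntegral.integral_add_adjacent_intervals i1 i2, vl, vr, side1_val hz1, side2_val hz2]
  have hos := own_sum hu hε.1
  have hu0 := hu.1
  have hu1 := hu.2
  have hmain : (Real.log ((1 - u) / (u - 3/4)) : ℂ) +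
      log ((1/3 - gam (u : AddCircle (1:ℝ))) / (-gam (u : AddCircle (1:ℝ)))) +
      log ((I/4 - gam (u : AddCircle (1:ℝ))) / (1/3 - gam (u : AddCircle (1:ℝ)))) =
        Real.pi * I := by
    apply log_sum_on
    · apply div_pos <;> linarith
    · apply div_im_pos'; simp [hre, him]; nlinarith
    · apply div_im_pos'; simp [hre, him]; nlinarith
    · have h1 : (I/4 - gam (u : AddCircle (1:ℝ))) = (u - 3/4) * I := by
        rw [hgu]; ring
      have h3 : (1/3 - gam (u : AddCircle (1:ℝ))) ≠ 0 := by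
        intro h
        have := congrArg Complex.re h
        simp [hre] at this
      rw [h1]
      have h4 : (1 - (u:ℂ)) ≠ 0 := by
        have : (1 - u : ℝ) ≠ 0 := by linarith
        exact_mod_cast this
      have h5 : ((u:ℂ) - 3/4) ≠ 0 := by
        have : ((u - 3/4 : ℝ) : ℂ) ≠ 0 := ofReal_ne_zero.mpr (by linarith)
        push_cast at this; exact this
      generalize (1/3 - gam (u : AddCircle (1:ℝ))) = g at *
      rw [hgu]
      push_cast
      generalize (1 - (u:ℂ)) = q at *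
      generalize ((u:ℂ) - 3/4) = r at *
      field_simp
  rw [← hmain, ← hos]
  ring

/-- principal value of the Cauchy kernel -/
lemma pv_ae : ∀ᵐ s : AddCircle (1:ℝ),
    ∀ᶠ ε : ℝ in 𝓝[>] 0, ∫ σ in {σ : AddCircle (1:ℝ) | ε < ‖gam σ - gam s‖},
      cK (gam s) σ = Real.pi * I := by
  filter_upwards [ae_ne_c ((0:ℝ) : AddCircle (1:ℝ)), ae_ne_c ((1/3:ℝ) : AddCircle (1:ℝ)),
    ae_ne_c ((3/4:ℝ) : AddCircle (1:ℝ))] with s h0 h1 h2
  obtain ⟨x, hx, rfl⟩ := AddCircle.eq_coe_Ico s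
  have hx0 : 0 < x := lt_of_le_of_ne hx.1 (by rintro rfl; exact h0 rfl)
  have hx1 : x ≠ 1/3 := by rintro rfl; exact h1 rfl
  have hx2 : x ≠ 3/4 := by rintro rfl; exact h2 rfl
  rcases lt_or_gt_of_ne hx1 with h | h
  · exact pv_one ⟨hx0, h⟩
  · rcases lt_or_gt_of_ne hx2 with h' | h'
    · exact pv_two ⟨h, h'⟩
    · exact pv_three ⟨h', hx.2⟩

end Pool.Agent.MP559

end

section

open MeasureTheory Filter Topology Set Complex

namespace Pool.Agent.MP559

lemma exists_rep (s : AddCircle (1:ℝ)) : ∃ h : ℝ, (h : AddCircle (1:ℝ)) = s ∧ |h| = ‖s‖ := by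
  obtain ⟨x, hx, rfl⟩ := AddCircle.eq_coe_Ico s
  refine ⟨x - round x, ?_, ?_⟩
  · rw [AddCircle.coe_sub]
    have : ((round x : ℝ) : AddCircle (1:ℝ)) = 0 := by
      rw [AddCircle.coe_eq_zero_iff]
      exact ⟨round x, by simp⟩
    rw [this, sub_zero]
  · exact (UnitAddCircle.norm_eq).symm

lemma gam_right_deriv (x : ℝ) : ∃ τ : ℂ, ‖τ‖ = 1 ∧
    HasDerivWithinAt (fun v : ℝ => gam (v : AddCircle (1:ℝ))) τ (Ici x) x := by
  have key : ∃ τ : ℂ, ‖τ‖ = 1 ∧ HasDerivWithinAt
      (fun v : ℝ => gam ((x : AddCircle (1:ℝ)) + (v : AddCircle (1:ℝ)))) τ (Ici 0) 0 := by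
    obtain ⟨y, hy, hxy⟩ := AddCircle.eq_coe_Ico (x : AddCircle (1:ℝ))
    rw [← hxy]
    rcases lt_or_ge y (1/3) with h | h
    · exact ⟨1, by simp, aff1.right ⟨hy.1, h⟩⟩
    · rcases lt_or_ge y (3/4) with h' | h'
      · exact ⟨d2, d2_norm, aff2.right ⟨h, h'⟩⟩
      · exact ⟨-I, by simp, aff3.right ⟨h', hy.2⟩⟩
  obtain ⟨τ, h1, h2⟩ := key
  refine ⟨τ, h1, ?_⟩
  have h3 : HasDerivWithinAt (fun v : ℝ => v - x) 1 (Ici x) x :=
    ((hasDerivAt_id x).sub_const x).hasDerivWithinAt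
  have h2' : HasDerivWithinAt
      (fun v : ℝ => gam ((x : AddCircle (1:ℝ)) + (v : AddCircle (1:ℝ)))) τ (Ici 0)
      ((fun v : ℝ => v - x) x) := by
    simpa using h2
  have h4 := HasDerivWithinAt.scomp (h := fun v : ℝ => v - x) (h' := 1) x h2' h3
    (fun v (hv : x ≤ v) => by simpa using hv)
  have h5 : ((fun v : ℝ => gam ((x : AddCircle (1:ℝ)) + (v : AddCircle (1:ℝ)))) ∘ fun v => v - x)
      = fun v : ℝ => gam (v : AddCircle (1:ℝ)) := by
    ext v
    show gam ((x : AddCircle (1:ℝ)) + ((v - x : ℝ) : AddCircle (1:ℝ))) = _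
    rw [← AddCircle.coe_add]
    congr 2
    ring
  rw [h5] at h4
  simpa using h4

lemma gam_lip_real {x y : ℝ} (h : x ≤ y) :
    ‖gam (y : AddCircle (1:ℝ)) - gam (x : AddCircle (1:ℝ))‖ ≤ y - x := by
  choose τ h1 h2 using gam_right_deriv
  have hc : Continuous (fun x : ℝ => gam (x : AddCircle (1:ℝ))) :=
      gam_cont.comp (AddCircle.continuous_mk' 1)
  have := norm_image_sub_le_of_norm_deriv_right_le_segment (a := x) (b := y)
    hc.continuousOn (fun u _ => h2 u) (C := 1) (fun u _ => (h1 u).le) y ⟨h, le_rfl⟩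
  simpa using this

lemma gam_lip : LipschitzWith 1 gam := by
  apply LipschitzWith.of_dist_le_mul
  intro s t
  rw [NNReal.coe_one, one_mul, dist_eq_norm, dist_eq_norm]
  obtain ⟨h, hh, hn⟩ := exists_rep (s - t)
  obtain ⟨x, hx, rfl⟩ := AddCircle.eq_coe_Ico t
  have hs : s = ((x + h : ℝ) : AddCircle (1:ℝ)) := by
    rw [AddCircle.coe_add, hh]; abel
  rw [← hn, hs]
  rcases le_total 0 h with h0 | h0
  · have := gam_lip_real (x := x) (y := x + h) (by linarith)
    rw [abs_of_nonneg h0]; linarith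
  · have := gam_lip_real (x := x + h) (y := x) (by linarith)
    rw [abs_of_nonpos h0, norm_sub_rev]; linarith

/-- step function equal a.e. to the tangent -/
noncomputable def stepT : ℝ → ℂ := fun x => if x < 1/3 then 1 else if x < 3/4 then d2 else -I

lemma stepT_meas : Measurable stepT := by
  unfold stepT
  apply Measurable.ite measurableSet_Iio measurable_const
  exact Measurable.ite measurableSet_Iio measurable_const measurable_const

lemma stepT_norm (x : ℝ) : ‖stepT x‖ = 1 := by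
  unfold stepT
  split_ifs <;> simp [d2_norm]

noncomputable def circT : AddCircle (1:ℝ) → ℂ := AddCircle.liftIco 1 0 stepT

lemma circT_meas : Measurable circT := by
  unfold circT AddCircle.liftIco
  exact (stepT_meas.comp measurable_subtype_coe).comp (AddCircle.measurableEquivIco (1:ℝ) 0).measurable

lemma circT_norm (s : AddCircle (1:ℝ)) : ‖circT s‖ = 1 := by
  obtain ⟨x, hx, rfl⟩ := AddCircle.eq_coe_Ico s
  unfold circT
  rw [AddCircle.liftIco_zero_coe_apply hx, stepT_norm]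

lemma tangent_ae : tangent gam =ᵐ[volume] circT := by
  filter_upwards [ae_ne_c ((0:ℝ) : AddCircle (1:ℝ)), ae_ne_c ((1/3:ℝ) : AddCircle (1:ℝ)),
    ae_ne_c ((3/4:ℝ) : AddCircle (1:ℝ))] with s h0 h1 h2
  obtain ⟨x, hx, rfl⟩ := AddCircle.eq_coe_Ico s
  have hx0 : 0 < x := lt_of_le_of_ne hx.1 (by rintro rfl; exact h0 rfl)
  have hx1 : x ≠ 1/3 := by rintro rfl; exact h1 rfl
  have hx2 : x ≠ 3/4 := by rintro rfl; exact h2 rfl
  unfold circT
  rw [AddCircle.liftIco_zero_coe_apply hx]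
  unfold stepT
  rcases lt_or_gt_of_ne hx1 with h | h
  · rw [tangent_one ⟨hx0, h⟩, if_pos h]
  · rcases lt_or_gt_of_ne hx2 with h' | h'
    · rw [tangent_two ⟨h, h'⟩, if_neg (by linarith), if_pos h']
    · rw [tangent_three ⟨h', hx.2⟩, if_neg (by linarith), if_neg (by linarith)]

lemma tendsto_trunc {G : AddCircle (1:ℝ) → ℂ} (hG : Integrable G) (s : AddCircle (1:ℝ)) :
    Tendsto (fun ε : ℝ => ∫ σ in {σ : AddCircle (1:ℝ) | ε < ‖gam σ - gam s‖}, G σ) (𝓝[>] 0)
      (𝓝 (∫ σ, G σ)) := by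
  have hmeas : ∀ ε : ℝ, MeasurableSet {σ : AddCircle (1:ℝ) | ε < ‖gam σ - gam s‖} := by
    intro ε
    apply IsOpen.measurableSet
    apply isOpen_lt continuous_const
    have := gam_cont
    fun_prop
  have h1 : (fun ε : ℝ => ∫ σ in {σ : AddCircle (1:ℝ) | ε < ‖gam σ - gam s‖}, G σ) =
      fun ε : ℝ => ∫ σ, {σ : AddCircle (1:ℝ) | ε < ‖gam σ - gam s‖}.indicator G σ := by
    ext ε
    rw [integral_indicator (hmeas ε)]
  rw [h1]
  apply tendsto_integral_filter_of_dominated_convergence (fun σ => ‖G σ‖)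
  · exact Eventually.of_forall fun ε => hG.aestronglyMeasurable.indicator (hmeas ε)
  · exact Eventually.of_forall fun ε => Eventually.of_forall fun σ => norm_indicator_le_norm_self _ _
  · exact hG.norm
  · filter_upwards [ae_ne_c s] with σ hσ
    have hpos : 0 < ‖gam σ - gam s‖ := by
      rw [norm_pos_iff, sub_ne_zero]
      exact fun h => hσ (gam_inj h)
    apply tendsto_const_nhds.congr'
    have : Iio (‖gam σ - gam s‖) ∈ 𝓝 (0:ℝ) := Iio_mem_nhds hpos
    filter_upwards [mem_nhdsWithin_of_mem_nhds this] with ε hε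
    rw [indicator_of_mem]
    exact hε

end Pool.Agent.MP559

end

section

open MeasureTheory Filter Topology Set Complex

namespace Pool.Agent.MP559

/-- the test function `1 / (z - ζ)` on the curve -/
noncomputable def pz (ζ : ℂ) (s : AddCircle (1:ℝ)) : ℂ := 1 / (gam s - ζ)

lemma exists_dist {ζ : ℂ} (h : ζ ∉ range gam) : ∃ d : ℝ, 0 < d ∧ ∀ s, d ≤ ‖gam s - ζ‖ := by
  have hc : Continuous (fun s => ‖gam s - ζ‖) := by
    have := gam_cont
    fun_prop
  obtain ⟨s0, _, hs0⟩ := isCompact_univ.exists_isMinOn (univ_nonempty (α := AddCircle (1:ℝ)))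
    hc.continuousOn
  refine ⟨‖gam s0 - ζ‖, ?_, fun s => isMinOn_iff.mp hs0 s (mem_univ _)⟩
  rw [norm_pos_iff, sub_ne_zero]
  intro h0
  exact h ⟨s0, h0⟩

lemma pz_cont {ζ : ℂ} (h : ζ ∉ range gam) : Continuous (pz ζ) := by
  unfold pz
  have := gam_cont
  refine Continuous.div continuous_const (by fun_prop) ?_
  intro s hs
  exact h ⟨s, sub_eq_zero.mp hs⟩

lemma pz_lip {ζ : ℂ} (h : ζ ∉ range gam) : ∃ K : NNReal, LipschitzWith K (pz ζ) := by
  obtain ⟨d, hd, hds⟩ := exists_dist h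
  refine ⟨⟨1/d^2, by positivity⟩, ?_⟩
  apply LipschitzWith.of_dist_le_mul
  intro s t
  have h1 : gam s - ζ ≠ 0 := fun h0 => h ⟨s, sub_eq_zero.mp h0⟩
  have h2 : gam t - ζ ≠ 0 := fun h0 => h ⟨t, sub_eq_zero.mp h0⟩
  have h3 : pz ζ s - pz ζ t = (gam t - gam s) / ((gam s - ζ) * (gam t - ζ)) := by
    unfold pz; field_simp; ring
  rw [dist_eq_norm, h3, norm_div, norm_mul]
  have h4 := gam_lip.dist_le_mul t s
  rw [NNReal.coe_one, one_mul, dist_eq_norm] at h4
  have h5 := hds s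
  have h6 := hds t
  show _ ≤ (1/d^2) * dist s t
  rw [div_le_iff₀ (by positivity), dist_comm s t]
  have h7 : d^2 ≤ ‖gam s - ζ‖ * ‖gam t - ζ‖ := by nlinarith
  calc ‖gam t - gam s‖ ≤ dist t s := h4
    _ = 1 / d^2 * dist t s * d^2 := by field_simp
    _ ≤ 1 / d^2 * dist t s * (‖gam s - ζ‖ * ‖gam t - ζ‖) := by
      apply mul_le_mul_of_nonneg_left h7; positivity

lemma tangent_aesm : AEStronglyMeasurable (tangent gam) (volume : Measure (AddCircle (1:ℝ))) :=
  circT_meas.aestronglyMeasurable.congr tangent_ae.symm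

lemma tangent_norm_ae : ∀ᵐ s : AddCircle (1:ℝ), ‖tangent gam s‖ = 1 := by
  filter_upwards [tangent_ae] with s hs
  rw [hs, circT_norm]

lemma cK_aesm (z : ℂ) : AEStronglyMeasurable (cK z) (volume : Measure (AddCircle (1:ℝ))) := by
  unfold cK
  refine AEStronglyMeasurable.mul ?_ tangent_aesm
  apply Measurable.aestronglyMeasurable
  have := gam_cont.measurable
  fun_prop

lemma cK_integrable {ζ : ℂ} (h : ζ ∉ range gam) : Integrable (cK ζ) := by
  obtain ⟨d, hd, hds⟩ := exists_dist h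
  refine Integrable.of_bound (cK_aesm ζ) (1/d) ?_
  filter_upwards [tangent_norm_ae] with s hs
  unfold cK
  rw [norm_mul, hs, mul_one, norm_div, norm_one]
  exact one_div_le_one_div_of_le hd (hds s)

lemma trunc_meas (s : AddCircle (1:ℝ)) (ε : ℝ) :
    MeasurableSet {σ : AddCircle (1:ℝ) | ε < ‖gam σ - gam s‖} := by
  apply IsOpen.measurableSet
  apply isOpen_lt continuous_const
  have := gam_cont
  fun_prop

lemma cK_integrableOn (s : AddCircle (1:ℝ)) {ε : ℝ} (hε : 0 < ε) :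
    IntegrableOn (cK (gam s)) {σ : AddCircle (1:ℝ) | ε < ‖gam σ - gam s‖} := by
  refine Integrable.of_bound (cK_aesm _).restrict (1/ε) ?_
  rw [ae_restrict_iff' (trunc_meas s ε)]
  filter_upwards [tangent_norm_ae] with σ hσ hσ'
  unfold cK
  rw [norm_mul, hσ, mul_one, norm_div, norm_one]
  have : ε < ‖gam σ - gam s‖ := hσ'
  exact one_div_le_one_div_of_le hε this.le

lemma pz_split {ζ : ℂ} (h : ζ ∉ range gam) {s σ : AddCircle (1:ℝ)} (hσ : gam σ ≠ gam s) :
    pz ζ σ / (gam σ - gam s) * tangent gam σ = pz ζ s * (cK (gam s) σ - cK ζ σ) := by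
  have h1 : gam s - ζ ≠ 0 := fun h0 => h ⟨s, sub_eq_zero.mp h0⟩
  have h2 : gam σ - ζ ≠ 0 := fun h0 => h ⟨σ, sub_eq_zero.mp h0⟩
  have h3 : gam σ - gam s ≠ 0 := sub_ne_zero.mpr hσ
  unfold pz cK
  field_simp
  ring

lemma pz_trunc {ζ : ℂ} (h : ζ ∉ range gam) {W : ℂ} (hW : ∫ s, cK ζ s = W) :
    ∀ᵐ s : AddCircle (1:ℝ), Tendsto (fun ε : ℝ => truncCauchy gam (pz ζ) s ε) (𝓝[>] 0)
      (𝓝 ((1 - W / (Real.pi * I)) * pz ζ s)) := by
  filter_upwards [pv_ae] with s hs
  have hpi : (Real.pi * I : ℂ) ≠ 0 := by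
    simp [Real.pi_ne_zero]
  have h1 : ∀ᶠ ε : ℝ in 𝓝[>] 0, truncCauchy gam (pz ζ) s ε =
      (1 / (Real.pi * I)) * (pz ζ s * (Real.pi * I -
        ∫ σ in {σ : AddCircle (1:ℝ) | ε < ‖gam σ - gam s‖}, cK ζ σ)) := by
    filter_upwards [hs, self_mem_nhdsWithin] with ε hε hε0
    have hε0' : 0 < ε := hε0
    unfold truncCauchy
    congr 1
    rw [← hε, ← integral_sub (cK_integrableOn s hε0') (cK_integrable h).integrableOn,
      ← integral_const_mul]
    apply setIntegral_congr_fun (trunc_meas s ε)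
    intro σ hσ
    apply pz_split h
    intro h0
    have : ε < ‖gam σ - gam s‖ := hσ
    rw [h0] at this
    simp at this
    linarith
  have h2 := tendsto_trunc (cK_integrable h) s
  rw [hW] at h2
  have h3 : (1 - W / (Real.pi * I)) * pz ζ s =
      (1 / (Real.pi * I)) * (pz ζ s * (Real.pi * I - W)) := by
    field_simp
  rw [h3]
  refine Tendsto.congr' (EventuallyEq.symm h1) ?_
  exact ((tendsto_const_nhds.sub h2).const_mul _).const_mul _

lemma pz_memLp {ζ : ℂ} (h : ζ ∉ range gam) :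
    MemLp (pz ζ) 2 (volume : Measure (AddCircle (1:ℝ))) := by
  obtain ⟨d, hd, hds⟩ := exists_dist h
  refine MemLp.of_bound (pz_cont h).aestronglyMeasurable (1/d) (Eventually.of_forall fun s => ?_)
  unfold pz
  rw [norm_div, norm_one]
  exact one_div_le_one_div_of_le hd (hds s)

open Classical in
/-- class of the test function -/
noncomputable def PZ (ζ : ℂ) : Lp ℂ 2 (volume : Measure (AddCircle (1:ℝ))) :=
  if h : ζ ∉ range gam then (pz_memLp h).toLp (pz ζ) else 0

lemma PZ_coe {ζ : ℂ} (h : ζ ∉ range gam) : PZ ζ =ᵐ[volume] pz ζ := by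
  unfold PZ
  rw [dif_pos h]
  exact MemLp.coeFn_toLp _

lemma S_PZ {S : Lp ℂ 2 (volume : Measure (AddCircle (1:ℝ))) →L[ℂ]
    Lp ℂ 2 (volume : Measure (AddCircle (1:ℝ)))} (hS : CauchyOld gam S) {ζ : ℂ}
    (h : ζ ∉ range gam) {W : ℂ} (hW : ∫ s, cK ζ s = W) :
    S (PZ ζ) = (1 - W / (Real.pi * I)) • PZ ζ := by
  obtain ⟨K, hK⟩ := pz_lip h
  have h1 := hS (pz ζ) K hK (PZ ζ) (PZ_coe h)
  apply Lp.ext
  filter_upwards [h1, pz_trunc h hW, Lp.coeFn_smul (1 - W / (Real.pi * I)) (PZ ζ), PZ_coe h]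
    with s e1 e2 e3 e4
  rw [tendsto_nhds_unique e1 e2, e3, Pi.smul_apply, e4, smul_eq_mul]

lemma outside_not_mem {z : ℂ} (h1 : z.im < 0) : z ∉ range gam := by
  rintro ⟨s, hs⟩
  obtain ⟨x, hx, rfl⟩ := AddCircle.eq_coe_Ico s
  rcases le_total x (1/3) with h | h
  · rw [gam_one hx.1 h] at hs
    rw [← hs] at h1; simp at h1
  · rcases le_total x (3/4) with h' | h'
    · rw [gam_two h h'] at hs
      rw [← hs] at h1
      simp [d2_re, d2_im] at h1
      linarith
    · rw [gam_three h' hx.2.le] at hs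
      rw [← hs] at h1
      simp at h1
      linarith [hx.2]

lemma inside_not_mem {z : ℂ} (h1 : 0 < z.im) (h3 : 0 < z.re) (h2 : 3 * z.re + 4 * z.im < 1) :
    z ∉ range gam := by
  rintro ⟨s, hs⟩
  obtain ⟨x, hx, rfl⟩ := AddCircle.eq_coe_Ico s
  rcases le_total x (1/3) with h | h
  · rw [gam_one hx.1 h] at hs
    rw [← hs] at h1; simp at h1
  · rcases le_total x (3/4) with h' | h'
    · rw [gam_two h h'] at hs
      rw [← hs] at h2
      simp [d2_re, d2_im] at h2
      linarith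
    · rw [gam_three h' hx.2.le] at hs
      rw [← hs] at h3
      simp at h3

lemma S_PZ_outside {S : Lp ℂ 2 (volume : Measure (AddCircle (1:ℝ))) →L[ℂ]
    Lp ℂ 2 (volume : Measure (AddCircle (1:ℝ)))} (hS : CauchyOld gam S) {z : ℂ}
    (h1 : z.im < 0) (h3 : z.re < 0) : S (PZ z) = PZ z := by
  rw [S_PZ hS (outside_not_mem h1) (wind_outside h1 h3)]
  simp

lemma S_PZ_inside {S : Lp ℂ 2 (volume : Measure (AddCircle (1:ℝ))) →L[ℂ]
    Lp ℂ 2 (volume : Measure (AddCircle (1:ℝ)))} (hS : CauchyOld gam S) {z : ℂ}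
    (h1 : 0 < z.im) (h3 : 0 < z.re) (h2 : 3 * z.re + 4 * z.im < 1) : S (PZ z) = - PZ z := by
  rw [S_PZ hS (inside_not_mem h1 h3 h2) (wind_inside h1 h3 h2)]
  have hpi : (Real.pi * I : ℂ) ≠ 0 := by
    simp [Real.pi_ne_zero]
  have : (1 - 2 * Real.pi * I / (Real.pi * I) : ℂ) = -1 := by
    field_simp
    norm_num
  rw [this, neg_one_smul]

end Pool.Agent.MP559

end

section

open MeasureTheory Filter Topology Set Complex
open scoped ComplexConjugate ENNReal

namespace Pool.Agent.MP559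

/-- distance to the corners -/
noncomputable def rho (s : AddCircle (1:ℝ)) : ℝ :=
  min ‖s‖ (min ‖s - ((1/3 : ℝ) : AddCircle (1:ℝ))‖ ‖s - ((3/4 : ℝ) : AddCircle (1:ℝ))‖)

lemma rho_cont : Continuous rho := by
  unfold rho; fun_prop

lemma rho_nonneg (s : AddCircle (1:ℝ)) : 0 ≤ rho s := by
  unfold rho; positivity

lemma rho_le_half (s : AddCircle (1:ℝ)) : rho s ≤ 1/2 :=
  (min_le_left _ _).trans (norm_le_half s)

lemma rho_pos {s : AddCircle (1:ℝ)} (h0 : s ≠ ((0:ℝ) : AddCircle (1:ℝ)))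
    (h1 : s ≠ ((1/3:ℝ) : AddCircle (1:ℝ)))
    (h2 : s ≠ ((3/4:ℝ) : AddCircle (1:ℝ))) : 0 < rho s := by
  unfold rho
  rw [AddCircle.coe_zero] at h0
  refine lt_min (norm_pos_iff.mpr h0) (lt_min ?_ ?_)
  · exact norm_pos_iff.mpr (sub_ne_zero.mpr h1)
  · exact norm_pos_iff.mpr (sub_ne_zero.mpr h2)

lemma norm_coe_le (x : ℝ) : ‖(x : AddCircle (1:ℝ))‖ ≤ |x| := by
  have h := UnitAddCircle.norm_eq (x := x)
  have h2 := round_le x 0
  simp at h2
  exact h.le.trans h2

lemma rho_zero (x : ℝ) : rho (x : AddCircle (1:ℝ)) ≤ |x| :=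
  (min_le_left _ _).trans (norm_coe_le x)

lemma rho_one (x : ℝ) : rho (x : AddCircle (1:ℝ)) ≤ |x - 1| := by
  have h : (x : AddCircle (1:ℝ)) = ((x - 1 : ℝ) : AddCircle (1:ℝ)) := by
    rw [AddCircle.coe_sub, AddCircle.coe_period, sub_zero]
  rw [h]; exact rho_zero _

lemma rho_third (x : ℝ) : rho (x : AddCircle (1:ℝ)) ≤ |x - 1/3| := by
  unfold rho
  refine (min_le_right _ _).trans ((min_le_left _ _).trans ?_)
  rw [← AddCircle.coe_sub]; exact norm_coe_le _

lemma rho_q (x : ℝ) : rho (x : AddCircle (1:ℝ)) ≤ |x - 3/4| := by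
  unfold rho
  refine (min_le_right _ _).trans ((min_le_right _ _).trans ?_)
  rw [← AddCircle.coe_sub]; exact norm_coe_le _

/-- remainder kernel -/
noncomputable def rk (s σ : AddCircle (1:ℝ)) : ℂ := circT σ / (gam σ - gam s) - k0 (σ - s)

lemma rk_meas : StronglyMeasurable (Function.uncurry rk) := by
  apply Measurable.stronglyMeasurable
  unfold Function.uncurry rk
  have h1 : Measurable (fun p : AddCircle (1:ℝ) × AddCircle (1:ℝ) => circT p.2) :=
    circT_meas.comp measurable_snd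
  have h2 : Measurable (fun p : AddCircle (1:ℝ) × AddCircle (1:ℝ) => gam p.2 - gam p.1) :=
    ((gam_cont.comp continuous_snd).sub (gam_cont.comp continuous_fst)).measurable
  have h3 : Measurable (fun p : AddCircle (1:ℝ) × AddCircle (1:ℝ) => k0 (p.2 - p.1)) :=
    k0_meas.comp (continuous_snd.sub continuous_fst).measurable
  exact (h1.div h2).sub h3

lemma rk_far {s σ : AddCircle (1:ℝ)} (hp : 0 < rho s + rho σ)
    (hd : (rho s + rho σ) / 4 ≤ ‖gam σ - gam s‖) : ‖rk s σ‖ ≤ 12 / (rho s + rho σ) := by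
  have h0 : 0 < ‖gam σ - gam s‖ := lt_of_lt_of_le (by positivity) hd
  have h1 : ‖circT σ / (gam σ - gam s)‖ ≤ 4 / (rho s + rho σ) := by
    rw [norm_div, circT_norm, div_le_div_iff₀ h0 hp]
    linarith
  have h2 : ‖k0 (σ - s)‖ ≤ 8 / (rho s + rho σ) := by
    refine (k0_bound _).trans ?_
    have h3 : ‖gam σ - gam s‖ ≤ ‖σ - s‖ := by
      have := gam_lip.dist_le_mul σ s
      rw [NNReal.coe_one, one_mul, dist_eq_norm, dist_eq_norm] at this
      exact this
    rw [div_le_div_iff₀ (lt_of_lt_of_le h0 h3) hp]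
    linarith
  calc ‖rk s σ‖ ≤ ‖circT σ / (gam σ - gam s)‖ + ‖k0 (σ - s)‖ := norm_sub_le _ _
    _ ≤ 4 / (rho s + rho σ) + 8 / (rho s + rho σ) := add_le_add h1 h2
    _ = _ := by ring

lemma rk_same {a b : ℝ} {c τ : ℂ} (h : AffOn gam a b c τ) (hτ : ‖τ‖ = 1) (hab : b - a ≤ 1/2)
    {u x : ℝ} (hu : u ∈ Icc a b) (hx : x ∈ Icc a b) (hT : circT (x : AddCircle (1:ℝ)) = τ)
    (hp : 0 < rho (u : AddCircle (1:ℝ)) + rho (x : AddCircle (1:ℝ))) :
    ‖rk (u : AddCircle (1:ℝ)) (x : AddCircle (1:ℝ))‖ ≤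
      12 / (rho (u : AddCircle (1:ℝ)) + rho (x : AddCircle (1:ℝ))) := by
  have h1 : rk (u : AddCircle (1:ℝ)) (x : AddCircle (1:ℝ)) =
      (((x - u)⁻¹ : ℝ) : ℂ) - k0 ((x - u : ℝ) : AddCircle (1:ℝ)) := by
    unfold rk
    rw [hT, h x hx, h u hu, AddCircle.coe_sub]
    congr 1
    have h0 : τ ≠ 0 := by rintro rfl; simp at hτ
    have h2 : c + (x:ℂ) * τ - (c + (u:ℂ) * τ) = ((x - u : ℝ) : ℂ) * τ := by push_cast; ring
    rw [h2, div_mul_cancel_right₀ h0]
    push_cast; rfl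
  rw [h1]
  refine (k0_diff ?_).trans ?_
  · rw [abs_le]; constructor <;> linarith [hu.1, hu.2, hx.1, hx.2]
  · have := rho_le_half (u : AddCircle (1:ℝ))
    have := rho_le_half (x : AddCircle (1:ℝ))
    rw [le_div_iff₀ hp]; linarith

lemma circT_one {x : ℝ} (h0 : 0 ≤ x) (h : x < 1/3) : circT (x : AddCircle (1:ℝ)) = 1 := by
  unfold circT
  rw [AddCircle.liftIco_zero_coe_apply ⟨h0, by linarith⟩]
  unfold stepT; rw [if_pos h]

lemma circT_two {x : ℝ} (h0 : 1/3 ≤ x) (h : x < 3/4) : circT (x : AddCircle (1:ℝ)) = d2 := by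
  unfold circT
  rw [AddCircle.liftIco_zero_coe_apply ⟨by linarith, by linarith⟩]
  unfold stepT; rw [if_neg (by linarith), if_pos h]

lemma circT_three {x : ℝ} (h0 : 3/4 ≤ x) (h : x < 1) : circT (x : AddCircle (1:ℝ)) = -I := by
  unfold circT
  rw [AddCircle.liftIco_zero_coe_apply ⟨by linarith, by linarith⟩]
  unfold stepT; rw [if_neg (by linarith), if_neg (by linarith)]

lemma dist12 {u x : ℝ} (hu : u ∈ Ioo (0:ℝ) (1/3)) (hx : x ∈ Ioo (1/3:ℝ) (3/4)) :
    (rho (u : AddCircle (1:ℝ)) + rho (x : AddCircle (1:ℝ))) / 4 ≤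
      ‖gam (x : AddCircle (1:ℝ)) - gam (u : AddCircle (1:ℝ))‖ := by
  have h1 := rho_third u
  have h2 := rho_third x
  rw [abs_of_nonpos (by linarith [hu.2])] at h1
  rw [abs_of_nonneg (by linarith [hx.1])] at h2
  have h3 : ((rho (u : AddCircle (1:ℝ)) + rho (x : AddCircle (1:ℝ))) / 4) ^ 2 ≤
      ‖gam (x : AddCircle (1:ℝ)) - gam (u : AddCircle (1:ℝ))‖ ^ 2 := by
    rw [← Complex.normSq_eq_norm_sq, Complex.normSq_apply, gam_two hx.1.le hx.2.le,
      gam_one hu.1.le hu.2.le]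
    simp [d2_re, d2_im]
    have h4 : (rho (u : AddCircle (1:ℝ)) + rho (x : AddCircle (1:ℝ))) ^ 2 ≤ (x - u) ^ 2 := by
      have := rho_nonneg (u : AddCircle (1:ℝ))
      have := rho_nonneg (x : AddCircle (1:ℝ))
      nlinarith
    nlinarith [sq_nonneg ((x - 1/3) - (1/3 - u)), hu.1, hu.2, hx.1, hx.2]
  exact le_of_sq_le_sq h3 (norm_nonneg _)

lemma dist23 {u x : ℝ} (hu : u ∈ Ioo (1/3:ℝ) (3/4)) (hx : x ∈ Ioo (3/4:ℝ) 1) :
    (rho (u : AddCircle (1:ℝ)) + rho (x : AddCircle (1:ℝ))) / 4 ≤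
      ‖gam (x : AddCircle (1:ℝ)) - gam (u : AddCircle (1:ℝ))‖ := by
  have h1 := rho_q u
  have h2 := rho_q x
  rw [abs_of_nonpos (by linarith [hu.2])] at h1
  rw [abs_of_nonneg (by linarith [hx.1])] at h2
  have h3 : ((rho (u : AddCircle (1:ℝ)) + rho (x : AddCircle (1:ℝ))) / 4) ^ 2 ≤
      ‖gam (x : AddCircle (1:ℝ)) - gam (u : AddCircle (1:ℝ))‖ ^ 2 := by
    rw [← Complex.normSq_eq_norm_sq, Complex.normSq_apply, gam_three hx.1.le hx.2.le,
      gam_two hu.1.le hu.2.le]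
    simp [d2_re, d2_im]
    have h4 : (rho (u : AddCircle (1:ℝ)) + rho (x : AddCircle (1:ℝ))) ^ 2 ≤ (x - u) ^ 2 := by
      have := rho_nonneg (u : AddCircle (1:ℝ))
      have := rho_nonneg (x : AddCircle (1:ℝ))
      nlinarith
    nlinarith [sq_nonneg ((x - 3/4) - (3/4 - u)), hu.1, hu.2, hx.1, hx.2]
  exact le_of_sq_le_sq h3 (norm_nonneg _)

lemma dist31 {u x : ℝ} (hu : u ∈ Ioo (0:ℝ) (1/3)) (hx : x ∈ Ioo (3/4:ℝ) 1) :
    (rho (u : AddCircle (1:ℝ)) + rho (x : AddCircle (1:ℝ))) / 4 ≤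
      ‖gam (x : AddCircle (1:ℝ)) - gam (u : AddCircle (1:ℝ))‖ := by
  have h1 := rho_zero u
  have h2 := rho_one x
  rw [abs_of_nonneg hu.1.le] at h1
  rw [abs_of_nonpos (by linarith [hx.2])] at h2
  have h3 : ((rho (u : AddCircle (1:ℝ)) + rho (x : AddCircle (1:ℝ))) / 4) ^ 2 ≤
      ‖gam (x : AddCircle (1:ℝ)) - gam (u : AddCircle (1:ℝ))‖ ^ 2 := by
    rw [← Complex.normSq_eq_norm_sq, Complex.normSq_apply, gam_three hx.1.le hx.2.le,
      gam_one hu.1.le hu.2.le]
    simp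
    have h4 : (rho (u : AddCircle (1:ℝ)) + rho (x : AddCircle (1:ℝ))) ^ 2 ≤ (u + (1 - x)) ^ 2 := by
      have := rho_nonneg (u : AddCircle (1:ℝ))
      have := rho_nonneg (x : AddCircle (1:ℝ))
      nlinarith
    nlinarith [sq_nonneg (u - (1 - x)), hu.1, hu.2, hx.1, hx.2]
  exact le_of_sq_le_sq h3 (norm_nonneg _)

lemma side_cases {s : AddCircle (1:ℝ)} (h0 : s ≠ ((0:ℝ) : AddCircle (1:ℝ)))
    (h1 : s ≠ ((1/3:ℝ) : AddCircle (1:ℝ))) (h2 : s ≠ ((3/4:ℝ) : AddCircle (1:ℝ))) :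
    ∃ x : ℝ, (x : AddCircle (1:ℝ)) = s ∧
      (x ∈ Ioo (0:ℝ) (1/3) ∨ x ∈ Ioo (1/3:ℝ) (3/4) ∨ x ∈ Ioo (3/4:ℝ) 1) := by
  obtain ⟨x, hx, rfl⟩ := AddCircle.eq_coe_Ico s
  refine ⟨x, rfl, ?_⟩
  have hx0 : 0 < x := lt_of_le_of_ne hx.1 (by rintro rfl; exact h0 rfl)
  have hx1 : x ≠ 1/3 := by rintro rfl; exact h1 rfl
  have hx2 : x ≠ 3/4 := by rintro rfl; exact h2 rfl
  rcases lt_or_gt_of_ne hx1 with h | h
  · exact Or.inl ⟨hx0, h⟩
  · rcases lt_or_gt_of_ne hx2 with h' | h'
    · exact Or.inr (Or.inl ⟨h, h'⟩)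
    · exact Or.inr (Or.inr ⟨h', hx.2⟩)

lemma rk_bound {s σ : AddCircle (1:ℝ)} (h0 : s ≠ ((0:ℝ) : AddCircle (1:ℝ)))
    (h1 : s ≠ ((1/3:ℝ) : AddCircle (1:ℝ))) (h2 : s ≠ ((3/4:ℝ) : AddCircle (1:ℝ)))
    (h0' : σ ≠ ((0:ℝ) : AddCircle (1:ℝ)))
    (h1' : σ ≠ ((1/3:ℝ) : AddCircle (1:ℝ))) (h2' : σ ≠ ((3/4:ℝ) : AddCircle (1:ℝ))) :
    ‖rk s σ‖ ≤ 12 / (rho s + rho σ) := by
  have hp : 0 < rho s + rho σ := add_pos (rho_pos h0 h1 h2) (rho_pos h0' h1' h2')
  obtain ⟨u, rfl, hu⟩ := side_cases h0 h1 h2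
  obtain ⟨x, rfl, hx⟩ := side_cases h0' h1' h2'
  rcases hu with hu | hu | hu <;> rcases hx with hx | hx | hx
  · exact rk_same aff1 (by simp) (by norm_num) (Ioo_subset_Icc_self hu) (Ioo_subset_Icc_self hx)
      (circT_one hx.1.le hx.2) hp
  · exact rk_far hp (dist12 hu hx)
  · exact rk_far hp (dist31 hu hx)
  · apply rk_far hp
    rw [norm_sub_rev, add_comm]; exact dist12 hx hu
  · exact rk_same aff2 d2_norm (by norm_num) (Ioo_subset_Icc_self hu) (Ioo_subset_Icc_self hx)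
      (circT_two hx.1.le hx.2) hp
  · exact rk_far hp (dist23 hu hx)
  · apply rk_far hp
    rw [norm_sub_rev, add_comm]; exact dist31 hx hu
  · apply rk_far hp
    rw [norm_sub_rev, add_comm]; exact dist23 hx hu
  · exact rk_same aff3 (by simp) (by norm_num) (Ioo_subset_Icc_self hu) (Ioo_subset_Icc_self hx)
      (circT_three hx.1.le hx.2) hp

end Pool.Agent.MP559

end

section

open MeasureTheory Filter Topology Set Complex
open scoped ComplexConjugate

namespace Pool.Agent.MP559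

noncomputable def En (c v : ℝ) : ℂ := 1 / ((v:ℂ) - c * (1 + I))

def Good (c : ℝ) : Prop := c = -1 ∨ c = 1 ∨ c = 2

lemma En_norm_sq (c v : ℝ) : ‖En c v‖ ^ 2 = 1 / ((v - c)^2 + c^2) := by
  unfold En
  rw [norm_div, norm_one, div_pow, one_pow, ← Complex.normSq_eq_norm_sq, Complex.normSq_apply]
  simp
  ring

lemma En_bound {c : ℝ} (hc : Good c) (v : ℝ) : ‖En c v‖ ^ 2 ≤ 10 / (1 + v^2) := by
  rw [En_norm_sq]
  have h1 : (1 + v^2) ≤ 10 * ((v - c)^2 + c^2) := by
    rcases hc with rfl | rfl | rfl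
    · nlinarith [sq_nonneg (v + 1), sq_nonneg (9 * v + 10)]
    · nlinarith [sq_nonneg (9 * v - 10)]
    · nlinarith [sq_nonneg (9 * v - 20)]
  have h2 : 0 < (v - c)^2 + c^2 := by nlinarith [sq_nonneg v]
  rw [div_le_div_iff₀ h2 (by positivity)]
  linarith

lemma En_mul_bound {c c' : ℝ} (hc : Good c) (hc' : Good c') (v : ℝ) :
    ‖En c v * conj (En c' v)‖ ≤ 10 * (1 + v^2)⁻¹ := by
  rw [norm_mul, RCLike.norm_conj]
  have h1 := En_bound hc v
  have h2 := En_bound hc' v
  have h3 : 2 * (‖En c v‖ * ‖En c' v‖) ≤ ‖En c v‖ ^ 2 + ‖En c' v‖ ^ 2 := by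
    nlinarith [sq_nonneg (‖En c v‖ - ‖En c' v‖)]
  have : 10 * (1 + v^2)⁻¹ = 10 / (1 + v^2) := by ring
  rw [this]; linarith

lemma En_meas (c : ℝ) : Measurable (En c) := by
  unfold En
  fun_prop

noncomputable def J (c c' : ℝ) : ℂ := ∫ v in Ioi (0:ℝ), En c v * conj (En c' v)

lemma coe_qmp : Measure.QuasiMeasurePreserving (fun x : ℝ => (x : AddCircle (1:ℝ)))
    volume volume := by
  refine ⟨AddCircle.measurable_mk', ?_⟩
  refine Measure.AbsolutelyContinuous.mk fun N hN h0 => ?_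
  rw [Measure.map_apply AddCircle.measurable_mk' hN]
  have h1 : (fun x : ℝ => (x : AddCircle (1:ℝ))) ⁻¹' N ⊆
      ⋃ n : ℤ, ((fun x : ℝ => (x : AddCircle (1:ℝ))) ⁻¹' N ∩ Ioc (n:ℝ) (n + 1)) := by
    intro x hx
    rw [mem_iUnion]
    refine ⟨⌈x⌉ - 1, hx, ?_, ?_⟩
    · push_cast
      linarith [Int.ceil_lt_add_one x]
    · push_cast
      linarith [Int.le_ceil x]
  refine measure_mono_null h1 (measure_iUnion_null fun n => ?_)
  have h2 := (AddCircle.measurePreserving_mk (1:ℝ) (n:ℝ)).measure_preimage hN.nullMeasurableSet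
  rw [h0, Measure.restrict_apply (AddCircle.measurable_mk' hN)] at h2
  exact h2

lemma mul_qmp {δ : ℝ} (hδ : δ ≠ 0) : Measure.QuasiMeasurePreserving (fun x : ℝ => δ * x)
    volume volume := by
  refine ⟨by fun_prop, ?_⟩
  refine Measure.AbsolutelyContinuous.mk fun N hN h0 => ?_
  rw [Measure.map_apply (by fun_prop) hN, Real.volume_preimage_mul_left hδ, h0, mul_zero]

lemma theta_scaled_aesm {θ : AddCircle (1:ℝ) → ℂ} (hθ : AEStronglyMeasurable θ volume) {δ : ℝ}
    (hδ : δ ≠ 0) : AEStronglyMeasurable (fun v : ℝ => θ ((δ * v : ℝ) : AddCircle (1:ℝ))) volume :=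
  hθ.comp_quasiMeasurePreserving (coe_qmp.comp (mul_qmp hδ))

/-- one-sided limit under the integral sign -/
lemma scaled_limit {θ : AddCircle (1:ℝ) → ℂ} (hθ : AEStronglyMeasurable θ volume) {C : ℝ}
    (hC : ∀ t, ‖θ t‖ ≤ C) {θp : ℂ} (hp : RightLim θ 0 θp) {g : ℝ → ℂ} (hg : Measurable g)
    (hgb : ∀ v, ‖g v‖ ≤ 10 * (1 + v^2)⁻¹) {L : ℝ} (hL : 0 < L) :
    Tendsto (fun δ : ℝ => ∫ v in (0:ℝ)..(L / δ), θ ((δ * v : ℝ) : AddCircle (1:ℝ)) * g v)
      (𝓝[>] 0) (𝓝 (θp * ∫ v in Ioi (0:ℝ), g v)) := by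
  rw [← integral_const_mul]
  have hC0 : 0 ≤ C := (norm_nonneg _).trans (hC 0)
  have h1 : ∀ᶠ δ : ℝ in 𝓝[>] 0,
      ∫ v in Ioi (0:ℝ), (Iic (L/δ)).indicator
        (fun v : ℝ => θ ((δ * v : ℝ) : AddCircle (1:ℝ)) * g v) v =
      ∫ v in (0:ℝ)..(L / δ), θ ((δ * v : ℝ) : AddCircle (1:ℝ)) * g v := by
    filter_upwards [self_mem_nhdsWithin] with δ hδ
    have hδ' : 0 < δ := hδ
    rw [intervalIntegral.integral_of_le (by positivity), setIntegral_indicator measurableSet_Iic,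
      Ioi_inter_Iic]
  refine Tendsto.congr' h1 ?_
  apply tendsto_integral_filter_of_dominated_convergence (fun v => C * (10 * (1 + v^2)⁻¹))
  · filter_upwards [self_mem_nhdsWithin] with δ hδ
    have hδ' : 0 < δ := hδ
    apply AEStronglyMeasurable.indicator _ measurableSet_Iic
    exact ((theta_scaled_aesm hθ hδ'.ne').mul hg.aestronglyMeasurable).restrict
  · filter_upwards [self_mem_nhdsWithin] with δ hδ
    refine Eventually.of_forall fun v => ?_
    refine (norm_indicator_le_norm_self _ _).trans ?_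
    rw [norm_mul]
    exact mul_le_mul (hC _) (hgb v) (norm_nonneg _) hC0
  · exact ((integrable_inv_one_add_sq.const_mul 10).const_mul C).integrableOn
  · rw [ae_restrict_iff' measurableSet_Ioi]
    refine Eventually.of_forall fun v hv => ?_
    have hv' : 0 < v := hv
    have h2 : Tendsto (fun δ : ℝ => δ * v) (𝓝[>] 0) (𝓝[>] 0) := by
      rw [tendsto_nhdsWithin_iff]
      constructor
      · have : Tendsto (fun δ : ℝ => δ * v) (𝓝 0) (𝓝 (0 * v)) :=
          (continuous_id.mul continuous_const).tendsto 0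
        rw [zero_mul] at this
        exact this.mono_left nhdsWithin_le_nhds
      · filter_upwards [self_mem_nhdsWithin] with δ hδ
        exact mul_pos hδ hv'
    have h3 : Tendsto (fun δ : ℝ => θ ((δ * v : ℝ) : AddCircle (1:ℝ))) (𝓝[>] 0) (𝓝 θp) := by
      have := hp.comp h2
      refine this.congr fun δ => ?_
      simp only [Function.comp_apply, zero_add]
    have h4 := h3.mul_const (g v)
    refine h4.congr' ?_
    have h5 : ∀ᶠ δ : ℝ in 𝓝[>] 0, v ≤ L / δ := by
      have : Ioo (0:ℝ) (L / v) ∈ 𝓝[>] (0:ℝ) := Ioo_mem_nhdsGT (by positivity)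
      filter_upwards [this] with δ hδ
      rw [le_div_iff₀ hδ.1]
      have := (lt_div_iff₀ hv').mp hδ.2
      linarith
    filter_upwards [h5] with δ hδ
    rw [indicator_of_mem]
    exact hδ

end Pool.Agent.MP559

end

section

open MeasureTheory Filter Topology Set Complex
open scoped ComplexConjugate

namespace Pool.Agent.MP559

/-- the evaluation point `δ c (1 + i)` -/
noncomputable def zt (δ c : ℝ) : ℂ := δ * c * (1 + I)

lemma zt_re (δ c : ℝ) : (zt δ c).re = δ * c := by simp [zt]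
lemma zt_im (δ c : ℝ) : (zt δ c).im = δ * c := by simp [zt]

lemma zt_not_mem {c : ℝ} (hc : Good c) {δ : ℝ} (hδ : 0 < δ) (hδ' : δ < 1/20) :
    zt δ c ∉ range gam := by
  rcases hc with rfl | rfl | rfl
  · apply outside_not_mem; rw [zt_im]; linarith
  · apply inside_not_mem <;> (simp only [zt_re, zt_im]; linarith)
  · apply inside_not_mem <;> (simp only [zt_re, zt_im]; linarith)

lemma pz_right {c δ v : ℝ} (hδ : 0 < δ) (hv : 0 ≤ v) (hv' : δ * v ≤ 1/3) :
    pz (zt δ c) ((δ * v : ℝ) : AddCircle (1:ℝ)) = (δ:ℂ)⁻¹ * En c v := by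
  unfold pz zt En
  rw [gam_one (by positivity) hv']
  have h1 : ((δ * v : ℝ) : ℂ) - δ * c * (1 + I) = δ * ((v:ℂ) - c * (1 + I)) := by
    push_cast; ring
  rw [h1, one_div, mul_inv, one_div]

lemma pz_left {c δ v : ℝ} (hδ : 0 < δ) (hv : 0 ≤ v) (hv' : δ * v ≤ 1/4) :
    pz (zt δ c) ((-(δ * v) : ℝ) : AddCircle (1:ℝ)) = -I * ((δ:ℂ)⁻¹ * conj (En c v)) := by
  unfold pz zt En
  rw [gam_neg (by linarith) (by nlinarith [mul_nonneg hδ.le hv])]
  have h1 : -I * ((-(δ * v) : ℝ) : ℂ) - δ * c * (1 + I) = (I * δ) * ((v:ℂ) - c * (1 - I)) := by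
    push_cast
    linear_combination (-(δ:ℂ) * c) * I_sq
  have h2 : conj ((1:ℂ) / ((v:ℂ) - c * (1 + I))) = 1 / ((v:ℂ) - c * (1 - I)) := by
    rw [map_div₀, map_one, map_sub, map_mul, map_add, map_one, conj_I, conj_ofReal, conj_ofReal]
    ring_nf
  rw [h1, h2, one_div, mul_inv, mul_inv, inv_I, one_div]
  ring

noncomputable def Qf (θ : AddCircle (1:ℝ) → ℂ) (δ c c' : ℝ) : ℂ :=
  δ * ∫ σ, θ σ * (pz (zt δ c) σ * conj (pz (zt δ c') σ))

lemma far_bound {x : ℝ} (hx : x ∈ Icc (1/3:ℝ) (3/4)) : 1/5 ≤ ‖gam (x : AddCircle (1:ℝ))‖ := by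
  have h : (1/5)^2 ≤ ‖gam (x : AddCircle (1:ℝ))‖^2 := by
    rw [← Complex.normSq_eq_norm_sq, Complex.normSq_apply, gam_two hx.1 hx.2]
    simp [d2_re, d2_im]
    nlinarith [sq_nonneg (x - 1/3 - 4/15)]
  exact le_of_sq_le_sq h (norm_nonneg _) 
  
lemma zt_norm {c : ℝ} (hc : Good c) {δ : ℝ} (hδ : 0 < δ) : ‖zt δ c‖ ≤ 4 * δ := by
  have h : ‖zt δ c‖ ^ 2 ≤ (4 * δ)^2 := by
    rw [← Complex.normSq_eq_norm_sq, Complex.normSq_apply, zt_re, zt_im]
    rcases hc with rfl | rfl | rfl <;> nlinarith [sq_nonneg δ]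
  exact le_of_sq_le_sq h (by positivity)

lemma pz_far {c : ℝ} (hc : Good c) {δ : ℝ} (hδ : 0 < δ) (hδ' : δ < 1/40) {x : ℝ}
    (hx : x ∈ Icc (1/3:ℝ) (3/4)) : ‖pz (zt δ c) (x : AddCircle (1:ℝ))‖ ≤ 10 := by
  unfold pz
  have h1 := far_bound hx
  have h2 := zt_norm hc hδ
  have h3 : 1/10 ≤ ‖gam (x : AddCircle (1:ℝ)) - zt δ c‖ := by
    have := norm_sub_norm_le (gam (x : AddCircle (1:ℝ))) (zt δ c)
    linarith
  rw [norm_div, norm_one]
  calc 1 / ‖gam (x : AddCircle (1:ℝ)) - zt δ c‖ ≤ 1 / (1/10) :=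
        one_div_le_one_div_of_le (by norm_num) h3
    _ = 10 := by norm_num

end Pool.Agent.MP559

end

section

open MeasureTheory Filter Topology Set Complex
open scoped ComplexConjugate ENNReal

namespace Pool.Agent.MP559

lemma ae_good : ∀ᵐ s : AddCircle (1:ℝ), s ≠ ((0:ℝ) : AddCircle (1:ℝ)) ∧
    s ≠ ((1/3:ℝ) : AddCircle (1:ℝ)) ∧ s ≠ ((3/4:ℝ) : AddCircle (1:ℝ)) := by
  filter_upwards [ae_ne_c ((0:ℝ) : AddCircle (1:ℝ)), ae_ne_c ((1/3:ℝ) : AddCircle (1:ℝ)),
    ae_ne_c ((3/4:ℝ) : AddCircle (1:ℝ))] with s h0 h1 h2 using ⟨h0, h1, h2⟩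

noncomputable def Hk (s σ : AddCircle (1:ℝ)) : ℝ≥0∞ := ENNReal.ofReal (12 / (rho s + rho σ))

noncomputable def wk (s : AddCircle (1:ℝ)) : ℝ≥0∞ := ENNReal.ofReal (1 / √(rho s))

lemma shifted (a : ℝ) (ha : 0 < a) (p : AddCircle (1:ℝ)) :
    ∫⁻ σ : AddCircle (1:ℝ), ENNReal.ofReal (1 / (√‖σ - p‖ * (a + ‖σ - p‖))) ≤
      ENNReal.ofReal (2 * Real.pi / √a) := by
  have := lintegral_sub_right_eq_self (μ := (volume : Measure (AddCircle (1:ℝ))))
    (fun σ => ENNReal.ofReal (1 / (√‖σ‖ * (a + ‖σ‖)))) p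
  rw [this]
  exact radial_schur ha

lemma Hw_le (s σ : AddCircle (1:ℝ)) (hs : 0 < rho s) : Hk s σ * wk σ ≤
    ENNReal.ofReal 12 * (ENNReal.ofReal (1 / (√‖σ‖ * (rho s + ‖σ‖))) +
      (ENNReal.ofReal (1 / (√‖σ - ((1/3 : ℝ) : AddCircle (1:ℝ))‖ *
        (rho s + ‖σ - ((1/3 : ℝ) : AddCircle (1:ℝ))‖))) +
      ENNReal.ofReal (1 / (√‖σ - ((3/4 : ℝ) : AddCircle (1:ℝ))‖ *
        (rho s + ‖σ - ((3/4 : ℝ) : AddCircle (1:ℝ))‖))))) := by
  have key : ∀ r : ℝ, 0 ≤ r → ENNReal.ofReal (12 / (rho s + r)) * ENNReal.ofReal (1 / √r) ≤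
      ENNReal.ofReal 12 * ENNReal.ofReal (1 / (√r * (rho s + r))) := by
    intro r hr
    rw [← ENNReal.ofReal_mul (by positivity), ← ENNReal.ofReal_mul (by norm_num)]
    apply ENNReal.ofReal_le_ofReal
    apply le_of_eq
    rw [div_mul_div_comm, mul_one, mul_one_div, mul_comm (rho s + r)]
  unfold Hk wk
  have hcases : rho σ = ‖σ‖ ∨ rho σ = ‖σ - ((1/3 : ℝ) : AddCircle (1:ℝ))‖ ∨
      rho σ = ‖σ - ((3/4 : ℝ) : AddCircle (1:ℝ))‖ := by
    unfold rho
    rcases min_choice ‖σ‖ (min ‖σ - ((1/3 : ℝ) : AddCircle (1:ℝ))‖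
      ‖σ - ((3/4 : ℝ) : AddCircle (1:ℝ))‖) with h | h
    · left; exact h
    · right
      rw [h]
      exact min_choice _ _
  refine (key _ (rho_nonneg σ)).trans ?_
  gcongr
  rcases hcases with h | h | h
  · rw [h]; exact le_self_add
  · rw [h]; exact le_add_left le_self_add
  · rw [h]; exact le_add_left (le_add_left le_rfl)

lemma Hw_int {s : AddCircle (1:ℝ)} (hs : 0 < rho s) :
    ∫⁻ σ, Hk s σ * wk σ ≤ ENNReal.ofReal (72 * Real.pi) * wk s := by
  have hm : ∀ p : AddCircle (1:ℝ), Measurable fun σ : AddCircle (1:ℝ) =>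
      ENNReal.ofReal (1 / (√‖σ - p‖ * (rho s + ‖σ - p‖))) := by
    intro p
    fun_prop
  have h0 := shifted (rho s) hs 0
  simp only [sub_zero] at h0
  have hm0 := hm 0
  simp only [sub_zero] at hm0
  have h1 := shifted (rho s) hs ((1/3 : ℝ) : AddCircle (1:ℝ))
  have h2 := shifted (rho s) hs ((3/4 : ℝ) : AddCircle (1:ℝ))
  calc ∫⁻ σ, Hk s σ * wk σ ≤ ∫⁻ σ, ENNReal.ofReal 12 *
        (ENNReal.ofReal (1 / (√‖σ‖ * (rho s + ‖σ‖))) +
      (ENNReal.ofReal (1 / (√‖σ - ((1/3 : ℝ) : AddCircle (1:ℝ))‖ *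
        (rho s + ‖σ - ((1/3 : ℝ) : AddCircle (1:ℝ))‖))) +
      ENNReal.ofReal (1 / (√‖σ - ((3/4 : ℝ) : AddCircle (1:ℝ))‖ *
        (rho s + ‖σ - ((3/4 : ℝ) : AddCircle (1:ℝ))‖))))) := lintegral_mono fun σ => Hw_le s σ hs
    _ = ENNReal.ofReal 12 * ((∫⁻ σ : AddCircle (1:ℝ),
        ENNReal.ofReal (1 / (√‖σ‖ * (rho s + ‖σ‖)))) +
      ((∫⁻ σ : AddCircle (1:ℝ), ENNReal.ofReal (1 / (√‖σ - ((1/3 : ℝ) : AddCircle (1:ℝ))‖ *
        (rho s + ‖σ - ((1/3 : ℝ) : AddCircle (1:ℝ))‖)))) +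
      ∫⁻ σ : AddCircle (1:ℝ), ENNReal.ofReal (1 / (√‖σ - ((3/4 : ℝ) : AddCircle (1:ℝ))‖ *
        (rho s + ‖σ - ((3/4 : ℝ) : AddCircle (1:ℝ))‖))))) := by
        rw [lintegral_const_mul', lintegral_add_left hm0, lintegral_add_left (hm _)]
        exact ENNReal.ofReal_ne_top
    _ ≤ ENNReal.ofReal 12 * (ENNReal.ofReal (2 * Real.pi / √(rho s)) +
      (ENNReal.ofReal (2 * Real.pi / √(rho s)) + ENNReal.ofReal (2 * Real.pi / √(rho s)))) := by
        gcongr
    _ = ENNReal.ofReal (72 * Real.pi) * wk s := by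
        unfold wk
        rw [← ENNReal.ofReal_add (by positivity) (by positivity),
          ← ENNReal.ofReal_add (by positivity) (by positivity),
          ← ENNReal.ofReal_mul (by positivity), ← ENNReal.ofReal_mul (by positivity)]
        congr 1
        ring

/-- the remainder operator -/
lemma exists_R : ∃ R : Lp ℂ 2 (volume : Measure (AddCircle (1:ℝ))) →L[ℂ]
    Lp ℂ 2 (volume : Measure (AddCircle (1:ℝ))), ∀ f : Lp ℂ 2 (volume : Measure (AddCircle (1:ℝ))),
      (∀ᵐ s : AddCircle (1:ℝ), Integrable (fun σ => rk s σ * f σ)) ∧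
      R f =ᵐ[volume] fun s => ∫ σ, rk s σ * f σ := by
  have hmeasH : Measurable (Function.uncurry Hk) := by
    unfold Function.uncurry Hk
    have := rho_cont.measurable
    fun_prop
  have hmeasw : Measurable wk := by
    unfold wk
    have := rho_cont.measurable
    fun_prop
  have hsymm : ∀ s σ, Hk s σ = Hk σ s := by
    intro s σ; unfold Hk; rw [add_comm]
  refine schur_operator (μ := (volume : Measure (AddCircle (1:ℝ)))) rk_meas (H := Hk) hmeasH ?_
    (w := wk) hmeasw (C := ENNReal.ofReal (72 * Real.pi)) ENNReal.ofReal_ne_top ?_ ?_ ?_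
  · filter_upwards [ae_good] with s hs
    filter_upwards [ae_good] with σ hσ
    rw [← ofReal_norm]
    apply ENNReal.ofReal_le_ofReal
    exact rk_bound hs.1 hs.2.1 hs.2.2 hσ.1 hσ.2.1 hσ.2.2
  · filter_upwards [ae_good] with s hs
    have := rho_pos hs.1 hs.2.1 hs.2.2
    unfold wk
    refine ⟨?_, ENNReal.ofReal_ne_top⟩
    have h2 : 0 < 1 / √(rho s) := by positivity
    exact (ENNReal.ofReal_pos.mpr h2).ne'
  · filter_upwards [ae_good] with s hs
    exact Hw_int (rho_pos hs.1 hs.2.1 hs.2.2)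
  · filter_upwards [ae_good] with s hs
    simp_rw [hsymm _ s]
    exact Hw_int (rho_pos hs.1 hs.2.1 hs.2.2)

end Pool.Agent.MP559

end

section

open MeasureTheory Filter Topology Set Complex
open scoped ComplexConjugate ENNReal

namespace Pool.Agent.MP559

lemma k0_sym_zero (s : AddCircle (1:ℝ)) (ε : ℝ) :
    ∫ σ in {σ : AddCircle (1:ℝ) | ε < ‖σ - s‖}, k0 (σ - s) = 0 := by
  have hmeas : ∀ s : AddCircle (1:ℝ), MeasurableSet {σ : AddCircle (1:ℝ) | ε < ‖σ - s‖} := by
    intro s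
    apply IsOpen.measurableSet
    exact isOpen_lt continuous_const (by fun_prop)
  rw [← integral_indicator (hmeas s)]
  set g : AddCircle (1:ℝ) → ℂ := {h : AddCircle (1:ℝ) | ε < ‖h‖}.indicator k0 with hg
  have h1 : ({σ : AddCircle (1:ℝ) | ε < ‖σ - s‖}.indicator fun σ => k0 (σ - s)) =
      fun σ => g (σ - s) := by
    ext σ
    simp only [hg]
    by_cases hc : ε < ‖σ - s‖
    · rw [indicator_of_mem (by exact hc), indicator_of_mem (by exact hc)]
    · rw [indicator_of_notMem (by exact hc), indicator_of_notMem (by exact hc)]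
  rw [h1, integral_sub_right_eq_self g s]
  have h2 : ∀ h, g (-h) = - g h := by
    intro h
    simp only [hg]
    by_cases hc : ε < ‖h‖
    · rw [indicator_of_mem (by simpa using hc), indicator_of_mem (by exact hc), k0_odd]
    · rw [indicator_of_notMem (by simpa using hc), indicator_of_notMem (by exact hc), neg_zero]
  have h3 : ∫ h, g h = - ∫ h, g h := by
    conv_lhs => rw [← integral_neg_eq_self]
    simp_rw [h2]
    rw [integral_neg]
  have h4 : (2:ℂ) * ∫ h, g h = 0 := by linear_combination h3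
  simpa using h4

lemma trunc_eq_of_trunc {u ε ε0 : ℝ} (hε0 : ε < ε0)
    (hset : ∀ ε < ε0, ∀ x ∈ Icc (0:ℝ) 1,
      (ε < ‖gam (x : AddCircle (1:ℝ)) - gam (u : AddCircle (1:ℝ))‖ ↔ ε < |x - u|)) :
    {σ : AddCircle (1:ℝ) | ε < ‖gam σ - gam (u : AddCircle (1:ℝ))‖} =
      {σ : AddCircle (1:ℝ) | ε < ‖σ - (u : AddCircle (1:ℝ))‖} := by
  ext σ
  simp only [Set.mem_ofPred_eq]
  constructor
  · intro h
    have := gam_lip.dist_le_mul σ (u : AddCircle (1:ℝ))
    rw [NNReal.coe_one, one_mul, dist_eq_norm, dist_eq_norm] at this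
    linarith
  · intro h
    obtain ⟨x, hx, rfl⟩ := AddCircle.eq_coe_Ico σ
    rw [hset ε hε0 x ⟨hx.1, hx.2.le⟩]
    have := norm_coe_le (x - u)
    rw [AddCircle.coe_sub] at this
    linarith

lemma trunc_eq_ae : ∀ᵐ s : AddCircle (1:ℝ), ∀ᶠ ε : ℝ in 𝓝[>] 0,
    {σ : AddCircle (1:ℝ) | ε < ‖gam σ - gam s‖} = {σ : AddCircle (1:ℝ) | ε < ‖σ - s‖} := by
  filter_upwards [ae_good] with s hs
  obtain ⟨u, rfl, hu⟩ := side_cases hs.1 hs.2.1 hs.2.2
  rcases hu with hu | hu | hu
  · obtain ⟨ε0, hε0, _, _, hset⟩ := aff1.trunc (by simp) le_rfl (by norm_num) hu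
    filter_upwards [Ioo_mem_nhdsGT hε0] with ε hε
    exact trunc_eq_of_trunc hε.2 hset
  · obtain ⟨ε0, hε0, _, _, hset⟩ := aff2.trunc d2_norm (by norm_num) (by norm_num) hu
    filter_upwards [Ioo_mem_nhdsGT hε0] with ε hε
    exact trunc_eq_of_trunc hε.2 hset
  · obtain ⟨ε0, hε0, _, _, hset⟩ := aff3.trunc (by simp) (by norm_num) le_rfl hu
    filter_upwards [Ioo_mem_nhdsGT hε0] with ε hε
    exact trunc_eq_of_trunc hε.2 hset

theorem exists_S : ∃ S : Lp ℂ 2 (volume : Measure (AddCircle (1:ℝ))) →L[ℂ]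
    Lp ℂ 2 (volume : Measure (AddCircle (1:ℝ))), CauchyOld gam S := by
  obtain ⟨R, hR⟩ := exists_R
  refine ⟨S0 + (1 / (Real.pi * I) : ℂ) • R, ?_⟩
  intro f K hf F hF
  obtain ⟨hRint, hRval⟩ := hR F
  filter_upwards [hRint, hRval, S0_lip hf hF, trunc_eq_ae,
    Lp.coeFn_add (S0 F) ((1 / (Real.pi * I) : ℂ) • R F),
    Lp.coeFn_smul (1 / (Real.pi * I) : ℂ) (R F)] with s e1 e2 e3 e4 e5 e6
  -- the three pieces
  set g1 : AddCircle (1:ℝ) → ℂ := fun σ => rk s σ * F σ with hg1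
  set g2 : AddCircle (1:ℝ) → ℂ := fun σ => (f σ - f s) * k0 (σ - s) with hg2
  have hk0m : Measurable (fun σ : AddCircle (1:ℝ) => k0 (σ - s)) :=
    k0_meas.comp (continuous_id.sub continuous_const).measurable
  have i2 : Integrable g2 := by
    refine Integrable.of_bound (C := 2 * K) ?_ (Eventually.of_forall fun σ => ?_)
    · exact ((hf.continuous.measurable.sub_const _).mul hk0m).aestronglyMeasurable
    · have := phi_bound hf s (σ - s)
      rw [add_sub_cancel] at this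
      exact this
  have v2 : ∫ σ, g2 σ = ∫ h, (f (s + h) - f s) * k0 h := by
    have := integral_add_left_eq_self (μ := (volume : Measure (AddCircle (1:ℝ)))) g2 s
    rw [← this]
    congr 1
    ext h
    simp only [hg2, add_sub_cancel_left]
  have hval : (S0 + (1 / (Real.pi * I) : ℂ) • R) F s =
      (1 / (Real.pi * I)) * ((∫ σ, g1 σ) + ∫ σ, g2 σ) := by
    have : (S0 + (1 / (Real.pi * I) : ℂ) • R) F = S0 F + (1 / (Real.pi * I) : ℂ) • R F := rfl
    rw [this, e5, Pi.add_apply, e6, Pi.smul_apply, smul_eq_mul, e2, e3, v2]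
    ring
  rw [hval]
  have hlim := ((tendsto_trunc e1 s).add (tendsto_trunc i2 s)).const_mul (1 / (Real.pi * I) : ℂ)
  refine hlim.congr' ?_
  filter_upwards [e4, self_mem_nhdsWithin] with ε hε hε0
  have hε0' : 0 < ε := hε0
  unfold truncCauchy
  congr 1
  have i3 : IntegrableOn (fun σ => f s * k0 (σ - s))
      {σ : AddCircle (1:ℝ) | ε < ‖gam σ - gam s‖} := by
    apply Integrable.const_mul
    refine Integrable.of_bound (C := 2 / ε) hk0m.aestronglyMeasurable ?_
    rw [ae_restrict_iff' (trunc_meas s ε)]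
    refine Eventually.of_forall fun σ hσ => ?_
    refine (k0_bound _).trans ?_
    rw [hε] at hσ
    have : ε < ‖σ - s‖ := hσ
    apply div_le_div_of_nonneg_left (by norm_num) hε0' this.le
  have v3 : ∫ σ in {σ : AddCircle (1:ℝ) | ε < ‖gam σ - gam s‖}, f s * k0 (σ - s) = 0 := by
    rw [integral_const_mul, hε, k0_sym_zero, mul_zero]
  have hsum : ∫ σ in {σ : AddCircle (1:ℝ) | ε < ‖gam σ - gam s‖},
      f σ / (gam σ - gam s) * tangent gam σ =
      ∫ σ in {σ : AddCircle (1:ℝ) | ε < ‖gam σ - gam s‖}, ((g1 σ + g2 σ) + f s * k0 (σ - s)) := by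
    apply integral_congr_ae
    apply ae_restrict_of_ae
    filter_upwards [tangent_ae, hF] with σ h1 h2
    simp only [hg1, hg2]
    rw [h1, h2]
    unfold rk
    ring
  have i12 : IntegrableOn (fun σ => g1 σ + g2 σ) {σ : AddCircle (1:ℝ) | ε < ‖gam σ - gam s‖} :=
    e1.integrableOn.add i2.integrableOn
  rw [hsum, integral_add i12 i3, v3, add_zero,
    integral_add e1.integrableOn i2.integrableOn]

end Pool.Agent.MP559

end

section

open MeasureTheory Filter Topology Set Complex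
open scoped ComplexConjugate

namespace Pool.Agent.MP559

lemma small_ev {r : ℝ} (hr : 0 < r) : ∀ᶠ δ : ℝ in 𝓝[>] 0, 0 < δ ∧ δ < r := by
  have : Ioo (0:ℝ) r ∈ 𝓝[>] (0:ℝ) := Ioo_mem_nhdsGT hr
  filter_upwards [this] with δ hδ using hδ

lemma Q_lim {θ : AddCircle (1:ℝ) → ℂ} (hθ : AEStronglyMeasurable θ volume) {C : ℝ}
    (hC : ∀ t, ‖θ t‖ ≤ C) {θp θm : ℂ} (hp : RightLim θ 0 θp) (hm : LeftLim θ 0 θm)
    {c c' : ℝ} (hc : Good c) (hc' : Good c') :
    Tendsto (fun δ : ℝ => Qf θ δ c c') (𝓝[>] 0) (𝓝 (θp * J c c' + θm * conj (J c c'))) := by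
  have hC0 : 0 ≤ C := (norm_nonneg _).trans (hC 0)
  -- the integrand
  set F : ℝ → AddCircle (1:ℝ) → ℂ := fun δ σ =>
    θ σ * (pz (zt δ c) σ * conj (pz (zt δ c') σ)) with hF
  have hFint : ∀ δ : ℝ, 0 < δ → δ < 1/40 → Integrable (F δ) := by
    intro δ h0 h1
    have m1 := pz_cont (zt_not_mem hc h0 (by linarith))
    have m2 := pz_cont (zt_not_mem hc' h0 (by linarith))
    obtain ⟨d, hd, hds⟩ := exists_dist (zt_not_mem hc h0 (by linarith))
    obtain ⟨d', hd', hds'⟩ := exists_dist (zt_not_mem hc' h0 (by linarith))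
    refine Integrable.of_bound (C := C * (1/d * (1/d'))) ?_ (Eventually.of_forall fun σ => ?_)
    · refine hθ.mul (AEStronglyMeasurable.mul m1.aestronglyMeasurable ?_)
      exact (continuous_conj.comp m2).aestronglyMeasurable
    · simp only [hF]
      rw [norm_mul, norm_mul, RCLike.norm_conj]
      refine mul_le_mul (hC _) ?_ (by positivity) hC0
      unfold pz
      rw [norm_div, norm_div, norm_one]
      exact mul_le_mul (one_div_le_one_div_of_le hd (hds σ)) (one_div_le_one_div_of_le hd' (hds' σ))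
        (by positivity) (by positivity)
  have hFii : ∀ δ : ℝ, 0 < δ → δ < 1/40 → ∀ a b : ℝ, -(1/4) ≤ a → b ≤ 3/4 → a ≤ b →
      IntervalIntegrable (fun x : ℝ => F δ (x : AddCircle (1:ℝ))) volume a b := by
    intro δ h0 h1 a b ha hb hab
    have h2 := (AddCircle.measurePreserving_mk (1:ℝ) (-(1/4))).integrable_comp_of_integrable
      (hFint δ h0 h1)
    rw [intervalIntegrable_iff_integrableOn_Ioc_of_le hab]
    have h3 : IntegrableOn (fun x : ℝ => F δ (x : AddCircle (1:ℝ))) (Ioc (-(1/4)) (-(1/4) + 1)) := h2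
    refine h3.mono_set (Ioc_subset_Ioc ha (by linarith))
  -- splitting
  have hsplit : ∀ δ : ℝ, 0 < δ → δ < 1/40 → Qf θ δ c c' =
      δ * (∫ x in (-(1/4):ℝ)..0, F δ (x : AddCircle (1:ℝ))) +
      δ * (∫ x in (0:ℝ)..(1/3), F δ (x : AddCircle (1:ℝ))) +
      δ * (∫ x in (1/3:ℝ)..(3/4), F δ (x : AddCircle (1:ℝ))) := by
    intro δ h0 h1
    unfold Qf
    have h2 := AddCircle.intervalIntegral_preimage (1:ℝ) (-(1/4)) (F δ)
    have h3 : (-(1/4) + 1 : ℝ) = 3/4 := by norm_num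
    rw [h3] at h2
    have h4 : ∫ σ, θ σ * (pz (zt δ c) σ * conj (pz (zt δ c') σ)) = ∫ σ, F δ σ := rfl
    rw [h4, ← h2, ← mul_add, ← mul_add, intervalIntegral.integral_add_adjacent_intervals
      (hFii δ h0 h1 _ _ le_rfl (by norm_num) (by norm_num))
      (hFii δ h0 h1 _ _ (by norm_num) (by norm_num) (by norm_num)),
      intervalIntegral.integral_add_adjacent_intervals
      (hFii δ h0 h1 _ _ le_rfl (by norm_num) (by norm_num))
      (hFii δ h0 h1 _ _ (by norm_num) (by norm_num) (by norm_num))]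
  -- the right part
  have hg : Measurable (fun v : ℝ => En c v * conj (En c' v)) :=
    (En_meas c).mul (continuous_conj.measurable.comp (En_meas c'))
  have hright : Tendsto (fun δ : ℝ => δ * (∫ x in (0:ℝ)..(1/3), F δ (x : AddCircle (1:ℝ))))
      (𝓝[>] 0) (𝓝 (θp * J c c')) := by
    have h1 := scaled_limit hθ hC hp hg (En_mul_bound hc hc') (L := 1/3) (by norm_num)
    refine h1.congr' ?_
    filter_upwards [small_ev (r := 1/40) (by norm_num)] with δ hδ
    have h2 : ∫ v in (0:ℝ)..((1/3) / δ), θ ((δ * v : ℝ) : AddCircle (1:ℝ)) *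
        (En c v * conj (En c' v)) =
        ∫ v in (0:ℝ)..((1/3) / δ), (fun x : ℝ => (δ:ℂ)^2 * F δ (x : AddCircle (1:ℝ))) (δ * v) := by
      apply intervalIntegral.integral_congr
      intro v hv
      have h0 : (0:ℝ) ≤ (1/3) / δ := by have := hδ.1; positivity
      rw [uIcc_of_le h0] at hv
      have hv1 : δ * v ≤ 1/3 := by
        have := (le_div_iff₀ hδ.1).mp hv.2
        linarith
      simp only [hF]
      rw [pz_right hδ.1 hv.1 hv1, pz_right hδ.1 hv.1 hv1]
      have hδ0 : (δ:ℂ) ≠ 0 := by exact_mod_cast hδ.1.ne'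
      simp only [map_mul, map_inv₀, conj_ofReal]
      field_simp
    rw [h2, intervalIntegral.integral_comp_mul_left
      (fun x : ℝ => (δ:ℂ)^2 * F δ (x : AddCircle (1:ℝ))) hδ.1.ne', mul_zero,
      intervalIntegral.integral_const_mul, mul_div_cancel₀ _ hδ.1.ne']
    have hδ0 : (δ:ℂ) ≠ 0 := by exact_mod_cast hδ.1.ne'
    rw [Complex.real_smul]
    push_cast
    field_simp
  -- the left part
  have hleft : Tendsto (fun δ : ℝ => δ * (∫ x in (-(1/4):ℝ)..0, F δ (x : AddCircle (1:ℝ))))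
      (𝓝[>] 0) (𝓝 (θm * conj (J c c'))) := by
    have hθ' : AEStronglyMeasurable (fun s => θ (-s)) volume :=
      hθ.comp_measurePreserving (Measure.measurePreserving_neg _)
    have hm' : RightLim (fun s => θ (-s)) 0 θm := by
      unfold RightLim
      unfold LeftLim at hm
      have h1 : Tendsto (fun h : ℝ => -h) (𝓝[>] 0) (𝓝[<] 0) := by
        have := tendsto_neg_nhdsGT (a := (0:ℝ))
        simpa using this
      have h2 := hm.comp h1
      refine h2.congr fun h => ?_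
      simp only [Function.comp_apply, zero_add, AddCircle.coe_neg]
    have hg' : Measurable (fun v : ℝ => conj (En c v * conj (En c' v))) :=
      continuous_conj.measurable.comp hg
    have hconj : conj (J c c') = ∫ v in Ioi (0:ℝ), conj (En c v * conj (En c' v)) := by
      unfold J
      exact (integral_conj).symm
    rw [hconj]
    have h1 := scaled_limit hθ' (fun t => hC _) hm' hg'
      (fun v => by rw [RCLike.norm_conj]; exact En_mul_bound hc hc' v) (L := 1/4) (by norm_num)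
    refine h1.congr' ?_
    filter_upwards [small_ev (r := 1/40) (by norm_num)] with δ hδ
    have h2 : ∫ v in (0:ℝ)..((1/4) / δ), θ (-((δ * v : ℝ) : AddCircle (1:ℝ))) *
        conj (En c v * conj (En c' v)) =
        ∫ v in (0:ℝ)..((1/4) / δ), (fun x : ℝ => (δ:ℂ)^2 * F δ (x : AddCircle (1:ℝ))) (-δ * v) := by
      apply intervalIntegral.integral_congr
      intro v hv
      have h0 : (0:ℝ) ≤ (1/4) / δ := by have := hδ.1; positivity
      rw [uIcc_of_le h0] at hv
      have hv1 : δ * v ≤ 1/4 := by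
        have := (le_div_iff₀ hδ.1).mp hv.2
        linarith
      have h3 : -δ * v = -(δ * v) := by ring
      simp only [hF]
      rw [h3, pz_left hδ.1 hv.1 hv1, pz_left hδ.1 hv.1 hv1]
      have hδ0 : (δ:ℂ) ≠ 0 := by exact_mod_cast hδ.1.ne'
      simp only [map_mul, map_inv₀, conj_ofReal, conj_conj, AddCircle.coe_neg, map_neg, conj_I]
      field_simp
      linear_combination (θ (-((δ * v : ℝ) : AddCircle (1:ℝ))) * conj (En c v) * En c' v) * I_sq
    rw [h2, intervalIntegral.integral_comp_mul_left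
      (fun x : ℝ => (δ:ℂ)^2 * F δ (x : AddCircle (1:ℝ))) (neg_ne_zero.mpr hδ.1.ne'), mul_zero,
      intervalIntegral.integral_const_mul]
    have h4 : -δ * ((1/4) / δ) = -(1/4) := by
      have := hδ.1.ne'
      field_simp
    rw [h4, intervalIntegral.integral_symm]
    have hδ0 : (δ:ℂ) ≠ 0 := by exact_mod_cast hδ.1.ne'
    rw [Complex.real_smul]
    push_cast
    field_simp
  -- the far part
  have hfar : Tendsto (fun δ : ℝ => δ * (∫ x in (1/3:ℝ)..(3/4), F δ (x : AddCircle (1:ℝ))))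
      (𝓝[>] 0) (𝓝 0) := by
    have h0 : Tendsto (fun δ : ℝ => δ * (C * 100)) (𝓝[>] 0) (𝓝 0) := by
      have : Tendsto (fun δ : ℝ => δ * (C * 100)) (𝓝 0) (𝓝 (0 * (C * 100))) :=
        (continuous_id.mul continuous_const).tendsto 0
      rw [zero_mul] at this
      exact this.mono_left nhdsWithin_le_nhds
    apply squeeze_zero_norm' _ h0
    filter_upwards [small_ev (r := 1/40) (by norm_num)] with δ hδ
    rw [norm_mul, Complex.norm_real, Real.norm_of_nonneg hδ.1.le]
    refine mul_le_mul_of_nonneg_left ?_ hδ.1.le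
    have h1 : ∀ x ∈ Set.uIoc (1/3:ℝ) (3/4), ‖F δ (x : AddCircle (1:ℝ))‖ ≤ C * 100 := by
      intro x hx
      rw [uIoc_of_le (by norm_num)] at hx
      have hx' : x ∈ Icc (1/3:ℝ) (3/4) := ⟨hx.1.le, hx.2⟩
      simp only [hF]
      rw [norm_mul, norm_mul, RCLike.norm_conj]
      refine mul_le_mul (hC _) ?_ (by positivity) hC0
      have e1 := pz_far hc hδ.1 hδ.2 hx'
      have e2 := pz_far hc' hδ.1 hδ.2 hx'
      nlinarith [norm_nonneg (pz (zt δ c) (x : AddCircle (1:ℝ))),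
        norm_nonneg (pz (zt δ c') (x : AddCircle (1:ℝ)))]
    refine (intervalIntegral.norm_integral_le_of_norm_le_const h1).trans ?_
    have : |(3/4 - 1/3 : ℝ)| ≤ 1 := by rw [abs_le]; constructor <;> norm_num
    have : 0 ≤ C * 100 := by positivity
    nlinarith
  have hsum := (hleft.add hright).add hfar
  have e : θm * conj (J c c') + θp * J c c' + 0 = θp * J c c' + θm * conj (J c c') := by ring
  rw [e] at hsum
  refine hsum.congr' ?_
  filter_upwards [small_ev (r := 1/40) (by norm_num)] with δ hδ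
  rw [hsplit δ hδ.1 hδ.2]

end Pool.Agent.MP559

end

section

open MeasureTheory Filter Topology Set Complex
open scoped ComplexConjugate

namespace Pool.Agent.MP559

lemma J_aux {q : ℂ} (hq : ∀ v : ℝ, 0 ≤ v → 0 < (((v:ℂ) + q) / ((v:ℂ) + (1 + I))).im)
    (hint : IntegrableOn (fun v : ℝ => 1 / (((v:ℂ) + (1 + I)) * ((v:ℂ) + q))) (Ioi 0))
    (hpq : (1 + I) - q ≠ 0) :
    ∫ v in Ioi (0:ℝ), 1 / (((v:ℂ) + (1 + I)) * ((v:ℂ) + q)) =
      - (log (q / (1 + I)) / ((1 + I) - q)) := by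
  have hp0 : ∀ v : ℝ, 0 ≤ v → (v:ℂ) + (1 + I) ≠ 0 := by
    intro v hv h
    have := congrArg Complex.im h
    simp at this
  have hq0 : ∀ v : ℝ, 0 ≤ v → (v:ℂ) + q ≠ 0 := by
    intro v hv h
    have := hq v hv
    rw [h] at this; simp at this
  have hslit : ∀ v : ℝ, 0 ≤ v → ((v:ℂ) + q) / ((v:ℂ) + (1 + I)) ∈ slitPlane := by
    intro v hv
    rw [mem_slitPlane_iff]; right; exact (hq v hv).ne'
  have hderiv : ∀ v : ℝ, 0 ≤ v → HasDerivAt
      (fun v : ℝ => log (((v:ℂ) + q) / ((v:ℂ) + (1 + I))) / ((1 + I) - q))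
      (1 / (((v:ℂ) + (1 + I)) * ((v:ℂ) + q))) v := by
    intro v hv
    have e0 : HasDerivAt (fun v : ℝ => (v:ℂ)) 1 v := Complex.ofRealCLM.hasDerivAt
    have e1 : HasDerivAt (fun v : ℝ => (v:ℂ) + q) 1 v := e0.add_const q
    have e2 : HasDerivAt (fun v : ℝ => (v:ℂ) + (1 + I)) 1 v := e0.add_const (1 + I)
    have e3 := ((e1.div e2 (hp0 v hv)).clog_real (hslit v hv)).div_const ((1 + I) - q)
    refine HasDerivAt.congr_deriv e3 ?_
    have h1 := hp0 v hv
    have h2 := hq0 v hv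
    show (1 * ((v:ℂ) + (1 + I)) - ((v:ℂ) + q) * 1) / ((v:ℂ) + (1 + I)) ^ 2 /
      (((v:ℂ) + q) / ((v:ℂ) + (1 + I))) / ((1 + I) - q) = _
    field_simp
    ring
  have hlim : Tendsto (fun v : ℝ => log (((v:ℂ) + q) / ((v:ℂ) + (1 + I))) / ((1 + I) - q)) atTop
      (𝓝 0) := by
    have h1 : Tendsto (fun v : ℝ => ((v:ℂ) + q) / ((v:ℂ) + (1 + I))) atTop (𝓝 1) := by
      have h2 : Tendsto (fun v : ℝ => 1 + (q - (1 + I)) * ((v:ℂ) + (1 + I))⁻¹) atTop (𝓝 (1 + (q - (1 + I)) * 0)) := by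
        apply Tendsto.const_add
        apply Tendsto.const_mul
        apply tendsto_inv₀_cobounded.comp
        rw [← tendsto_norm_atTop_iff_cobounded]
        apply tendsto_atTop_mono (f := fun v : ℝ => v)
        · intro v
          have := Complex.abs_re_le_norm ((v:ℂ) + (1 + I))
          simp at this
          have := le_abs_self (v + 1)
          linarith
        · exact tendsto_id
      rw [mul_zero, add_zero] at h2
      refine h2.congr' ?_
      filter_upwards [eventually_ge_atTop (0:ℝ)] with v hv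
      have := hp0 v hv
      field_simp
      ring
    have h3 : Tendsto (fun v : ℝ => log (((v:ℂ) + q) / ((v:ℂ) + (1 + I)))) atTop (𝓝 (log 1)) :=
      (continuousAt_clog one_mem_slitPlane).tendsto.comp h1
    have h4 := h3.div_const ((1 + I) - q)
    simpa using h4
  have h := integral_Ioi_of_hasDerivAt_of_tendsto (hderiv 0 le_rfl).continuousAt.continuousWithinAt
    (fun v hv => hderiv v (le_of_lt hv)) hint hlim
  rw [h]
  simp

lemma En_prod (c' v : ℝ) : En (-1) v * conj (En c' v) =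
    1 / (((v:ℂ) + (1 + I)) * ((v:ℂ) + (-c' + c' * I))) := by
  unfold En
  rw [map_div₀, map_one, map_sub, map_mul, map_add, map_one, conj_I, conj_ofReal, conj_ofReal,
    one_div_mul_one_div_rev]
  push_cast
  congr 1
  ring

lemma En_integrableOn {c c' : ℝ} (hc : Good c) (hc' : Good c') :
    IntegrableOn (fun v : ℝ => En c v * conj (En c' v)) (Ioi 0) := by
  refine Integrable.mono' (g := fun v : ℝ => 10 * (1 + v^2)⁻¹) ?_ ?_ ?_
  · exact (integrable_inv_one_add_sq.const_mul 10).integrableOn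
  · exact ((En_meas c).mul (continuous_conj.measurable.comp (En_meas c'))).aestronglyMeasurable
  · exact Eventually.of_forall fun v => En_mul_bound hc hc' v

lemma J_val {c' : ℝ} (hc' : Good c') (hpos : 0 < c') :
    J (-1) c' = - (log (((-c' + c' * I : ℂ)) / (1 + I)) / ((1 + I) - (-c' + c' * I))) := by
  unfold J
  simp_rw [En_prod]
  apply J_aux
  · intro v hv
    apply div_im_pos'
    simp
    have : 1 ≤ c' := by rcases hc' with rfl | rfl | rfl <;> linarith
    nlinarith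
  · have := En_integrableOn (c := -1) (c' := c') (Or.inl rfl) hc'
    simp_rw [En_prod] at this
    exact this
  · intro h
    have := congrArg Complex.re h
    simp at this
    linarith

lemma J_one : J (-1) 1 = - ((Real.pi / 4 : ℝ) : ℂ) * I := by
  rw [J_val (Or.inr (Or.inl rfl)) one_pos]
  have h1 : ((-(1:ℝ) + (1:ℝ) * I : ℂ)) / (1 + I) = I := by
    have h0 : (1 + I : ℂ) ≠ 0 := by
      intro h; have := congrArg Complex.re h; simp at this
    rw [div_eq_iff h0]
    push_cast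
    linear_combination -I_sq
  have h2 : ((1 + I) - (-(1:ℝ) + (1:ℝ) * I) : ℂ) = 2 := by push_cast; ring
  rw [h1, h2, log_I]
  push_cast
  ring

lemma J_two : J (-1) 2 =
    - (((Real.log 2 : ℝ) + (Real.pi / 2 : ℝ) * I) * ((3 + I) / 10)) := by
  rw [J_val (Or.inr (Or.inr rfl)) two_pos]
  have h1 : ((-(2:ℝ) + (2:ℝ) * I : ℂ)) / (1 + I) = (2:ℝ) * I := by
    have h0 : (1 + I : ℂ) ≠ 0 := by
      intro h; have := congrArg Complex.re h; simp at this
    rw [div_eq_iff h0]
    push_cast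
    linear_combination -2 * I_sq
  have h2 : ((1 + I) - (-(2:ℝ) + (2:ℝ) * I) : ℂ) = 3 - I := by push_cast; ring
  have h3 : (3 - I : ℂ) ≠ 0 := by
    intro h; have := congrArg Complex.re h; simp at this
  rw [h1, h2, log_ofReal_mul two_pos I_ne_zero, log_I]
  congr 1
  rw [div_eq_iff h3]
  push_cast
  linear_combination ((1/10) * ((Real.log 2 : ℂ) + Real.pi / 2 * I)) * I_sq

end Pool.Agent.MP559

end
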