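import Pool.Agent.Work.MP_559b1d_an.Bd.B02
import Pool.Agent.Work.MP_559b1d_an.Bd.B01

/-! Bundle of small proof modules (one section per former module). -/

section

open MeasureTheory Filter Topology Set Complex
open scoped ComplexConjugate ENNReal

namespace Pool.Agent.MP559

lemma En_scaled {c : ℝ} (hc : Good c) {δ h : ℝ} (hδ : 0 < δ) :
    (δ⁻¹ * ‖En c (h / δ)‖) ^ 2 ≤ 100 / (h ^ 2 + δ ^ 2) := by
  have h1 := En_bound hc (h / δ)
  rw [mul_pow]
  calc δ⁻¹ ^ 2 * ‖En c (h / δ)‖ ^ 2 ≤ δ⁻¹ ^ 2 * (10 / (1 + (h / δ) ^ 2)) := by gcongr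
    _ = 10 / (h ^ 2 + δ ^ 2) := by field_simp; ring
    _ ≤ 100 / (h ^ 2 + δ ^ 2) := by gcongr; norm_num

lemma pz_sq_bound {c : ℝ} (hc : Good c) {δ : ℝ} (hδ : 0 < δ) (hδ' : δ < 1/40)
    (σ : AddCircle (1:ℝ)) : ‖pz (zt δ c) σ‖ ^ 2 ≤ 100 / (‖σ‖ ^ 2 + δ ^ 2) := by
  obtain ⟨h, rfl, hn⟩ := exists_rep σ
  have hhalf := norm_le_half (h : AddCircle (1:ℝ))
  rw [← hn] at hhalf ⊢
  rw [sq_abs]
  obtain ⟨h1, h2⟩ := abs_le.mp hhalf
  have hfar : ‖pz (zt δ c) (h : AddCircle (1:ℝ))‖ ≤ 10 →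
      ‖pz (zt δ c) (h : AddCircle (1:ℝ))‖ ^ 2 ≤ 100 / (h ^ 2 + δ ^ 2) := by
    intro hb
    have e1 : ‖pz (zt δ c) (h : AddCircle (1:ℝ))‖ ^ 2 ≤ 100 := by
      nlinarith [norm_nonneg (pz (zt δ c) (h : AddCircle (1:ℝ)))]
    refine e1.trans ?_
    rw [le_div_iff₀ (by positivity)]
    nlinarith
  rcases le_total 0 h with h0 | h0
  · rcases le_total h (1/3) with h3 | h3
    · have e : h = δ * (h / δ) := by field_simp
      have := pz_right (c := c) hδ (v := h / δ) (by positivity) (by rw [← e]; exact h3)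
      rw [← e] at this
      rw [this, norm_mul, norm_inv, Complex.norm_real, Real.norm_of_nonneg hδ.le]
      exact En_scaled hc hδ
    · exact hfar (pz_far hc hδ hδ' ⟨h3, by linarith⟩)
  · rcases le_total (-(1/4)) h with h3 | h3
    · have e : δ * (-h / δ) = -h := by field_simp
      have hv : 0 ≤ -h / δ := div_nonneg (by linarith) hδ.le
      have := pz_left (c := c) hδ (v := -h / δ) hv (by rw [e]; linarith)
      rw [e, neg_neg] at this
      rw [this, norm_mul, norm_neg, norm_I, one_mul, norm_mul, norm_inv, Complex.norm_real,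
        Real.norm_of_nonneg hδ.le, RCLike.norm_conj]
      have := En_scaled hc (h := -h) hδ
      rwa [neg_sq] at this
    · apply hfar
      rw [← coe_add_one]
      exact pz_far hc hδ hδ' ⟨by linarith, by linarith⟩

lemma pz_scaled_le {c : ℝ} (hc : Good c) {δ : ℝ} (hδ : 0 < δ) (hδ' : δ < 1/40)
    {σ : AddCircle (1:ℝ)} (hσ : σ ≠ 0) : √δ * ‖pz (zt δ c) σ‖ ≤ 10 * (1 / √‖σ‖) := by
  have hn : 0 < ‖σ‖ := norm_pos_iff.mpr hσ
  have h1 := pz_sq_bound hc hδ hδ' σ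
  have h2 : (√δ * ‖pz (zt δ c) σ‖) ^ 2 ≤ (10 * (1 / √‖σ‖)) ^ 2 := by
    rw [mul_pow, Real.sq_sqrt hδ.le, mul_pow, div_pow, Real.sq_sqrt hn.le]
    calc δ * ‖pz (zt δ c) σ‖ ^ 2 ≤ δ * (100 / (‖σ‖ ^ 2 + δ ^ 2)) := by gcongr
      _ ≤ 10 ^ 2 * (1 ^ 2 / ‖σ‖) := by
        rw [mul_div_assoc', mul_div_assoc', div_le_div_iff₀ (by positivity) hn]
        nlinarith [sq_nonneg (‖σ‖ - δ), mul_pos hδ hn]
  exact le_of_sq_le_sq h2 (by positivity)

lemma pz_scaled_le' {c : ℝ} (hc : Good c) {δ : ℝ} (hδ : 0 < δ) (hδ' : δ < 1/40)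
    {σ : AddCircle (1:ℝ)} (hσ : σ ≠ 0) : √δ * ‖pz (zt δ c) σ‖ ≤ √δ * (10 / ‖σ‖) := by
  have hn : 0 < ‖σ‖ := norm_pos_iff.mpr hσ
  have h1 := pz_sq_bound hc hδ hδ' σ
  have h2 : ‖pz (zt δ c) σ‖ ^ 2 ≤ (10 / ‖σ‖) ^ 2 := by
    refine h1.trans ?_
    rw [div_pow]
    have : (10:ℝ)^2 = 100 := by norm_num
    rw [this]
    apply div_le_div_of_nonneg_left (by norm_num) (by positivity)
    nlinarith [sq_nonneg δ]
  exact mul_le_mul_of_nonneg_left (le_of_sq_le_sq h2 (by positivity)) (Real.sqrt_nonneg _)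

lemma integrable_inv_sqrt : Integrable (fun σ : AddCircle (1:ℝ) => 10 * (1 / √‖σ‖)) := by
  apply Integrable.const_mul
  refine ⟨?_, ?_⟩
  · apply Measurable.aestronglyMeasurable
    fun_prop
  · rw [hasFiniteIntegral_iff_ofReal (Eventually.of_forall fun σ => by positivity)]
    exact radial_sqrt.trans_lt ENNReal.ofReal_lt_top

lemma L1_null {c : ℝ} (hc : Good c) :
    Tendsto (fun δ : ℝ => ∫ σ : AddCircle (1:ℝ), √δ * ‖pz (zt δ c) σ‖) (𝓝[>] 0) (𝓝 0) := by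
  suffices h : Tendsto (fun δ : ℝ => ∫ σ : AddCircle (1:ℝ), √δ * ‖pz (zt δ c) σ‖) (𝓝[>] 0)
      (𝓝 (∫ σ : AddCircle (1:ℝ), (0:ℝ))) by simpa using h
  apply tendsto_integral_filter_of_dominated_convergence (fun σ => 10 * (1 / √‖σ‖))
  · filter_upwards [small_ev (r := 1/40) (by norm_num)] with δ hδ
    have := pz_cont (zt_not_mem hc hδ.1 (by linarith [hδ.2]))
    apply Continuous.aestronglyMeasurable
    fun_prop
  · filter_upwards [small_ev (r := 1/40) (by norm_num)] with δ hδ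
    filter_upwards [ae_ne_c (0 : AddCircle (1:ℝ))] with σ hσ
    rw [Real.norm_of_nonneg (by positivity)]
    exact pz_scaled_le hc hδ.1 hδ.2 hσ
  · exact integrable_inv_sqrt
  · filter_upwards [ae_ne_c (0 : AddCircle (1:ℝ))] with σ hσ
    have h1 : Tendsto (fun δ : ℝ => √δ * (10 / ‖σ‖)) (𝓝[>] 0) (𝓝 0) := by
      have : Tendsto (fun δ : ℝ => √δ * (10 / ‖σ‖)) (𝓝 0) (𝓝 (√0 * (10 / ‖σ‖))) :=
        (Real.continuous_sqrt.mul continuous_const).tendsto 0
      rw [Real.sqrt_zero, zero_mul] at this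
      exact this.mono_left nhdsWithin_le_nhds
    refine squeeze_zero' (Eventually.of_forall fun δ => by positivity) ?_ h1
    filter_upwards [small_ev (r := 1/40) (by norm_num)] with δ hδ
    exact pz_scaled_le' hc hδ.1 hδ.2 hσ

end Pool.Agent.MP559

end

section

open MeasureTheory Filter Topology Set Complex
open scoped ComplexConjugate ENNReal

namespace Pool.Agent.MP559

lemma J_bound {c c' : ℝ} (hc : Good c) (hc' : Good c') : ‖J c c'‖ ≤ 16 := by
  unfold J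
  calc ‖∫ v in Ioi (0:ℝ), En c v * conj (En c' v)‖
      ≤ ∫ v in Ioi (0:ℝ), 10 * (1 + v^2)⁻¹ :=
        norm_integral_le_of_norm_le (integrable_inv_one_add_sq.const_mul 10).integrableOn
          (Eventually.of_forall fun v => En_mul_bound hc hc' v)
    _ = 10 * (Real.pi / 2) := by
        rw [integral_const_mul, integral_Ioi_inv_one_add_sq]
        simp
    _ ≤ 16 := by have := Real.pi_lt_d2; linarith

/-- the limiting form -/
noncomputable def Th (θp θm : ℂ) (c c' : ℝ) : ℂ := θp * J c c' + θm * conj (J c c')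

lemma Th_bound (θp θm : ℂ) {c c' : ℝ} (hc : Good c) (hc' : Good c') :
    ‖Th θp θm c c'‖ ≤ 16 * (‖θp‖ + ‖θm‖) := by
  unfold Th
  have h1 := J_bound hc hc'
  calc _ ≤ ‖θp * J c c'‖ + ‖θm * conj (J c c')‖ := norm_add_le _ _
    _ = ‖θp‖ * ‖J c c'‖ + ‖θm‖ * ‖J c c'‖ := by rw [norm_mul, norm_mul, RCLike.norm_conj]
    _ ≤ ‖θp‖ * 16 + ‖θm‖ * 16 := by gcongr
    _ = _ := by ring

lemma Th_one (θp θm : ℂ) : ‖Th θp θm (-1) 1‖ = (Real.pi / 4) * ‖θp - θm‖ := by
  unfold Th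
  rw [J_one]
  have : θp * (-((Real.pi / 4 : ℝ) : ℂ) * I) + θm * conj (-((Real.pi / 4 : ℝ) : ℂ) * I) =
      (-((Real.pi / 4 : ℝ) : ℂ) * I) * (θp - θm) := by
    rw [map_mul, map_neg, conj_ofReal, conj_I]; ring
  rw [this, norm_mul, norm_mul, norm_neg, norm_I, mul_one, Complex.norm_real,
    Real.norm_of_nonneg (by positivity)]

lemma Th_two (θp θm : ℂ) : (1/20) * ‖θp + θm‖ ≤ ‖Th θp θm (-1) 2‖ + (3/5) * ‖θp - θm‖ := by
  set α : ℝ := (3 * Real.log 2 - Real.pi / 2) / 10 with hα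
  set β : ℝ := (Real.log 2 + 3 * Real.pi / 2) / 10 with hβ
  have hJ : J (-1) 2 = -((α : ℂ) + β * I) := by
    rw [J_two, hα, hβ]
    push_cast
    linear_combination (-(Real.pi : ℂ) / 20) * I_sq
  have h1 : Th θp θm (-1) 2 = -((α : ℂ) * (θp + θm) + (β * I) * (θp - θm)) := by
    unfold Th
    rw [hJ, map_neg, map_add, map_mul, conj_ofReal, conj_ofReal, conj_I]; ring
  have h2 : (α : ℂ) * (θp + θm) = -(Th θp θm (-1) 2) - (β * I) * (θp - θm) := by
    rw [h1]; ring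
  have hα1 : 1/20 ≤ α := by
    rw [hα]
    have := Real.log_two_gt_d9
    have := Real.pi_lt_d2
    linarith
  have hβ0 : 0 ≤ β := by
    rw [hβ]
    have := Real.log_two_gt_d9
    positivity
  have hβ1 : β ≤ 3/5 := by
    rw [hβ]
    have := Real.log_two_lt_d9
    have := Real.pi_lt_d2
    linarith
  have h3 : α * ‖θp + θm‖ ≤ ‖Th θp θm (-1) 2‖ + β * ‖θp - θm‖ := by
    calc α * ‖θp + θm‖ = ‖(α : ℂ) * (θp + θm)‖ := by
          rw [norm_mul, Complex.norm_real, Real.norm_of_nonneg (by linarith)]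
      _ ≤ ‖-(Th θp θm (-1) 2)‖ + ‖(β * I) * (θp - θm)‖ := by rw [h2]; exact norm_sub_le _ _
      _ = _ := by
          rw [norm_neg, norm_mul, norm_mul, norm_I, mul_one, Complex.norm_real,
            Real.norm_of_nonneg hβ0]
  nlinarith [norm_nonneg (θp + θm), norm_nonneg (θp - θm)]

/-- the algebraic contradiction -/
lemma hinge {θp θm : ℂ} {ε : ℝ} (hε : 0 < ε) (hε' : ε ≤ 1/10000000)
    (hN : 0 < ‖θp‖ + ‖θm‖)
    (h : ∀ c' : ℝ, (c' = 1 ∨ c' = 2) → ∀ μ : ℂ,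
      0 ≤ (((2 + ε : ℝ) : ℂ) * Th θp θm (-1) (-1) + μ * ((ε : ℝ) : ℂ) * Th θp θm c' (-1) +
        conj μ * ((2 + ε : ℝ) : ℂ) * Th θp θm (-1) c' +
        (conj μ * μ) * ((ε : ℝ) : ℂ) * Th θp θm c' c').re) : False := by
  set N := ‖θp‖ + ‖θm‖ with hNdef
  have key : ∀ c' : ℝ, (c' = 1 ∨ c' = 2) → ‖Th θp θm (-1) c'‖ ≤ N / 100 := by
    intro c' hc'
    have hg : Good c' := by
      rcases hc' with h | h
      · exact Or.inr (Or.inl h)
      · exact Or.inr (Or.inr h)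
    have hg1 : Good (-1) := Or.inl rfl
    rcases eq_or_ne (Th θp θm (-1) c') 0 with h0 | h0
    · rw [h0, norm_zero]; positivity
    · have hpos : 0 < ‖Th θp θm (-1) c'‖ := norm_pos_iff.mpr h0
      set t := Th θp θm (-1) c' with ht
      set w : ℂ := t / (‖t‖ : ℂ) with hw
      have hwn : ‖w‖ = 1 := by
        rw [hw, norm_div, Complex.norm_real, norm_norm, div_self hpos.ne']
      have hwt : conj w * t = (‖t‖ : ℂ) := by
        rw [hw, map_div₀, conj_ofReal, div_mul_eq_mul_div, mul_comm (conj t), Complex.mul_conj,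
          Complex.normSq_eq_norm_sq]
        have : (‖t‖ : ℂ) ≠ 0 := by exact_mod_cast hpos.ne'
        field_simp
        push_cast
        ring
      have hww : conj w * w = 1 := by
        rw [mul_comm, Complex.mul_conj, Complex.normSq_eq_norm_sq, hwn]; simp
      have h1 := h c' hc' (-(2000:ℝ) * w)
      have e1 : conj (-(2000:ℝ) * w : ℂ) * ((2 + ε : ℝ) : ℂ) * t =
          ((-2000 * (2 + ε) * ‖t‖ : ℝ) : ℂ) := by
        rw [map_mul, map_neg, conj_ofReal]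
        have : -((2000:ℝ):ℂ) * conj w * ((2 + ε : ℝ) : ℂ) * t =
          -((2000:ℝ):ℂ) * ((2 + ε : ℝ) : ℂ) * (conj w * t) := by ring
        rw [this, hwt]; push_cast; ring
      have e2 : conj (-(2000:ℝ) * w : ℂ) * (-(2000:ℝ) * w) = ((4000000 : ℝ) : ℂ) := by
        rw [map_mul, map_neg, conj_ofReal]
        have : -((2000:ℝ):ℂ) * conj w * (-(2000:ℝ) * w) = ((2000:ℝ):ℂ)^2 * (conj w * w) := by ring
        rw [this, hww]; push_cast; norm_num
      rw [e1, e2] at h1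
      simp only [Complex.add_re] at h1
      rw [Complex.ofReal_re] at h1
      have b1 : (((2 + ε : ℝ) : ℂ) * Th θp θm (-1) (-1)).re ≤ (2 + ε) * (16 * N) := by
        refine (Complex.re_le_norm _).trans ?_
        rw [norm_mul, Complex.norm_real, Real.norm_of_nonneg (by linarith)]
        exact mul_le_mul_of_nonneg_left (Th_bound θp θm hg1 hg1) (by linarith)
      have b2 : (-(2000:ℝ) * w * ((ε : ℝ) : ℂ) * Th θp θm c' (-1)).re ≤ 2000 * ε * (16 * N) := by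
        refine (Complex.re_le_norm _).trans ?_
        rw [norm_mul, norm_mul, norm_mul, norm_neg, hwn, mul_one, Complex.norm_real,
          Complex.norm_real, Real.norm_of_nonneg hε.le, Real.norm_of_nonneg (by norm_num)]
        exact mul_le_mul_of_nonneg_left (Th_bound θp θm hg hg1) (by positivity)
      have b3 : (((4000000 : ℝ) : ℂ) * ((ε : ℝ) : ℂ) * Th θp θm c' c').re ≤
          4000000 * ε * (16 * N) := by
        refine (Complex.re_le_norm _).trans ?_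
        rw [norm_mul, norm_mul, Complex.norm_real,
          Complex.norm_real, Real.norm_of_nonneg hε.le, Real.norm_of_nonneg (by norm_num)]
        exact mul_le_mul_of_nonneg_left (Th_bound θp θm hg hg) (by positivity)
      have hNn : 0 ≤ N := hN.le
      nlinarith [mul_nonneg hε.le hNn, mul_nonneg hε.le hpos.le, mul_le_mul_of_nonneg_right hε' hNn]
  have k1 := key 1 (Or.inl rfl)
  have k2 := key 2 (Or.inr rfl)
  rw [Th_one] at k1
  have k3 := Th_two θp θm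
  have hpi := Real.pi_gt_three
  have k4 : ‖θp - θm‖ ≤ N / 75 := by
    nlinarith [norm_nonneg (θp - θm)]
  have k5 : ‖θp + θm‖ ≤ 36 * N / 100 := by linarith
  have k6 : 2 * ‖θp‖ ≤ ‖θp + θm‖ + ‖θp - θm‖ := by
    calc 2 * ‖θp‖ = ‖(2:ℂ) * θp‖ := by rw [norm_mul]; simp
      _ = ‖(θp + θm) + (θp - θm)‖ := by congr 1; ring
      _ ≤ _ := norm_add_le _ _
  have k7 : 2 * ‖θm‖ ≤ ‖θp + θm‖ + ‖θp - θm‖ := by
    calc 2 * ‖θm‖ = ‖(2:ℂ) * θm‖ := by rw [norm_mul]; simp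
      _ = ‖(θp + θm) - (θp - θm)‖ := by congr 1; ring
      _ ≤ _ := norm_sub_le _ _
  linarith

end Pool.Agent.MP559

end

section

open MeasureTheory Filter Topology Set Complex
open scoped ComplexConjugate ENNReal

namespace Pool.Agent.MP559

/-- the normalised test vectors -/
noncomputable def ev (δ c : ℝ) : Lp ℂ 2 (volume : Measure (AddCircle (1:ℝ))) :=
  ((√δ : ℝ) : ℂ) • PZ (zt δ c)

lemma ev_coe {c : ℝ} (hc : Good c) {δ : ℝ} (hδ : 0 < δ) (hδ' : δ < 1/40) :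
    ev δ c =ᵐ[volume] fun s => ((√δ : ℝ) : ℂ) * pz (zt δ c) s := by
  unfold ev
  filter_upwards [Lp.coeFn_smul ((√δ : ℝ) : ℂ) (PZ (zt δ c)),
    PZ_coe (zt_not_mem hc hδ (by linarith))] with s h1 h2
  rw [h1, Pi.smul_apply, h2, smul_eq_mul]

lemma inner_ev {θ : AddCircle (1:ℝ) → ℂ} {c c' : ℝ} (hc : Good c) (hc' : Good c') {δ : ℝ}
    (hδ : 0 < δ) (hδ' : δ < 1/40) {F : Lp ℂ 2 (volume : Measure (AddCircle (1:ℝ)))} {κ : ℂ}
    (hF : F =ᵐ[volume] fun s => θ s * (κ * ev δ c s)) :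
    inner ℂ (ev δ c') F = κ * Qf θ δ c c' := by
  rw [MeasureTheory.L2.inner_def]
  unfold Qf
  rw [← integral_const_mul, ← integral_const_mul]
  apply integral_congr_ae
  filter_upwards [hF, ev_coe hc hδ hδ', ev_coe hc' hδ hδ'] with s h1 h2 h3
  rw [h1, h2, h3, RCLike.inner_apply, map_mul, conj_ofReal]
  have h4 : ((√δ : ℝ) : ℂ) * ((√δ : ℝ) : ℂ) = δ := by
    rw [← Complex.ofReal_mul, Real.mul_self_sqrt hδ.le]
  linear_combination (κ * θ s * pz (zt δ c) s * conj (pz (zt δ c') s)) * h4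

lemma ev_norm_bdd {c : ℝ} (hc : Good c) {u : ℕ → ℝ} (hu : ∀ n, 0 < u n ∧ u n < 1/40)
    (hlim : Tendsto u atTop (𝓝[>] 0)) : ∃ M : ℝ, ∀ n, ‖ev (u n) c‖ ≤ M := by
  have h1 := (Q_lim (θ := fun _ => 1) aestronglyMeasurable_const (C := 1) (fun t => by simp)
    (θp := 1) (θm := 1) tendsto_const_nhds tendsto_const_nhds hc hc).comp hlim
  obtain ⟨M, hM⟩ := h1.norm.bddAbove_range
  refine ⟨M + 1, fun n => ?_⟩
  have h2 : inner ℂ (ev (u n) c) (ev (u n) c) = 1 * Qf (fun _ => 1) (u n) c c :=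
    inner_ev hc hc (hu n).1 (hu n).2 (Eventually.of_forall fun s => by simp)
  rw [one_mul, inner_self_eq_norm_sq_to_K] at h2
  have h3 : ‖ev (u n) c‖ ^ 2 ≤ M := by
    have h4 : ‖Qf (fun _ => 1) (u n) c c‖ ≤ M := hM ⟨n, rfl⟩
    rw [← h2] at h4
    simpa using h4
  nlinarith [norm_nonneg (ev (u n) c), sq_nonneg (‖ev (u n) c‖ - 1)]

lemma ev_weak_null {c : ℝ} (hc : Good c) {u : ℕ → ℝ} (hu : ∀ n, 0 < u n ∧ u n < 1/40)
    (hlim : Tendsto u atTop (𝓝[>] 0)) (y : Lp ℂ 2 (volume : Measure (AddCircle (1:ℝ)))) :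
    Tendsto (fun n => inner ℂ y (ev (u n) c)) atTop (𝓝 0) := by
  obtain ⟨M, hM⟩ := ev_norm_bdd hc hu hlim
  have hM0 : 0 ≤ M := (norm_nonneg _).trans (hM 0)
  have hdense : Dense (range (ContinuousMap.toLp (E := ℂ) 2
      (volume : Measure (AddCircle (1:ℝ))) ℂ)) :=
    ContinuousMap.toLp_denseRange ℂ volume ℂ (by norm_num)
  refine weak_null_of_dense hdense hM0 hM ?_ y
  rintro _ ⟨g, rfl⟩
  have h1 : Tendsto (fun n => ‖g‖ * ∫ σ : AddCircle (1:ℝ), √(u n) * ‖pz (zt (u n) c) σ‖) atTop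
      (𝓝 0) := by
    have := ((L1_null hc).comp hlim).const_mul ‖g‖
    simpa using this
  refine squeeze_zero_norm (fun n => ?_) h1
  rw [MeasureTheory.L2.inner_def, ← integral_const_mul]
  apply norm_integral_le_of_norm_le
  · apply Integrable.const_mul
    have hcont := pz_cont (zt_not_mem hc (hu n).1 (by linarith [(hu n).2]))
    have : Continuous (fun σ : AddCircle (1:ℝ) => √(u n) * ‖pz (zt (u n) c) σ‖) := by fun_prop
    exact this.integrable_of_hasCompactSupport (HasCompactSupport.of_compactSpace _)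
  · filter_upwards [ev_coe hc (hu n).1 (hu n).2, ContinuousMap.coeFn_toLp (p := 2) (𝕜 := ℂ)
      (volume : Measure (AddCircle (1:ℝ))) g] with s h2 h3
    rw [h2, h3, RCLike.inner_apply, norm_mul, norm_mul, RCLike.norm_conj, Complex.norm_real,
      Real.norm_of_nonneg (Real.sqrt_nonneg _), mul_comm]
    exact mul_le_mul_of_nonneg_right (g.norm_coe_le_norm s) (by positivity)

end Pool.Agent.MP559

end
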